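import Mathlib

/-!
# Y8: local integrability of negative powers of binary forms away from the origin
-/

noncomputable section

namespace MPb07157.Alp

open MeasureTheory Filter Topology
open scoped ENNReal

namespace Y8

theorem integrableOn_ball_rpow {p : ℝ} (hp : p < 2) (R : ℝ) :
    IntegrableOn (fun y : ℂ => ‖y‖ ^ (-p)) (Metric.ball (0 : ℂ) R) := by
  rcases le_or_gt R 0 with hR | hR
  · rw [Metric.ball_eq_empty.2 hR]
    exact integrableOn_empty
  rw [show (fun y : ℂ => ‖y‖ ^ (-p)) = fun y : ℂ => (fun r : ℝ => r ^ (-p)) ‖y‖ from rfl,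
    integrableOn_fun_norm_addHaar (μ := (volume : Measure ℂ)) (f := fun r : ℝ => r ^ (-p))]
  have h1 : IntegrableOn (fun y : ℝ => y ^ (1 - p)) (Set.Ioo 0 R) := by
    rw [intervalIntegral.integrableOn_Ioo_rpow_iff hR]
    linarith
  refine (integrableOn_congr_fun (fun y hy => ?_) measurableSet_Ioo).1 h1
  have hy0 : (0 : ℝ) < y := hy.1
  simp only [Complex.finrank_real_complex, smul_eq_mul, Nat.add_one_sub_one, pow_one]
  rw [sub_eq_add_neg, Real.rpow_add hy0, Real.rpow_one]

/-- The shear `(u, v) ↦ (u, v - τ u)`. -/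
def shear (τ : ℂ) : ℂ × ℂ ≃ₜ ℂ × ℂ where
  toFun z := (z.1, z.2 - τ * z.1)
  invFun z := (z.1, z.2 + τ * z.1)
  left_inv z := by simp
  right_inv z := by simp
  continuous_toFun := by fun_prop
  continuous_invFun := by fun_prop

theorem measurePreserving_shear (τ : ℂ) :
    MeasurePreserving (shear τ) (volume : Measure (ℂ × ℂ)) volume := by
  have h := (MeasurePreserving.id (volume : Measure ℂ)).skew_product
    (g := fun u v => v - τ * u) (μb := (volume : Measure ℂ)) (μd := (volume : Measure ℂ))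
    (by fun_prop) (Eventually.of_forall fun u => (measurePreserving_sub_right volume (τ * u)).map_eq)
  exact h

theorem integrableOn_prod {p : ℝ} (hp : p < 2) (τ : ℂ) (R : ℝ) :
    IntegrableOn (fun z : ℂ × ℂ => ‖z.2 - τ * z.1‖ ^ (-p))
      (Metric.ball 0 R ×ˢ Metric.ball 0 R) := by
  have h1 : IntegrableOn (fun z : ℂ × ℂ => ‖z.2‖ ^ (-p))
      (Metric.ball 0 R ×ˢ Metric.ball 0 (R + ‖τ‖ * R)) := by
    unfold IntegrableOn
    rw [Measure.volume_eq_prod, ← Measure.prod_restrict]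
    have : IsFiniteMeasure ((volume : Measure ℂ).restrict (Metric.ball 0 R)) :=
      ⟨by rw [Measure.restrict_apply_univ]; exact measure_ball_lt_top⟩
    exact (integrableOn_ball_rpow hp (R + ‖τ‖ * R)).comp_snd _
  have h2 := ((measurePreserving_shear τ).integrableOn_comp_preimage
    (shear τ).measurableEmbedding).2 h1
  refine h2.mono_set ?_
  rintro ⟨u, v⟩ ⟨hu, hv⟩
  rw [Metric.mem_ball, dist_zero_right] at hu hv
  refine ⟨?_, ?_⟩
  · rw [Metric.mem_ball, dist_zero_right]
    exact hu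
  · rw [Metric.mem_ball, dist_zero_right]
    change ‖v - τ * u‖ < _
    calc ‖v - τ * u‖ ≤ ‖v‖ + ‖τ * u‖ := norm_sub_le _ _
      _ = ‖v‖ + ‖τ‖ * ‖u‖ := by rw [norm_mul]
      _ < R + ‖τ‖ * R := by
        have := mul_le_mul_of_nonneg_left hu.le (norm_nonneg τ)
        simp only at this hv
        linarith

theorem integrableOn_prod' {p : ℝ} (hp : p < 2) (τ : ℂ) (R : ℝ) :
    IntegrableOn (fun z : ℂ × ℂ => ‖z.1 - τ * z.2‖ ^ (-p))
      (Metric.ball 0 R ×ˢ Metric.ball 0 R) := by
  have h1 := integrableOn_prod hp τ R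
  have h2 := ((Measure.measurePreserving_swap (μ := (volume : Measure ℂ))
    (ν := (volume : Measure ℂ))).integrableOn_comp_preimage
    (MeasurableEquiv.prodComm.measurableEmbedding)).2 h1
  refine h2.mono_set ?_
  rintro ⟨u, v⟩ ⟨hu, hv⟩
  exact ⟨hv, hu⟩

theorem integrableOn_fin {p : ℝ} (hp : p < 2) (τ : ℂ) (R : ℝ) {i j : Fin 2} (hij : i ≠ j) :
    IntegrableOn (fun x : Fin 2 → ℂ => ‖x j - τ * x i‖ ^ (-p)) {x | ‖x 0‖ < R ∧ ‖x 1‖ < R} := by
  have key : ∀ g : ℂ × ℂ → ℝ, IntegrableOn g (Metric.ball 0 R ×ˢ Metric.ball 0 R) →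
      IntegrableOn (fun x : Fin 2 → ℂ => g (x 0, x 1)) {x | ‖x 0‖ < R ∧ ‖x 1‖ < R} := by
    intro g hg
    have h2 := ((volume_preserving_finTwoArrow ℂ).integrableOn_comp_preimage
      (MeasurableEquiv.finTwoArrow.measurableEmbedding)).2 hg
    refine h2.mono_set ?_
    rintro x ⟨h0, h1⟩
    refine ⟨?_, ?_⟩
    · rw [Metric.mem_ball, dist_zero_right]
      exact h0
    · rw [Metric.mem_ball, dist_zero_right]
      exact h1
  have hi : (i = 0 ∧ j = 1) ∨ (i = 1 ∧ j = 0) := by
    revert hij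
    fin_cases i <;> fin_cases j <;> simp
  rcases hi with ⟨rfl, rfl⟩ | ⟨rfl, rfl⟩
  · exact key _ (integrableOn_prod hp τ R)
  · exact key _ (integrableOn_prod' hp τ R)

/-! ### algebra -/

theorem eval_smul {q : MvPolynomial (Fin 2) ℂ} {m : ℕ} (hm : q.IsHomogeneous m) (c : ℂ)
    (x : Fin 2 → ℂ) : MvPolynomial.eval (c • x) q = c ^ m * MvPolynomial.eval x q := by
  rw [MvPolynomial.eval_eq, MvPolynomial.eval_eq, Finset.mul_sum]
  refine Finset.sum_congr rfl fun d hd => ?_
  have hdm : d.degree = m := by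
    have := hm (MvPolynomial.mem_support_iff.1 hd)
    rw [← this, Finsupp.degree_eq_weight_one]
    rfl
  rw [← hdm]
  simp only [Pi.smul_apply, smul_eq_mul, mul_pow, Finset.prod_mul_distrib, Finset.prod_pow_eq_pow_sum]
  rw [Finsupp.degree_apply]
  ring

/-- dehomogenization -/
def deh (i : Fin 2) (q : MvPolynomial (Fin 2) ℂ) : Polynomial ℂ :=
  MvPolynomial.aeval (fun k => if k = i then (1 : Polynomial ℂ) else Polynomial.X) q

theorem eval_deh (i : Fin 2) (q : MvPolynomial (Fin 2) ℂ) (t : ℂ) :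
    (deh i q).eval t = MvPolynomial.eval (fun k => if k = i then 1 else t) q := by
  unfold deh
  rw [← Polynomial.coe_evalRingHom, MvPolynomial.aeval_def, ← MvPolynomial.coe_eval₂Hom]
  rw [← RingHom.comp_apply]
  rw [MvPolynomial.comp_eval₂Hom]
  rw [MvPolynomial.coe_eval₂Hom, MvPolynomial.eval, MvPolynomial.coe_eval₂Hom]
  congr 1
  · ext z
    simp
  · funext k
    by_cases hk : k = i <;> simp [hk]

theorem eval_eq_deh {q : MvPolynomial (Fin 2) ℂ} {m : ℕ} (hm : q.IsHomogeneous m) {i j : Fin 2}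
    (hij : i ≠ j) {x : Fin 2 → ℂ} (hx : x i ≠ 0) :
    MvPolynomial.eval x q = x i ^ m * (deh i q).eval (x j / x i) := by
  rw [eval_deh, ← eval_smul hm]
  congr 2
  funext k
  have hk : k = i ∨ k = j := by
    revert hij
    fin_cases i <;> fin_cases j <;> fin_cases k <;> simp
  rcases hk with rfl | rfl
  · simp
  · simp [hij.symm]
    field_simp

theorem natDegree_deh_le {q : MvPolynomial (Fin 2) ℂ} {m : ℕ} (hm : q.IsHomogeneous m) (i : Fin 2) :
    (deh i q).natDegree ≤ m := by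
  have h := MvPolynomial.aeval_natDegree_le (n := 1) q hm.totalDegree_le
    (fun k => if k = i then (1 : Polynomial ℂ) else Polynomial.X) (fun k => by
      by_cases hk : k = i <;> simp [hk])
  rw [mul_one] at h
  exact h

theorem deh_ne_zero {q : MvPolynomial (Fin 2) ℂ} {m : ℕ} (hq : q ≠ 0) (hm : q.IsHomogeneous m)
    {i j : Fin 2} (hij : i ≠ j) : deh i q ≠ 0 := by
  intro h0
  apply hq
  have h1 : MvPolynomial.X i * q = 0 := by
    apply MvPolynomial.funext
    intro x
    rw [map_mul, MvPolynomial.eval_X, map_zero]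
    by_cases hx : x i = 0
    · rw [hx, zero_mul]
    · rw [eval_eq_deh hm hij hx, h0]
      simp
  rcases mul_eq_zero.1 h1 with h | h
  · exact absurd h (MvPolynomial.X_ne_zero i)
  · exact h

/-- homogenization in degree `d` -/
def hom (i j : Fin 2) (d : ℕ) (r : Polynomial ℂ) : MvPolynomial (Fin 2) ℂ :=
  ∑ k ∈ Finset.range (d + 1), MvPolynomial.C (r.coeff k) * MvPolynomial.X i ^ (d - k) *
    MvPolynomial.X j ^ k

theorem eval_hom {i j : Fin 2} {d : ℕ} {r : Polynomial ℂ} (hr : r.natDegree ≤ d) {x : Fin 2 → ℂ}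
    (hx : x i ≠ 0) : MvPolynomial.eval x (hom i j d r) = x i ^ d * r.eval (x j / x i) := by
  unfold hom
  rw [map_sum, Polynomial.eval_eq_sum_range' (Nat.lt_succ_of_le hr), Finset.mul_sum]
  refine Finset.sum_congr rfl fun k hk => ?_
  have hk' : k ≤ d := Nat.lt_succ_iff.1 (Finset.mem_range.1 hk)
  simp only [map_mul, map_pow, MvPolynomial.eval_C, MvPolynomial.eval_X]
  have : x i ^ d = x i ^ (d - k) * x i ^ k := by rw [← pow_add, Nat.sub_add_cancel hk']
  rw [this, div_pow]
  field_simp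

theorem dvd_of_factor {q : MvPolynomial (Fin 2) ℂ} {m : ℕ} (hm : q.IsHomogeneous m) {i j : Fin 2}
    (hij : i ≠ j) {τ : ℂ} {e : ℕ} {r : Polynomial ℂ}
    (hr : deh i q = (Polynomial.X - Polynomial.C τ) ^ e * r) (hr0 : r ≠ 0) :
    (MvPolynomial.X j - MvPolynomial.C τ * MvPolynomial.X i) ^ e ∣ q := by
  have hdeg : e + r.natDegree ≤ m := by
    have h := natDegree_deh_le hm i
    rw [hr, Polynomial.natDegree_mul (pow_ne_zero _ (Polynomial.X_sub_C_ne_zero τ)) hr0,
      Polynomial.natDegree_pow, Polynomial.natDegree_X_sub_C, mul_one] at h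
    exact h
  refine ⟨hom i j (m - e) r, ?_⟩
  have h1 : MvPolynomial.X i * (q - (MvPolynomial.X j - MvPolynomial.C τ * MvPolynomial.X i) ^ e *
      hom i j (m - e) r) = 0 := by
    apply MvPolynomial.funext
    intro x
    rw [map_mul, MvPolynomial.eval_X, map_zero]
    by_cases hx : x i = 0
    · rw [hx, zero_mul]
    · rw [map_sub, map_mul, map_pow, map_sub, map_mul, MvPolynomial.eval_X, MvPolynomial.eval_X,
        MvPolynomial.eval_C, eval_hom (by omega) hx, eval_eq_deh hm hij hx, hr, Polynomial.eval_mul,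
        Polynomial.eval_pow, Polynomial.eval_sub, Polynomial.eval_X, Polynomial.eval_C]
      have h2 : x j - τ * x i = x i * (x j / x i - τ) := by field_simp
      have h3 : x i ^ m = x i ^ e * x i ^ (m - e) := by rw [← pow_add]; congr 1; omega
      rw [h2, mul_pow, h3]
      ring
  rcases mul_eq_zero.1 h1 with h | h
  · exact absurd h (MvPolynomial.X_ne_zero i)
  · exact sub_eq_zero.1 h

theorem isHomogeneous_lin {i j : Fin 2} (τ : ℂ) :
    (MvPolynomial.X j - MvPolynomial.C τ * MvPolynomial.X i : MvPolynomial (Fin 2) ℂ).IsHomogeneous 1 := by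
  refine MvPolynomial.IsHomogeneous.sub (MvPolynomial.isHomogeneous_X _ _) ?_
  have := (MvPolynomial.isHomogeneous_C (Fin 2) τ).mul (MvPolynomial.isHomogeneous_X ℂ i)
  rwa [zero_add] at this

theorem lin_ne_zero {i j : Fin 2} (hij : i ≠ j) (τ : ℂ) :
    (MvPolynomial.X j - MvPolynomial.C τ * MvPolynomial.X i : MvPolynomial (Fin 2) ℂ) ≠ 0 := by
  intro h
  have h1 := congrArg (MvPolynomial.eval (fun k => if k = j then (1 : ℂ) else 0)) h
  simp [hij] at h1

end Y8

open Y8

/-- Binary forms. -/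
theorem integrableOn_binary {q : MvPolynomial (Fin 2) ℂ} {m : ℕ} (hq : q ≠ 0)
    (hm : q.IsHomogeneous m) {a : ℝ} (ha : 0 < a)
    (hmult : ∀ l : MvPolynomial (Fin 2) ℂ, l.IsHomogeneous 1 → l ≠ 0 → ∀ e : ℕ, l ^ e ∣ q →
      e * a < 1)
    {K : Set (Fin 2 → ℂ)} (hK : IsCompact K) (h0 : (0 : Fin 2 → ℂ) ∉ K) :
    IntegrableOn (fun x => ‖MvPolynomial.eval x q‖ ^ (-(2 * a))) K := by
  refine LocallyIntegrableOn.integrableOn_isCompact (fun θ hθ => ?_) hK
  refine IntegrableAtFilter.filter_mono nhdsWithin_le_nhds ?_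
  have hθ0 : θ ≠ 0 := fun h => h0 (h ▸ hθ)
  obtain ⟨i, hi⟩ : ∃ i, θ i ≠ 0 := by
    by_contra hcon
    push Not at hcon
    exact hθ0 (funext hcon)
  obtain ⟨j, hij⟩ : ∃ j : Fin 2, i ≠ j := by
    fin_cases i
    · exact ⟨1, by simp⟩
    · exact ⟨0, by simp⟩
  set τ : ℂ := θ j / θ i with hτ
  have hd0 := deh_ne_zero hq hm hij
  obtain ⟨r, hr⟩ := Polynomial.pow_rootMultiplicity_dvd (deh i q) τ
  set e := (deh i q).rootMultiplicity τ with he
  have hr0 : r ≠ 0 := by
    rintro rfl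
    rw [mul_zero] at hr
    exact hd0 hr
  have hrτ : r.eval τ ≠ 0 := by
    intro h
    obtain ⟨r', hr'⟩ := Polynomial.dvd_iff_isRoot.2 h
    have : (Polynomial.X - Polynomial.C τ) ^ (e + 1) ∣ deh i q := by
      rw [hr, hr', pow_succ]
      exact ⟨r', by ring⟩
    have h2 := (Polynomial.le_rootMultiplicity_iff hd0).2 this
    omega
  have hea : (e : ℝ) * a < 1 :=
    hmult _ (isHomogeneous_lin τ) (lin_ne_zero hij τ) e (dvd_of_factor hm hij hr hr0)
  have hem : e ≤ m := by
    have h := natDegree_deh_le hm i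
    rw [hr, Polynomial.natDegree_mul (pow_ne_zero _ (Polynomial.X_sub_C_ne_zero τ)) hr0,
      Polynomial.natDegree_pow, Polynomial.natDegree_X_sub_C, mul_one] at h
    omega
  -- the factorization near `θ`
  have hfac : ∀ x : Fin 2 → ℂ, x i ≠ 0 → MvPolynomial.eval x q =
      (x j - τ * x i) ^ e * (x i ^ (m - e) * r.eval (x j / x i)) := by
    intro x hx
    rw [eval_eq_deh hm hij hx, hr, Polynomial.eval_mul, Polynomial.eval_pow, Polynomial.eval_sub,
      Polynomial.eval_X, Polynomial.eval_C]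
    have h2 : x j - τ * x i = x i * (x j / x i - τ) := by field_simp
    have h3 : x i ^ m = x i ^ e * x i ^ (m - e) := by rw [← pow_add]; congr 1; omega
    rw [h2, mul_pow, h3]
    ring
  -- the second factor
  set G : (Fin 2 → ℂ) → ℝ := fun x => ‖x i ^ (m - e) * r.eval (x j / x i)‖ ^ (-(2 * a)) with hG
  have hGc : ContinuousAt G θ := by
    have h1 : ContinuousAt (fun x : Fin 2 → ℂ => x i ^ (m - e) * r.eval (x j / x i)) θ := by
      have h2 : ContinuousAt (fun x : Fin 2 → ℂ => x j / x i) θ :=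
        ContinuousAt.div (continuous_apply j).continuousAt (continuous_apply i).continuousAt hi
      have h3 : ContinuousAt (fun x : Fin 2 → ℂ => r.eval (x j / x i)) θ :=
        ContinuousAt.comp (f := fun x : Fin 2 → ℂ => x j / x i) (g := fun z => r.eval z)
          r.continuous.continuousAt h2
      exact ContinuousAt.mul ((continuous_apply i).pow _).continuousAt h3
    refine ContinuousAt.rpow_const h1.norm (Or.inl ?_)
    rw [norm_ne_zero_iff]
    exact mul_ne_zero (pow_ne_zero _ hi) hrτ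
  obtain ⟨C, hC⟩ : ∃ C : ℝ, ∀ᶠ x in 𝓝 θ, G x ≤ C :=
    ⟨G θ + 1, (hGc.eventually_lt continuousAt_const (lt_add_one _)).mono fun x hx => hx.le⟩
  have hne : ∀ᶠ x : Fin 2 → ℂ in 𝓝 θ, x i ≠ 0 :=
    (continuous_apply i).continuousAt.eventually_ne hi
  set R : ℝ := ‖θ 0‖ + ‖θ 1‖ + 1 with hR
  have hball : {x : Fin 2 → ℂ | ‖x 0‖ < R ∧ ‖x 1‖ < R} ∈ 𝓝 θ := by
    refine IsOpen.mem_nhds ?_ ⟨?_, ?_⟩
    · exact (isOpen_lt (continuous_apply (0 : Fin 2)).norm continuous_const).inter
        (isOpen_lt (continuous_apply (1 : Fin 2)).norm continuous_const)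
    · have := norm_nonneg (θ 1)
      linarith
    · have := norm_nonneg (θ 0)
      linarith
  have hint := integrableOn_fin (p := 2 * a * e) (by nlinarith) τ R hij
  have hS := Filter.inter_mem hball (Filter.inter_mem hC hne)
  obtain ⟨S, hSsub, hSo, hSθ⟩ := mem_nhds_iff.1 hS
  refine ⟨S, hSo.mem_nhds hSθ, ?_⟩
  have hint' : IntegrableOn (fun x : Fin 2 → ℂ => C * ‖x j - τ * x i‖ ^ (-(2 * a * e))) S :=
    (hint.mono_set fun x hx => (hSsub hx).1).const_mul C
  refine Integrable.mono' hint' ?_ ?_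
  · refine Measurable.aestronglyMeasurable ?_
    have h1 : Measurable fun x : Fin 2 → ℂ => MvPolynomial.eval x q :=
      (MvPolynomial.continuous_eval q).measurable
    exact h1.norm.pow_const _
  · refine (ae_restrict_iff' hSo.measurableSet).2 (Eventually.of_forall fun x hx => ?_)
    obtain ⟨-, h2, h3⟩ := hSsub hx
    rw [Real.norm_of_nonneg (Real.rpow_nonneg (norm_nonneg _) _), hfac x h3, norm_mul, norm_pow,
      Real.mul_rpow (by positivity) (norm_nonneg _), ← Real.rpow_natCast, ← Real.rpow_mul (norm_nonneg _)]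
    rw [mul_comm, show (e : ℝ) * -(2 * a) = -(2 * a * e) by ring]
    exact mul_le_mul_of_nonneg_right h2 (Real.rpow_nonneg (norm_nonneg _) _)

end MPb07157.Alp
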