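import Mathlib

/-!
# Homogeneous polynomials and a point of large multiplicity: definitions
-/

noncomputable section

namespace MPb07157.Alp

open MvPolynomial

variable {n : ℕ}

/-- The leading coefficient with respect to the first variable. -/
def qf (f : MvPolynomial (Fin (n + 1)) ℂ) : MvPolynomial (Fin n) ℂ :=
  (finSuccEquiv ℂ n f).leadingCoeff

/-- A homogeneous polynomial of degree `d` in `n + 1` variables with a point of multiplicity
`m = d - k`, where `(n + 1) k < d`. -/
structure Dat (f : MvPolynomial (Fin (n + 1)) ℂ) (d k m : ℕ) : Prop where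
  hom : f.IsHomogeneous d
  deg : (finSuccEquiv ℂ n f).natDegree = k
  hk : 2 ≤ k
  hd : m + k = d
  lt : (n + 1) * k < d

/-- Some line through the point meets `f = 0` in two further points. -/
def TwoPoints (f : MvPolynomial (Fin (n + 1)) ℂ) : Prop :=
  ∃ (x : Fin n → ℂ) (y₁ y₂ : ℂ), eval x (qf f) ≠ 0 ∧ y₁ ≠ y₂ ∧
    eval (Fin.cons y₁ x : Fin (n + 1) → ℂ) f = 0 ∧ eval (Fin.cons y₂ x : Fin (n + 1) → ℂ) f = 0

end MPb07157.Alp
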