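import Pool.Agent.Lib.MP_b07157_agY.Ym7
import Pool.Agent.Lib.MP_b07157_agY.Y8
import Pool.Agent.Lib.MP_b07157_agS.SE
import Pool.Agent.Lib.MP_b07157_agY.Yd

/-!
# The root `-n/d`: final form
-/

noncomputable section

namespace MPb07157.Alp

open MeasureTheory Filter Topology MvPolynomial
open scoped ENNReal

variable {n : ℕ} {f : MvPolynomial (Fin (n + 1)) ℂ} {d k m : ℕ}

/-- **The root `-n/d`** of a homogeneous polynomial of degree `d` in `n` variables with a point of
multiplicity greater than `(1 - 1/n) d`. Here `n + 1` is the number of variables. -/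
theorem root_of_large_mult (h : Dat f d k m) (hH : HInt f d k) (h2 : TwoPoints f)
    {b : Polynomial ℂ} (hb : IsBernsteinSato f b) :
    b.eval (((-(((n + 1 : ℕ) : ℚ) / d) : ℚ)) : ℂ) = 0 := by
  obtain ⟨x, y₁, y₂, hq, h12, h3, h4⟩ := h2
  rw [eval_cons] at h3 h4
  have h5 := h.root hH hq h12 h3 h4 hb
  rw [← h5]
  unfold cc
  push_cast
  rfl

/-- Invariance under automorphisms. -/
theorem isBernsteinSato_equiv {N : ℕ} {f : MvPolynomial (Fin N) ℂ}
    (e : MvPolynomial (Fin N) ℂ ≃ₐ[ℂ] MvPolynomial (Fin N) ℂ) {b : Polynomial ℂ}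
    (hb : IsBernsteinSato f b) : IsBernsteinSato (e f) b := by
  have h1 := InDn.equiv e hb
  have h2 : extS e (C b : MvPolynomial (Fin N) (Polynomial ℂ)) = C b := by
    unfold extS
    rw [aeval_C]
    rfl
  rw [h2] at h1
  exact h1

/-- The condition on the tangent cone for three variables. -/
theorem hInt_three {f : MvPolynomial (Fin 3) ℂ} (h : Dat (n := 2) f d k m)
    (hmult : ∀ l : MvPolynomial (Fin 2) ℂ, l.IsHomogeneous 1 → l ≠ 0 → ∀ e : ℕ, l ^ e ∣ qf (n := 2) f →
      e * d < d + 3 * e * (k - 1)) : HInt (n := 2) f d k := by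
  intro K hK h0
  refine integrableOn_binary h.qf_ne_zero h.qf_hom h.aa_pos (fun l hl hl0 e he => ?_) hK h0
  have h1 := hmult l hl hl0 e he
  have hd : (0 : ℝ) < d := by exact_mod_cast h.d_pos
  have hk : 1 ≤ k := by have := h.hk; omega
  have h2 : (e : ℝ) * d < d + 3 * e * (k - 1) := by
    have h3 : ((e * d : ℕ) : ℝ) < ((d + 3 * e * (k - 1) : ℕ) : ℝ) := by exact_mod_cast h1
    push_cast [Nat.cast_sub hk] at h3
    exact h3
  unfold aa cc
  have e1 : (e : ℝ) * (1 - ((2 : ℕ) + 1 : ℝ) / d * (k - 1)) = (e * d - 3 * e * (k - 1)) / d := by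
    field_simp
    push_cast
    ring
  rw [e1, div_lt_one hd]
  linarith

/-- **The root `-3/d`** of a homogeneous polynomial of degree `d` in three variables, the curve of
which has a point of multiplicity `m = d - k > 2d/3`, such that the tangent lines of multiplicity `e`
at this point satisfy `e (d - 3 (k - 1)) < d`. -/
theorem root_three {f : MvPolynomial (Fin 3) ℂ}
    (e : MvPolynomial (Fin 3) ℂ ≃ₐ[ℂ] MvPolynomial (Fin 3) ℂ) (h : Dat (n := 2) (e f) d k m)
    (hmult : ∀ l : MvPolynomial (Fin 2) ℂ, l.IsHomogeneous 1 → l ≠ 0 → ∀ r : ℕ,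
      l ^ r ∣ qf (n := 2) (e f) → r * d < d + 3 * r * (k - 1))
    (h2 : TwoPoints (n := 2) (e f)) {b : Polynomial ℂ} (hb : IsBernsteinSato f b) :
    b.eval (((-((3 : ℚ) / d) : ℚ)) : ℂ) = 0 := by
  have h3 := root_of_large_mult h (hInt_three h hmult) h2 (isBernsteinSato_equiv e hb)
  rw [← h3]
  norm_num

end MPb07157.Alp
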