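import Mathlib

/-!
# Y7: the zero set of a polynomial is a null set
-/

noncomputable section

namespace MPb07157.Alp

open MeasureTheory Filter Topology
open scoped ENNReal

namespace Y7

theorem eval_cons {n : ℕ} (f : MvPolynomial (Fin (n + 1)) ℂ) (y : ℂ) (s : Fin n → ℂ) :
    MvPolynomial.eval (Fin.cons y s : Fin (n + 1) → ℂ) f =
      MvPolynomial.eval s ((MvPolynomial.finSuccEquiv ℂ n f).eval (MvPolynomial.C y)) := by
  rw [MvPolynomial.eval_eq_eval_mv_eval', Polynomial.eval_map, ← Polynomial.eval₂_id,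
    Polynomial.hom_eval₂]
  simp

theorem finite_bad {n : ℕ} {f : MvPolynomial (Fin (n + 1)) ℂ} (hf : f ≠ 0) :
    {y : ℂ | (MvPolynomial.finSuccEquiv ℂ n f).eval (MvPolynomial.C y) = 0}.Finite := by
  have h0 : MvPolynomial.finSuccEquiv ℂ n f ≠ 0 := by
    intro h
    exact hf ((MvPolynomial.finSuccEquiv ℂ n).injective (by rw [h, map_zero]))
  have h1 := Polynomial.finite_setOfPred_isRoot h0
  refine Set.Finite.of_injOn (f := fun y : ℂ => (MvPolynomial.C y : MvPolynomial (Fin n) ℂ))
    (fun y hy => hy) (fun y _ y' _ h => MvPolynomial.C_injective _ _ h) h1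

end Y7

open Y7

/-- The zero set of a polynomial is a null set. -/
theorem ae_eval_ne_zero {n : ℕ} {f : MvPolynomial (Fin n) ℂ} (hf : f ≠ 0) :
    ∀ᵐ x : Fin n → ℂ, MvPolynomial.eval x f ≠ 0 := by
  induction n with
  | zero =>
    refine Eventually.of_forall fun x h => hf ?_
    rw [MvPolynomial.eq_C_of_isEmpty f] at h ⊢
    rw [MvPolynomial.eval_C] at h
    rw [h, map_zero]
  | succ n ih =>
    have hmeas : MeasurableSet {x : Fin (n + 1) → ℂ | MvPolynomial.eval x f = 0} :=
      (isClosed_eq (MvPolynomial.continuous_eval f) continuous_const).measurableSet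
    rw [ae_iff]
    simp only [ne_eq, Decidable.not_not]
    set e := MeasurableEquiv.piFinSuccAbove (fun _ : Fin (n + 1) => ℂ) 0 with he
    have hmp : MeasurePreserving e (volume : Measure (Fin (n + 1) → ℂ))
        (volume : Measure (ℂ × (Fin n → ℂ))) := volume_preserving_piFinSuccAbove (fun _ => ℂ) 0
    have hms : MeasurableSet (e.symm ⁻¹' {x : Fin (n + 1) → ℂ | MvPolynomial.eval x f = 0}) :=
      e.symm.measurable hmeas
    have h1 : (volume : Measure (Fin (n + 1) → ℂ)) {x | MvPolynomial.eval x f = 0} =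
        (volume : Measure (ℂ × (Fin n → ℂ)))
          (e.symm ⁻¹' {x : Fin (n + 1) → ℂ | MvPolynomial.eval x f = 0}) := by
      rw [← hmp.measure_preimage hms.nullMeasurableSet, ← Set.preimage_comp]
      congr 1
      ext x
      simp
    rw [h1, Measure.volume_eq_prod, Measure.measure_prod_null hms]
    have hfin := (finite_bad hf).measure_zero (volume : Measure ℂ)
    have hae : ∀ᵐ y : ℂ, (MvPolynomial.finSuccEquiv ℂ n f).eval (MvPolynomial.C y) ≠ 0 := by
      rw [ae_iff]
      simpa using hfin
    filter_upwards [hae] with y hy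
    have h2 := ih hy
    rw [ae_iff] at h2
    simp only [ne_eq, Decidable.not_not] at h2
    have h3 : Prod.mk y ⁻¹' (e.symm ⁻¹' {x : Fin (n + 1) → ℂ | MvPolynomial.eval x f = 0}) =
        {s : Fin n → ℂ | MvPolynomial.eval s
          ((MvPolynomial.finSuccEquiv ℂ n f).eval (MvPolynomial.C y)) = 0} := by
      ext s
      simp only [Set.mem_preimage, Set.mem_ofPred_eq]
      rw [← eval_cons]
      have : e.symm (y, s) = (Fin.cons y s : Fin (n + 1) → ℂ) := by
        apply e.injective
        rw [MeasurableEquiv.apply_symm_apply]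
        refine Prod.ext rfl ?_
        funext j
        change s j = (Fin.cons y s : Fin (n + 1) → ℂ) (Fin.succAbove 0 j)
        rw [Fin.succAbove_zero, Fin.cons_succ]
      rw [this]
    rw [h3, h2]
    rfl

end MPb07157.Alp
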