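import Mathlib

/-!
# Holomorphy of parametric integrals
-/

noncomputable section

namespace MPb07157.Alp

open MeasureTheory Filter Topology
open scoped ENNReal

/-- Holomorphy of parametric integrals with locally uniform domination. -/
theorem differentiableOn_integral_of_dominated {Ω : Type*} [MeasurableSpace Ω] {μ : Measure Ω}
    {U : Set ℂ} (hU : IsOpen U) {F : ℂ → Ω → ℂ} (hm : ∀ z ∈ U, AEStronglyMeasurable (F z) μ)
    (hd : ∀ ω, DifferentiableOn ℂ (fun z => F z ω) U)
    (hb : ∀ z₀ ∈ U, ∃ ε > 0, ∃ bd : Ω → ℝ, Integrable bd μ ∧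
      ∀ᵐ ω ∂μ, ∀ z ∈ Metric.ball z₀ ε, ‖F z ω‖ ≤ bd ω) :
    DifferentiableOn ℂ (fun z => ∫ ω, F z ω ∂μ) U := by
  intro z₀ hz₀
  obtain ⟨ε₁, hε₁, bd, hbd, hbound⟩ := hb z₀ hz₀
  obtain ⟨ε₂, hε₂, hball⟩ := Metric.isOpen_iff.1 hU z₀ hz₀
  set ε : ℝ := min ε₁ ε₂ with hε
  have hε0 : 0 < ε := lt_min hε₁ hε₂
  have hsub : Metric.ball z₀ ε ⊆ U :=
    (Metric.ball_subset_ball (min_le_right _ _)).trans hball
  have hbound' : ∀ᵐ ω ∂μ, ∀ z ∈ Metric.ball z₀ ε, ‖F z ω‖ ≤ bd ω := by
    filter_upwards [hbound] with ω hω z hz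
    exact hω z (Metric.ball_subset_ball (min_le_left _ _) hz)
  have hderiv : ∀ ω, ∀ z ∈ Metric.ball z₀ ε,
      HasDerivAt (fun z => F z ω) (deriv (fun z => F z ω) z) z := fun ω z hz =>
    ((hd ω).differentiableAt (hU.mem_nhds (hsub hz))).hasDerivAt
  -- measurability of the derivative
  have hmeas' : AEStronglyMeasurable (fun ω => deriv (fun z => F z ω) z₀) μ := by
    set w : ℕ → ℂ := fun k => ((ε / (k + 2) : ℝ) : ℂ) with hw
    have hw0 : ∀ k, w k ≠ 0 := fun k => by
      simp only [hw]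
      have : 0 < ε / ((k : ℝ) + 2) := by positivity
      exact_mod_cast this.ne'
    have hwlim : Tendsto w atTop (𝓝 0) := by
      have h1 : Tendsto (fun k : ℕ => ε / ((k : ℝ) + 2)) atTop (𝓝 0) := by
        apply Tendsto.const_div_atTop
        exact tendsto_atTop_add_const_right _ _ tendsto_natCast_atTop_atTop
      have h2 := (Complex.continuous_ofReal.tendsto 0).comp h1
      rw [Complex.ofReal_zero] at h2
      exact h2
    have hwmem : ∀ k, z₀ + w k ∈ Metric.ball z₀ ε := fun k => by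
      rw [Metric.mem_ball, dist_eq_norm, add_sub_cancel_left]
      simp only [hw]
      rw [Complex.norm_real, Real.norm_eq_abs, abs_of_pos (by positivity)]
      rw [div_lt_iff₀ (by positivity)]
      nlinarith [(Nat.cast_nonneg k : (0 : ℝ) ≤ k)]
    refine aestronglyMeasurable_of_tendsto_ae atTop
      (f := fun k ω => (w k)⁻¹ • (F (z₀ + w k) ω - F z₀ ω)) (fun k => ?_) ?_
    · exact ((hm _ (hsub (hwmem k))).sub (hm _ hz₀)).const_smul (w k)⁻¹
    · refine Eventually.of_forall fun ω => ?_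
      have h1 := (hderiv ω z₀ (Metric.mem_ball_self hε0)).tendsto_slope_zero
      refine h1.comp ?_
      rw [tendsto_nhdsWithin_iff]
      exact ⟨hwlim, Eventually.of_forall fun k => hw0 k⟩
  have key := hasDerivAt_integral_of_dominated_loc_of_deriv_le (μ := μ) (𝕜 := ℂ)
    (F := F) (F' := fun z ω => deriv (fun z => F z ω) z)
    (x₀ := z₀) (s := Metric.ball z₀ (ε / 2)) (bound := fun ω => bd ω / (ε / 4))
    (Metric.ball_mem_nhds z₀ (by positivity)) ?_ ?_ hmeas' ?_ (hbd.div_const _) ?_
  · exact key.2.differentiableAt.differentiableWithinAt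
  · filter_upwards [hU.mem_nhds hz₀] with z hz
    exact hm z hz
  · refine hbd.mono' (hm z₀ hz₀) ?_
    filter_upwards [hbound'] with ω hω
    exact hω z₀ (Metric.mem_ball_self hε0)
  · filter_upwards [hbound'] with ω hω z hz
    have hcb : Metric.closedBall z (ε / 4) ⊆ Metric.ball z₀ ε := by
      intro w hw
      rw [Metric.mem_closedBall] at hw
      rw [Metric.mem_ball] at hz ⊢
      have := dist_triangle w z z₀
      linarith
    refine Complex.norm_deriv_le_of_forall_mem_sphere_norm_le (by positivity) ?_ ?_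
    · refine ((hd ω).mono (hcb.trans hsub)).diffContOnCl_ball subset_rfl
    · intro w hw
      exact hω w (hcb (Metric.sphere_subset_closedBall hw))
  · refine Eventually.of_forall fun ω z hz => ?_
    exact hderiv ω z (Metric.ball_subset_ball (by linarith) hz)

end MPb07157.Alp
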