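import Mathlib

noncomputable section

namespace MPb07157.Alp

open MeasureTheory Filter Topology
open scoped ENNReal

/-! ### Y2 -/

private theorem rearr {a b c d : ℝ≥0∞} (hab : a ≤ b) (hcd : c ≤ d) :
    b * c + a * d ≤ b * d + a * c := by
  obtain ⟨x, rfl⟩ := exists_add_of_le hab
  obtain ⟨y, rfl⟩ := exists_add_of_le hcd
  have : (a + x) * (c + y) + a * c = ((a + x) * c + a * (c + y)) + x * y := by ring
  rw [this]
  exact le_self_add

/-- Rearrangement. -/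
theorem lintegral_shift_le {u v : ℝ → ℝ≥0∞} (hu : Antitone u) (hv : Antitone v) (a : ℂ) :
    ∫⁻ y : ℂ, u ‖y - a‖ * v ‖y‖ ≤ ∫⁻ y : ℂ, u ‖y‖ * v ‖y‖ := by
  have mu : Measurable u := hu.measurable
  have mv : Measurable v := hv.measurable
  have e1 : ∫⁻ y : ℂ, u ‖y‖ * v ‖y - a‖ = ∫⁻ y : ℂ, u ‖y - a‖ * v ‖y‖ := by
    have := lintegral_sub_left_eq_self (μ := (volume : Measure ℂ))
      (fun y : ℂ => u ‖y - a‖ * v ‖y‖) a
    rw [← this]
    refine lintegral_congr fun y => ?_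
    rw [show a - y - a = -y by ring, norm_neg, norm_sub_rev a y]
  have e2 : ∫⁻ y : ℂ, u ‖y - a‖ * v ‖y - a‖ = ∫⁻ y : ℂ, u ‖y‖ * v ‖y‖ :=
    lintegral_sub_right_eq_self (μ := (volume : Measure ℂ)) (fun y : ℂ => u ‖y‖ * v ‖y‖) a
  have key : 2 * ∫⁻ y : ℂ, u ‖y - a‖ * v ‖y‖ ≤ 2 * ∫⁻ y : ℂ, u ‖y‖ * v ‖y‖ := by
    calc 2 * ∫⁻ y : ℂ, u ‖y - a‖ * v ‖y‖
        = (∫⁻ y : ℂ, u ‖y - a‖ * v ‖y‖) + ∫⁻ y : ℂ, u ‖y‖ * v ‖y - a‖ := by
          rw [e1, two_mul]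
      _ = ∫⁻ y : ℂ, (u ‖y - a‖ * v ‖y‖ + u ‖y‖ * v ‖y - a‖) := by
          rw [lintegral_add_left (by fun_prop)]
      _ ≤ ∫⁻ y : ℂ, (u ‖y - a‖ * v ‖y - a‖ + u ‖y‖ * v ‖y‖) := by
          refine lintegral_mono fun y => ?_
          rcases le_total ‖y - a‖ ‖y‖ with h | h
          · exact rearr (hu h) (hv h)
          · have := rearr (hu h) (hv h)
            rw [add_comm (u ‖y‖ * v ‖y - a‖), add_comm (u ‖y‖ * v ‖y‖)] at this
            exact this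
      _ = (∫⁻ y : ℂ, u ‖y - a‖ * v ‖y - a‖) + ∫⁻ y : ℂ, u ‖y‖ * v ‖y‖ := by
          rw [lintegral_add_left (by fun_prop)]
      _ = 2 * ∫⁻ y : ℂ, u ‖y‖ * v ‖y‖ := by rw [e2, two_mul]
  exact (ENNReal.mul_le_mul_iff_right (by norm_num) (by norm_num)).1 key

theorem lintegral_ball_rpow_lt_top {p : ℝ} (hp : p < 2) (R : ℝ) :
    ∫⁻ y in Metric.closedBall (0 : ℂ) R, ‖y‖ₑ ^ (-p) < ⊤ := by
  have h1 : IntegrableOn (fun y : ℂ => ‖y‖ ^ (-p)) (Metric.ball (0 : ℂ) (R + 1)) := by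
    refine integrableOn_ball_of_norm_le_rpow (C := 1) (α := p) (by simp) (by simpa using hp) ?_ ?_
    · refine Filter.Eventually.of_forall fun y => ?_
      rw [one_mul, Real.norm_eq_abs, abs_of_nonneg (Real.rpow_nonneg (norm_nonneg _) _)]
    · exact (measurable_norm.pow_const _).aestronglyMeasurable
  have h2 : IntegrableOn (fun y : ℂ => ‖y‖ ^ (-p)) (Metric.closedBall (0 : ℂ) R) :=
    h1.mono_set (Metric.closedBall_subset_ball (by linarith))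
  have h3 := h2.hasFiniteIntegral
  rw [hasFiniteIntegral_iff_enorm] at h3
  refine lt_of_le_of_lt (le_of_eq ?_) h3
  refine lintegral_congr_ae ?_
  have h0 : ∀ᵐ y : ℂ ∂(volume.restrict (Metric.closedBall (0 : ℂ) R)), y ≠ 0 :=
    ae_restrict_of_ae (by simp [ae_iff])
  filter_upwards [h0] with y hy
  have hy' : 0 < ‖y‖ := norm_pos_iff.2 hy
  rw [Real.enorm_eq_ofReal (Real.rpow_nonneg hy'.le _), ← ofReal_norm,
    ENNReal.ofReal_rpow_of_pos hy']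

end MPb07157.Alp
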