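import Pool.Agent.Lib.MP_b07157_agY.Y2

noncomputable section

namespace MPb07157.Alp

open MeasureTheory Filter Topology
open scoped ENNReal

theorem exists_roots (p : Polynomial ℂ) :
    ∃ a : Fin p.natDegree → ℂ, p = Polynomial.C p.leadingCoeff *
      ∏ j, (Polynomial.X - Polynomial.C (a j)) := by
  have hs : p.Splits := IsAlgClosed.splits p
  have hcard : p.roots.toList.length = p.natDegree := by
    rw [Multiset.length_toList, hs.natDegree_eq_card_roots]
  refine ⟨fun j => p.roots.toList.get (Fin.cast hcard.symm j), ?_⟩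
  have h1 : (p.roots.map (fun a => Polynomial.X - Polynomial.C a)).prod =
      ∏ j : Fin p.natDegree,
        (Polynomial.X - Polynomial.C (p.roots.toList.get (Fin.cast hcard.symm j))) := by
    have h2 : (p.roots.map (fun a => Polynomial.X - Polynomial.C a)).prod =
        (p.roots.toList.map (fun a => Polynomial.X - Polynomial.C a)).prod := by
      rw [← Multiset.prod_coe, ← Multiset.map_coe, Multiset.coe_toList]
    rw [h2, ← List.prod_ofFn]
    congr 1
    apply List.ext_get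
    · simp [hcard]
    · intro i h3 h4
      simp
  rw [← h1]
  exact hs.eq_prod_roots

theorem y3_amgm_enn {k : ℕ} (hk : 0 < k) (A : Fin k → ℝ≥0∞) :
    ∏ j, (A j) ^ ((1 : ℝ) / k) ≤ ∑ j, ((k : ℝ≥0∞)⁻¹) * A j := by
  by_cases htop : ∃ j, A j = ⊤
  · obtain ⟨j, hj⟩ := htop
    have h1 : ∑ j, ((k : ℝ≥0∞)⁻¹) * A j = ⊤ := by
      rw [ENNReal.sum_eq_top]
      refine ⟨j, Finset.mem_univ _, ?_⟩
      rw [hj, ENNReal.mul_top]
      simp
    rw [h1]
    exact le_top
  · push Not at htop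
    lift A to Fin k → NNReal using htop
    have hk' : (k : NNReal) ≠ 0 := by exact_mod_cast hk.ne'
    have h1 := NNReal.geom_mean_le_arith_mean_weighted (Finset.univ : Finset (Fin k))
      (fun _ => (k : NNReal)⁻¹) (fun j => A j) (by
        simp [hk'])
    have h2 : ∏ j, ((A j : ℝ≥0∞)) ^ ((1 : ℝ) / k) =
        ((∏ j, (A j) ^ (((k : NNReal)⁻¹ : NNReal) : ℝ) : NNReal) : ℝ≥0∞) := by
      rw [ENNReal.coe_finsetProd]
      apply Finset.prod_congr rfl
      intro j _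
      rw [ENNReal.coe_rpow_of_nonneg _ (by positivity)]
      congr 1
      simp
    have h3 : ∑ j, ((k : ℝ≥0∞)⁻¹) * (A j : ℝ≥0∞) =
        ((∑ j, (k : NNReal)⁻¹ * A j : NNReal) : ℝ≥0∞) := by
      rw [ENNReal.coe_finsetSum]
      apply Finset.sum_congr rfl
      intro j _
      rw [ENNReal.coe_mul, ENNReal.coe_inv hk']
      simp
    rw [h2, h3]
    exact_mod_cast h1

theorem y3_anti {s : ℝ} (hs : 0 < s) :
    Antitone (fun r : ℝ => (ENNReal.ofReal r) ^ (-s)) := by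
  intro a b hab
  show (ENNReal.ofReal b) ^ (-s) ≤ (ENNReal.ofReal a) ^ (-s)
  rw [ENNReal.rpow_neg, ENNReal.rpow_neg]
  exact ENNReal.inv_le_inv.mpr (ENNReal.rpow_le_rpow (ENNReal.ofReal_le_ofReal hab) hs.le)

/-- the arithmetic mean after integration -/
theorem y3_mean {k : ℕ} (hk : 0 < k) {t : ℝ} (ht : 0 < t) (a : Fin k → ℂ)
    {v : ℝ → ℝ≥0∞} (hv : Antitone v) :
    ∫⁻ y : ℂ, (∑ j, ((k : ℝ≥0∞)⁻¹) * ‖y - a j‖ₑ ^ (-(2 * (k * t)))) * v ‖y‖ ≤
      ∫⁻ y : ℂ, ‖y‖ₑ ^ (-(2 * (k * t))) * v ‖y‖ := by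
  have hkr : (0 : ℝ) < k := by exact_mod_cast hk
  have hs : 0 < 2 * ((k : ℝ) * t) := by positivity
  have hvm : Measurable (fun y : ℂ => v ‖y‖) := hv.measurable.comp measurable_norm
  have hm : ∀ j, Measurable (fun y : ℂ => ‖y - a j‖ₑ ^ (-(2 * (k * t))) * v ‖y‖) := by
    intro j
    exact (((measurable_id.sub_const (a j)).enorm).pow_const _).mul hvm
  calc ∫⁻ y : ℂ, (∑ j, ((k : ℝ≥0∞)⁻¹) * ‖y - a j‖ₑ ^ (-(2 * (k * t)))) * v ‖y‖
      = ∫⁻ y : ℂ, ∑ j, ((k : ℝ≥0∞)⁻¹) * (‖y - a j‖ₑ ^ (-(2 * (k * t))) * v ‖y‖) := by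
        congr 1
        funext y
        rw [Finset.sum_mul]
        apply Finset.sum_congr rfl
        intro j _
        rw [mul_assoc]
    _ = ∑ j, ∫⁻ y : ℂ, ((k : ℝ≥0∞)⁻¹) * (‖y - a j‖ₑ ^ (-(2 * (k * t))) * v ‖y‖) := by
        rw [lintegral_finsetSum]
        intro j _
        exact (hm j).const_mul _
    _ = ∑ j, ((k : ℝ≥0∞)⁻¹) * ∫⁻ y : ℂ, (‖y - a j‖ₑ ^ (-(2 * (k * t))) * v ‖y‖) := by
        apply Finset.sum_congr rfl
        intro j _
        rw [lintegral_const_mul _ (hm j)]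
    _ ≤ ∑ _j : Fin k, ((k : ℝ≥0∞)⁻¹) * ∫⁻ y : ℂ, ‖y‖ₑ ^ (-(2 * (k * t))) * v ‖y‖ := by
        apply Finset.sum_le_sum
        intro j _
        apply mul_le_mul_right
        have h := lintegral_shift_le (y3_anti hs) hv (a j)
        simpa only [ofReal_norm] using h
    _ = ∫⁻ y : ℂ, ‖y‖ₑ ^ (-(2 * (k * t))) * v ‖y‖ := by
        rw [Finset.sum_const, Finset.card_univ, Fintype.card_fin, nsmul_eq_mul, ← mul_assoc,
          ENNReal.mul_inv_cancel (by exact_mod_cast hk.ne') (ENNReal.natCast_ne_top k), one_mul]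

theorem y3_enorm_eval {p : Polynomial ℂ} {k : ℕ} (a : Fin k → ℂ)
    (hpa : p = Polynomial.C p.leadingCoeff * ∏ j, (Polynomial.X - Polynomial.C (a j))) (y : ℂ) :
    ‖p.eval y‖ₑ = ‖p.leadingCoeff‖ₑ * ∏ j, ‖y - a j‖ₑ := by
  have h1 : p.eval y = p.leadingCoeff * ∏ j, (y - a j) := by
    conv_lhs => rw [hpa]
    rw [Polynomial.eval_mul, Polynomial.eval_C, Polynomial.eval_prod]
    simp
  rw [h1, enorm_mul, enorm_eq_nnnorm (∏ j, (y - a j)), nnnorm_prod, ENNReal.coe_finsetProd]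
  rfl

theorem lintegral_poly_le {p : Polynomial ℂ} {k : ℕ} (hk : 0 < k) (hp : p.natDegree = k) {t : ℝ}
    (ht : 0 < t) {v : ℝ → ℝ≥0∞} (hv : Antitone v) :
    ∫⁻ y : ℂ, ‖p.eval y‖ₑ ^ (-(2 * t)) * v ‖y‖ ≤
      ‖p.leadingCoeff‖ₑ ^ (-(2 * t)) * ∫⁻ y : ℂ, ‖y‖ₑ ^ (-(2 * (k * t))) * v ‖y‖ := by
  subst hp
  set k := p.natDegree with hkdef
  obtain ⟨a, ha⟩ := exists_roots p
  have hkr : (0 : ℝ) < k := by exact_mod_cast hk
  have hpt : ∀ y : ℂ, ‖p.eval y‖ₑ ^ (-(2 * t)) ≤ ‖p.leadingCoeff‖ₑ ^ (-(2 * t)) *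
      ∑ j, ((k : ℝ≥0∞)⁻¹) * ‖y - a j‖ₑ ^ (-(2 * (k * t))) := by
    intro y
    rw [y3_enorm_eval a ha y]
    rw [ENNReal.mul_rpow_of_ne_top enorm_ne_top (ENNReal.prod_ne_top (fun j _ => enorm_ne_top))]
    apply mul_le_mul_right
    rw [← ENNReal.prod_rpow_of_ne_top (fun j _ => enorm_ne_top)]
    refine le_trans (le_of_eq ?_) (y3_amgm_enn hk _)
    apply Finset.prod_congr rfl
    intro j _
    rw [← ENNReal.rpow_mul]
    congr 1
    field_simp
  have hvm : Measurable (fun y : ℂ => v ‖y‖) := hv.measurable.comp measurable_norm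
  calc ∫⁻ y : ℂ, ‖p.eval y‖ₑ ^ (-(2 * t)) * v ‖y‖
      ≤ ∫⁻ y : ℂ, ‖p.leadingCoeff‖ₑ ^ (-(2 * t)) *
          ((∑ j, ((k : ℝ≥0∞)⁻¹) * ‖y - a j‖ₑ ^ (-(2 * (k * t)))) * v ‖y‖) := by
        apply lintegral_mono
        intro y
        simp only
        rw [← mul_assoc]
        exact mul_le_mul_left (hpt y) _
    _ = ‖p.leadingCoeff‖ₑ ^ (-(2 * t)) *
          ∫⁻ y : ℂ, (∑ j, ((k : ℝ≥0∞)⁻¹) * ‖y - a j‖ₑ ^ (-(2 * (k * t)))) * v ‖y‖ := by
        rw [lintegral_const_mul]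
        refine Measurable.mul ?_ hvm
        apply Finset.measurable_fun_sum
        intro j _
        exact (((measurable_id.sub_const (a j)).enorm).pow_const _).const_mul _
    _ ≤ _ := mul_le_mul_right (y3_mean hk ht a hv) _

/-- AM-GM with a gain from two entries. -/
theorem y3_amgm_two {k : ℕ} (hk : 0 < k) (s : Fin k → ℝ) (hs : ∀ l, 0 < s l) {i j : Fin k}
    (hij : i ≠ j) :
    (1 / (k : ℝ)) * (s i - s j) ^ 2 + ∏ l, (s l ^ 2) ^ ((1 : ℝ) / k) ≤
      (1 / (k : ℝ)) * ∑ l, s l ^ 2 := by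
  classical
  have hkr : (0 : ℝ) < k := by exact_mod_cast hk
  set z : Fin k → ℝ := fun l => if l = i ∨ l = j then s i * s j else s l ^ 2 with hz
  have hz0 : ∀ l, 0 ≤ z l := by
    intro l
    simp only [hz]
    split_ifs
    · exact (mul_pos (hs i) (hs j)).le
    · exact sq_nonneg _
  have hzi : z i = s i * s j := by simp [hz]
  have hzj : z j = s i * s j := by simp [hz]
  have hzo : ∀ l, l ≠ i ∧ l ≠ j → z l = s l ^ 2 := by
    intro l hl
    simp [hz, hl.1, hl.2]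
  have h := Real.geom_mean_le_arith_mean_weighted (Finset.univ : Finset (Fin k))
    (fun _ => 1 / (k : ℝ)) z (fun _ _ => by positivity) (by
      rw [Finset.sum_const, Finset.card_univ, Fintype.card_fin, nsmul_eq_mul]
      field_simp) (fun l _ => hz0 l)
  have hprod : ∏ l, z l = ∏ l, s l ^ 2 := by
    have h1 : ∏ l, z l / s l ^ 2 = (z i / s i ^ 2) * (z j / s j ^ 2) := by
      apply Fintype.prod_eq_mul i j hij
      intro l hl
      rw [hzo l hl]
      exact div_self (pow_pos (hs l) 2).ne'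
    rw [Finset.prod_div_distrib, hzi, hzj] at h1
    have h2 : s i * s j / s i ^ 2 * (s i * s j / s j ^ 2) = 1 := by
      have := (hs i).ne'
      have := (hs j).ne'
      field_simp
    rw [h2] at h1
    have h3 : (∏ l, s l ^ 2) ≠ 0 := (Finset.prod_pos (fun l _ => pow_pos (hs l) 2)).ne'
    rwa [div_eq_one_iff_eq h3] at h1
  have hsum : ∑ l, (s l ^ 2 - z l) = (s i ^ 2 - z i) + (s j ^ 2 - z j) := by
    apply Fintype.sum_eq_add i j hij
    intro l hl
    rw [hzo l hl, sub_self]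
  rw [Finset.sum_sub_distrib, hzi, hzj] at hsum
  have e1 : ∏ l, z l ^ (1 / (k : ℝ)) = ∏ l, (s l ^ 2) ^ ((1 : ℝ) / k) := by
    rw [Real.finsetProd_rpow _ _ (fun l _ => hz0 l), Real.finsetProd_rpow _ _
      (fun l _ => sq_nonneg _), hprod]
  rw [e1, ← Finset.mul_sum] at h
  have e2 : (1 / (k : ℝ)) * ∑ l, z l = (1 / (k : ℝ)) * ∑ l, s l ^ 2 -
      (1 / (k : ℝ)) * (s i - s j) ^ 2 := by
    have : ∑ l, z l = ∑ l, s l ^ 2 - (s i - s j) ^ 2 := by linarith
    rw [this]; ring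
  rw [e2] at h
  linarith

theorem y3_ne_open {y₁ y₂ : ℂ} (h12 : y₁ ≠ y₂) :
    0 < volume ({y : ℂ | ‖y - y₁‖ ≠ ‖y - y₂‖} ∩ Metric.ball 0 1) := by
  apply IsOpen.measure_pos
  · apply IsOpen.inter _ Metric.isOpen_ball
    exact isOpen_ne_fun (by fun_prop) (by fun_prop)
  · by_contra hcon
    rw [Set.not_nonempty_iff_eq_empty] at hcon
    have hall : ∀ y : ℂ, ‖y‖ < 1 → ‖y - y₁‖ = ‖y - y₂‖ := by
      intro y hy
      by_contra hne
      have : y ∈ ({y : ℂ | ‖y - y₁‖ ≠ ‖y - y₂‖} ∩ Metric.ball 0 1) :=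
        ⟨hne, by simpa using hy⟩
      rw [hcon] at this
      exact this
    have hw : 0 < ‖y₁ - y₂‖ := norm_pos_iff.mpr (sub_ne_zero.mpr h12)
    set ε : ℝ := 1 / (2 * (1 + ‖y₁ - y₂‖)) with hε
    have hε0 : 0 < ε := by positivity
    have hεw : ε * ‖y₁ - y₂‖ < 1 := by
      rw [hε, div_mul_eq_mul_div, div_lt_one (by positivity)]
      linarith
    have h0 := hall 0 (by simp)
    have h1 := hall ((ε : ℂ) * (y₁ - y₂)) (by
      rw [norm_mul, Complex.norm_real, Real.norm_eq_abs, abs_of_pos hε0]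
      exact hεw)
    have g0 : Complex.normSq (0 - y₁) = Complex.normSq (0 - y₂) := by
      rw [Complex.normSq_eq_norm_sq, Complex.normSq_eq_norm_sq, h0]
    have g1 : Complex.normSq ((ε : ℂ) * (y₁ - y₂) - y₁) =
        Complex.normSq ((ε : ℂ) * (y₁ - y₂) - y₂) := by
      rw [Complex.normSq_eq_norm_sq, Complex.normSq_eq_norm_sq, h1]
    have g2 : 0 < Complex.normSq (y₁ - y₂) := Complex.normSq_pos.mpr (sub_ne_zero.mpr h12)
    simp only [Complex.normSq_apply, Complex.sub_re, Complex.sub_im, Complex.mul_re, Complex.mul_im,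
      Complex.ofReal_re, Complex.ofReal_im, Complex.zero_re, Complex.zero_im] at g0 g1 g2
    nlinarith

/-- Strict inequality, uniformly in the cut-off. -/
theorem exists_lt_of_two_roots {p : Polynomial ℂ} {k : ℕ} (hk : 0 < k) (hp : p.natDegree = k)
    {t : ℝ} (ht : 0 < t) (hkt : k * t < 1) {y₁ y₂ : ℂ} (h1 : p.eval y₁ = 0) (h2 : p.eval y₂ = 0)
    (h12 : y₁ ≠ y₂) :
    ∃ δ : ℝ, 0 < δ ∧ ∀ v : ℝ → ℝ, Antitone v → Measurable v → (∀ r, 0 ≤ v r) → (∀ r ≤ 1, v r = 1) →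
      (∃ R, ∀ r ≥ R, v r = 0) →
      δ + ∫ y : ℂ, ‖p.eval y‖ ^ (-(2 * t)) * v ‖y‖ ≤
        ‖p.leadingCoeff‖ ^ (-(2 * t)) * ∫ y : ℂ, ‖y‖ ^ (-(2 * (k * t))) * v ‖y‖ := by
  classical
  subst hp
  set k := p.natDegree with hkdef
  obtain ⟨a, ha⟩ := exists_roots p
  have hp0 : p ≠ 0 := by
    rintro rfl
    simp [hkdef] at hk
  have hlc : p.leadingCoeff ≠ 0 := Polynomial.leadingCoeff_ne_zero.mpr hp0
  have hkr : (0 : ℝ) < k := by exact_mod_cast hk
  have heval : ∀ y : ℂ, p.eval y = p.leadingCoeff * ∏ j, (y - a j) := by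
    intro y
    conv_lhs => rw [ha]
    rw [Polynomial.eval_mul, Polynomial.eval_C, Polynomial.eval_prod]
    simp
  have hroot : ∀ y : ℂ, p.eval y = 0 → ∃ j, a j = y := by
    intro y hy
    rw [heval y] at hy
    rcases mul_eq_zero.mp hy with h | h
    · exact absurd h hlc
    · rw [Finset.prod_eq_zero_iff] at h
      obtain ⟨j, _, hj⟩ := h
      exact ⟨j, (sub_eq_zero.mp hj).symm⟩
  obtain ⟨i, hi⟩ := hroot y₁ h1
  obtain ⟨j, hj⟩ := hroot y₂ h2
  have hij : i ≠ j := by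
    rintro rfl
    exact h12 (hi.symm.trans hj)
  set c : ℝ := ‖p.leadingCoeff‖ ^ (-(2 * t)) with hc
  have hc0 : 0 < c := Real.rpow_pos_of_pos (norm_pos_iff.mpr hlc) _
  -- the gain
  set D : ℂ → ℝ := fun y => (1 / (k : ℝ)) *
    (‖y - a i‖ ^ (-(k * t)) - ‖y - a j‖ ^ (-(k * t))) ^ 2 with hD
  have hD0 : ∀ y, 0 ≤ D y := fun y => by simp only [hD]; positivity
  have hDm : Measurable D := by
    have g : ∀ b : ℂ, Measurable (fun y : ℂ => ‖y - b‖ ^ (-((k : ℝ) * t))) := fun b =>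
      ((measurable_id.sub_const b).norm).pow_const _
    exact (((g (a i)).sub (g (a j))).pow_const 2).const_mul _
  set D1 : ℂ → ℝ := (Metric.closedBall (0 : ℂ) 1).indicator D with hD1
  have hD1m : Measurable D1 := hDm.indicator Metric.isClosed_closedBall.measurableSet
  have hD10 : ∀ y, 0 ≤ D1 y := fun y => Set.indicator_nonneg (fun y _ => hD0 y) y
  -- the pointwise inequality
  have hpw : ∀ y : ℂ, (∀ l, y ≠ a l) → ∀ w : ℝ, 0 ≤ w → (‖y‖ ≤ 1 → w = 1) →
      D1 y + (∏ l, ‖y - a l‖ ^ (-(2 * t))) * w ≤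
        ((1 / (k : ℝ)) * ∑ l, ‖y - a l‖ ^ (-(2 * (k * t)))) * w := by
    intro y hy w hw hw1
    have hpos : ∀ l, 0 < ‖y - a l‖ := fun l => norm_pos_iff.mpr (sub_ne_zero.mpr (hy l))
    have h := y3_amgm_two hk (fun l => ‖y - a l‖ ^ (-((k : ℝ) * t)))
      (fun l => Real.rpow_pos_of_pos (hpos l) _) hij
    have e1 : ∀ l, (‖y - a l‖ ^ (-((k : ℝ) * t))) ^ 2 = ‖y - a l‖ ^ (-(2 * (k * t))) := by
      intro l
      rw [← Real.rpow_natCast, ← Real.rpow_mul (hpos l).le]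
      congr 1
      push_cast
      ring
    have e2 : ∀ l, ((‖y - a l‖ ^ (-((k : ℝ) * t))) ^ 2) ^ ((1 : ℝ) / k) =
        ‖y - a l‖ ^ (-(2 * t)) := by
      intro l
      rw [e1, ← Real.rpow_mul (hpos l).le]
      congr 1
      field_simp
    simp only [e2] at h
    simp only [e1] at h
    have h3 : D1 y ≤ D y * w := by
      simp only [hD1]
      by_cases hb : y ∈ Metric.closedBall (0 : ℂ) 1
      · rw [Set.indicator_of_mem hb, hw1 (by simpa using hb), mul_one]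
      · rw [Set.indicator_of_notMem hb]
        exact mul_nonneg (hD0 y) hw
    have h4 := mul_le_mul_of_nonneg_right h hw
    have h5 : D y = (1 / (k : ℝ)) *
      (‖y - a i‖ ^ (-(k * t)) - ‖y - a j‖ ^ (-(k * t))) ^ 2 := rfl
    rw [add_mul, ← h5] at h4
    linarith
  have hae : ∀ᵐ y : ℂ, ∀ l, y ≠ a l := by
    have h : (Set.range a)ᶜ ∈ ae (volume : Measure ℂ) :=
      compl_mem_ae_iff.mpr ((Set.finite_range a).measure_zero volume)
    filter_upwards [h] with y hy l hl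
    exact hy ⟨l, hl.symm⟩
  have hkt2 : 2 * ((k : ℝ) * t) < 2 := by linarith
  -- the inequality for one cut-off, in extended numbers
  have key : ∀ v : ℝ → ℝ, Antitone v → Measurable v → (∀ r, 0 ≤ v r) → (∀ r ≤ 1, v r = 1) →
      ENNReal.ofReal c * (∫⁻ y, ENNReal.ofReal (D1 y)) +
        ∫⁻ y : ℂ, ENNReal.ofReal (‖p.eval y‖ ^ (-(2 * t)) * v ‖y‖) ≤
      ENNReal.ofReal c * ∫⁻ y : ℂ, ‖y‖ₑ ^ (-(2 * (k * t))) * ENNReal.ofReal (v ‖y‖) := by
    intro v hva hvm hv0 hv1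
    have hm1 : Measurable (fun y : ℂ => ENNReal.ofReal (D1 y)) := hD1m.ennreal_ofReal
    rw [← lintegral_const_mul _ hm1, ← lintegral_add_left (hm1.const_mul _)]
    have hva' : Antitone (fun r => ENNReal.ofReal (v r)) := fun a b hab =>
      ENNReal.ofReal_le_ofReal (hva hab)
    have h5 := y3_mean hk ht a hva'
    refine le_trans ?_ (mul_le_mul_right h5 _)
    rw [← lintegral_const_mul]
    · apply lintegral_mono_ae
      filter_upwards [hae] with y hy
      have hpos : ∀ l, 0 < ‖y - a l‖ := fun l => norm_pos_iff.mpr (sub_ne_zero.mpr (hy l))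
      have h6 := hpw y hy (v ‖y‖) (hv0 _) (fun h => hv1 _ h)
      have e3 : ‖p.eval y‖ ^ (-(2 * t)) = c * ∏ l, ‖y - a l‖ ^ (-(2 * t)) := by
        rw [heval y, norm_mul, norm_prod, Real.mul_rpow (norm_nonneg _)
          (Finset.prod_nonneg (fun l _ => norm_nonneg _)), Real.finsetProd_rpow _ _
          (fun l _ => norm_nonneg _)]
      have e4 : ∀ l, ‖y - a l‖ₑ ^ (-(2 * ((k : ℝ) * t))) =
          ENNReal.ofReal (‖y - a l‖ ^ (-(2 * (k * t)))) := by
        intro l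
        rw [← ofReal_norm, ENNReal.ofReal_rpow_of_pos (hpos l)]
      have e5 : (∑ l, ((k : ℝ≥0∞)⁻¹) * ‖y - a l‖ₑ ^ (-(2 * (k * t)))) * ENNReal.ofReal (v ‖y‖) =
          ENNReal.ofReal (((1 / (k : ℝ)) * ∑ l, ‖y - a l‖ ^ (-(2 * (k * t)))) * v ‖y‖) := by
        rw [ENNReal.ofReal_mul (by positivity)]
        congr 1
        rw [Finset.mul_sum, ENNReal.ofReal_sum_of_nonneg (fun l _ => by positivity)]
        apply Finset.sum_congr rfl
        intro l _
        rw [e4, ENNReal.ofReal_mul (by positivity), one_div, ENNReal.ofReal_inv_of_pos hkr,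
          ENNReal.ofReal_natCast]
      rw [e5, ← ENNReal.ofReal_mul hc0.le, ← ENNReal.ofReal_mul hc0.le, e3,
        ← ENNReal.ofReal_add (mul_nonneg hc0.le (hD10 y)) (by
          have := hv0 ‖y‖
          positivity)]
      apply ENNReal.ofReal_le_ofReal
      have h7 := mul_le_mul_of_nonneg_left h6 hc0.le
      calc c * D1 y + c * (∏ l, ‖y - a l‖ ^ (-(2 * t))) * v ‖y‖
          = c * (D1 y + (∏ l, ‖y - a l‖ ^ (-(2 * t))) * v ‖y‖) := by ring
        _ ≤ _ := h7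
    · refine Measurable.mul ?_ ((hvm.comp measurable_norm).ennreal_ofReal)
      apply Finset.measurable_fun_sum
      intro l _
      exact (((measurable_id.sub_const (a l)).enorm).pow_const _).const_mul _
  -- finiteness of the right side
  have hfin : ∀ v : ℝ → ℝ, Antitone v → (∀ r, 0 ≤ v r) → (∀ r ≤ 1, v r = 1) →
      (∃ R, ∀ r ≥ R, v r = 0) →
      ∫⁻ y : ℂ, ‖y‖ₑ ^ (-(2 * (k * t))) * ENNReal.ofReal (v ‖y‖) < ⊤ := by
    intro v hva hv0 hv1 hR
    obtain ⟨R, hR⟩ := hR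
    refine lt_of_le_of_lt ?_ (lintegral_ball_rpow_lt_top hkt2 R)
    rw [← lintegral_indicator Metric.isClosed_closedBall.measurableSet]
    apply lintegral_mono
    intro y
    by_cases hy : y ∈ Metric.closedBall (0 : ℂ) R
    · rw [Set.indicator_of_mem hy]
      have h8 : ENNReal.ofReal (v ‖y‖) ≤ 1 := by
        rw [← ENNReal.ofReal_one]
        apply ENNReal.ofReal_le_ofReal
        rcases le_or_gt ‖y‖ 1 with h | h
        · exact (hv1 _ h).le
        · rw [← hv1 1 le_rfl]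
          exact hva h.le
      calc ‖y‖ₑ ^ (-(2 * ((k : ℝ) * t))) * ENNReal.ofReal (v ‖y‖) ≤
            ‖y‖ₑ ^ (-(2 * ((k : ℝ) * t))) * 1 := mul_le_mul_right h8 _
        _ = _ := mul_one _
    · rw [Set.indicator_of_notMem hy]
      have : R ≤ ‖y‖ := by
        simp only [Metric.mem_closedBall, dist_zero_right, not_le] at hy
        exact hy.le
      simp only
      rw [hR _ this, ENNReal.ofReal_zero, mul_zero]
  -- finiteness and positivity of the gain
  have hDfin : ∫⁻ y, ENNReal.ofReal (D1 y) < ⊤ := by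
    set v0 : ℝ → ℝ := fun r => if r ≤ 1 then 1 else 0 with hv0
    have hva : Antitone v0 := by
      intro r s hrs
      simp only [hv0]
      split_ifs with h1 h2 h2
      · exact le_rfl
      · exact absurd (hrs.trans h1) h2
      · exact zero_le_one
      · exact le_rfl
    have hk0 := key v0 hva hva.measurable (fun r => by simp only [hv0]; split_ifs <;> norm_num)
      (fun r hr => by simp only [hv0, hr, if_true])
    have hf0 := hfin v0 hva (fun r => by simp only [hv0]; split_ifs <;> norm_num)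
      (fun r hr => by simp only [hv0, hr, if_true])
      ⟨2, fun r hr => by
        have : ¬ r ≤ 1 := by intro h; linarith [show (2 : ℝ) ≤ r from hr]
        simp only [hv0, this, if_false]⟩
    have h9 : ENNReal.ofReal c * ∫⁻ y, ENNReal.ofReal (D1 y) < ⊤ :=
      lt_of_le_of_lt (le_trans (le_add_right le_rfl) hk0) (ENNReal.mul_lt_top ENNReal.ofReal_lt_top hf0)
    by_contra hcon
    rw [not_lt, top_le_iff] at hcon
    rw [hcon, ENNReal.mul_top (by simpa using hc0)] at h9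
    exact lt_irrefl _ h9
  have hDpos : 0 < ∫⁻ y, ENNReal.ofReal (D1 y) := by
    rw [lintegral_pos_iff_support hD1m.ennreal_ofReal]
    refine lt_of_lt_of_le (y3_ne_open h12) (measure_mono ?_)
    rintro y ⟨hy1, hy2⟩
    rw [Function.mem_support]
    have hy3 : y ∈ Metric.closedBall (0 : ℂ) 1 := Metric.ball_subset_closedBall hy2
    simp only [hD1]
    rw [Set.indicator_of_mem hy3]
    rw [ne_eq, ENNReal.ofReal_eq_zero, not_le]
    have hne : ‖y - a i‖ ^ (-((k : ℝ) * t)) ≠ ‖y - a j‖ ^ (-((k : ℝ) * t)) := by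
      rw [hi, hj]
      intro h
      apply hy1
      have hkt0 : -((k : ℝ) * t) ≠ 0 := by
        have : 0 < (k : ℝ) * t := by positivity
        linarith
      exact (Real.rpow_left_inj (norm_nonneg _) (norm_nonneg _) hkt0).mp h
    have h10 : 0 < (‖y - a i‖ ^ (-((k : ℝ) * t)) - ‖y - a j‖ ^ (-((k : ℝ) * t))) ^ 2 := by
      have := sub_ne_zero.mpr hne
      positivity
    show 0 < D y
    simp only [hD]
    positivity
  refine ⟨c * (∫⁻ y, ENNReal.ofReal (D1 y)).toReal, mul_pos hc0 (ENNReal.toReal_pos hDpos.ne' hDfin.ne),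
    fun v hva hvm hv0 hv1 hR => ?_⟩
  have hkey := key v hva hvm hv0 hv1
  have hf := hfin v hva hv0 hv1 hR
  have hvm' : Measurable (fun y : ℂ => v ‖y‖) := hvm.comp measurable_norm
  have hpm : Measurable (fun y : ℂ => ‖p.eval y‖ ^ (-(2 * t)) * v ‖y‖) :=
    ((p.continuous.measurable.norm).pow_const _).mul hvm'
  have hgm : Measurable (fun y : ℂ => ‖y‖ ^ (-(2 * ((k : ℝ) * t))) * v ‖y‖) :=
    ((measurable_norm).pow_const _).mul hvm'
  have hI1 : ∫ y : ℂ, ‖p.eval y‖ ^ (-(2 * t)) * v ‖y‖ =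
      (∫⁻ y : ℂ, ENNReal.ofReal (‖p.eval y‖ ^ (-(2 * t)) * v ‖y‖)).toReal := by
    apply integral_eq_lintegral_of_nonneg_ae
    · exact Eventually.of_forall (fun y => mul_nonneg (by positivity) (hv0 _))
    · exact hpm.aestronglyMeasurable
  have hI2 : ∫ y : ℂ, ‖y‖ ^ (-(2 * ((k : ℝ) * t))) * v ‖y‖ =
      (∫⁻ y : ℂ, ‖y‖ₑ ^ (-(2 * (k * t))) * ENNReal.ofReal (v ‖y‖)).toReal := by
    rw [integral_eq_lintegral_of_nonneg_ae
      (Eventually.of_forall (fun y => mul_nonneg (by positivity) (hv0 _))) hgm.aestronglyMeasurable]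
    congr 1
    apply lintegral_congr_ae
    have hz : ∀ᵐ y : ℂ, y ≠ 0 := by
      have h : ({0} : Set ℂ)ᶜ ∈ ae (volume : Measure ℂ) :=
        compl_mem_ae_iff.mpr (measure_singleton 0)
      filter_upwards [h] with y hy
      exact hy
    filter_upwards [hz] with y hy
    rw [ENNReal.ofReal_mul (by positivity), ← ofReal_norm,
      ENNReal.ofReal_rpow_of_pos (norm_pos_iff.mpr hy)]
  have hrt : ENNReal.ofReal c * ∫⁻ y : ℂ, ‖y‖ₑ ^ (-(2 * (k * t))) * ENNReal.ofReal (v ‖y‖) ≠ ⊤ :=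
    (ENNReal.mul_lt_top ENNReal.ofReal_lt_top hf).ne
  have hle := ENNReal.toReal_mono hrt hkey
  have h11 : ENNReal.ofReal c * ∫⁻ y, ENNReal.ofReal (D1 y) ≠ ⊤ :=
    (ENNReal.mul_lt_top ENNReal.ofReal_lt_top hDfin).ne
  have h12' : ∫⁻ y : ℂ, ENNReal.ofReal (‖p.eval y‖ ^ (-(2 * t)) * v ‖y‖) ≠ ⊤ := by
    intro h
    rw [h, add_top, top_le_iff] at hkey
    exact hrt hkey
  rw [ENNReal.toReal_add h11 h12', ENNReal.toReal_mul, ENNReal.toReal_mul,
    ENNReal.toReal_ofReal hc0.le] at hle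
  rw [hI1, hI2]
  exact hle

end MPb07157.Alp
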