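import Mathlib

/-!
# The second order estimate
-/

noncomputable section

namespace MPb07157.Alp

open MeasureTheory Filter Topology
open scoped ENNReal

theorem norm_exp_sub_le (w : ℂ) : ‖Complex.exp w - 1 - w‖ ≤ ‖w‖ ^ 2 * Real.exp ‖w‖ := by
  have h := Complex.norm_exp_sub_sum_le_norm_mul_exp w 2
  simpa [Finset.sum_range_succ, sub_sub] using h

/-- `|log |1+u|²| ≤ 4 |u|` for `|u| ≤ 1/2`. -/
theorem abs_log_normSq_le {u : ℂ} (hu : ‖u‖ ≤ 1 / 2) :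
    |Real.log (Complex.normSq (1 + u))| ≤ 4 * ‖u‖ := by
  have h0 : 0 ≤ ‖u‖ := norm_nonneg u
  have h1 : 1 - ‖u‖ ≤ ‖1 + u‖ := by
    have := norm_sub_norm_le (1 : ℂ) (-u)
    rw [norm_neg, norm_one, sub_neg_eq_add] at this
    exact this
  have h2 : ‖1 + u‖ ≤ 1 + ‖u‖ := by
    have := norm_add_le (1 : ℂ) u
    rwa [norm_one] at this
  have hpos : 0 < ‖1 + u‖ := by linarith
  rw [Complex.normSq_eq_norm_sq, Real.log_pow]
  push_cast
  rw [abs_mul, abs_two]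
  have h3 : Real.log ‖1 + u‖ ≤ ‖u‖ := by
    have := Real.log_le_sub_one_of_pos hpos
    linarith
  have h4 : -(2 * ‖u‖) ≤ Real.log ‖1 + u‖ := by
    have h5 : Real.log (1 - ‖u‖) ≤ Real.log ‖1 + u‖ := Real.log_le_log (by linarith) h1
    have h6 : -(2 * ‖u‖) ≤ Real.log (1 - ‖u‖) := by
      have h7 := Real.one_sub_inv_le_log_of_pos (show 0 < 1 - ‖u‖ by linarith)
      have h8 : (1 - ‖u‖)⁻¹ ≤ 1 + 2 * ‖u‖ := by
        rw [inv_le_comm₀ (by linarith) (by linarith), inv_le_iff_one_le_mul₀' (by linarith)]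
        nlinarith
      linarith
    linarith
  have h9 : |Real.log ‖1 + u‖| ≤ 2 * ‖u‖ := by
    rw [abs_le]
    constructor <;> linarith
  linarith

/-- Second order estimate. -/
theorem sym_bound (Z : ℝ) : ∃ C : ℝ, 0 ≤ C ∧ ∀ (z h h' : ℂ) (κ : ℝ), ‖z‖ ≤ Z → 0 ≤ κ → κ ≤ 1 / 4 →
    ‖h‖ ≤ 2 * κ → ‖h'‖ ≤ 2 * κ → ‖h + h'‖ ≤ 4 * κ ^ 2 →
    ‖(1 / 2) * (Complex.exp (z * (Real.log (Complex.normSq (1 + h)) : ℝ)) +
      Complex.exp (z * (Real.log (Complex.normSq (1 + h')) : ℝ))) - 1‖ ≤ C * κ ^ 2 := by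
  rcases lt_or_ge Z 0 with hZ | hZ
  · refine ⟨0, le_rfl, fun z h h' κ hz => ?_⟩
    exact absurd (le_trans (norm_nonneg z) hz) (by linarith)
  refine ⟨64 * Z ^ 2 * Real.exp (2 * Z) + 16 * Z, by positivity, ?_⟩
  intro z h h' κ hz hκ0 hκ h1 h2 h3
  set X : ℝ := Real.log (Complex.normSq (1 + h)) with hX
  set X' : ℝ := Real.log (Complex.normSq (1 + h')) with hX'
  have hXb : |X| ≤ 8 * κ := by
    have := abs_log_normSq_le (u := h) (by linarith)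
    linarith
  have hXb' : |X'| ≤ 8 * κ := by
    have := abs_log_normSq_le (u := h') (by linarith)
    linarith
  have hne : ∀ u : ℂ, ‖u‖ ≤ 1 / 2 → Complex.normSq (1 + u) ≠ 0 := by
    intro u hu h0
    rw [Complex.normSq_eq_zero] at h0
    have h5 : u = -1 := by linear_combination h0
    rw [h5, norm_neg, norm_one] at hu
    norm_num at hu
  have hsum : |X + X'| ≤ 32 * κ ^ 2 := by
    have e : X + X' = Real.log (Complex.normSq (1 + ((h + h') + h * h'))) := by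
      rw [hX, hX', ← Real.log_mul (hne h (by linarith)) (hne h' (by linarith)), ← map_mul]
      congr 2
      ring
    have h4 : ‖(h + h') + h * h'‖ ≤ 8 * κ ^ 2 := by
      calc ‖(h + h') + h * h'‖ ≤ ‖h + h'‖ + ‖h * h'‖ := norm_add_le _ _
        _ ≤ 4 * κ ^ 2 + (2 * κ) * (2 * κ) := by
            rw [norm_mul]
            exact add_le_add h3 (mul_le_mul h1 h2 (norm_nonneg _) (by linarith))
        _ = _ := by ring
    rw [e]
    have h5 := abs_log_normSq_le (u := (h + h') + h * h') (by nlinarith)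
    linarith
  have hz0 : 0 ≤ ‖z‖ := norm_nonneg z
  have hexp : ∀ Y : ℝ, |Y| ≤ 8 * κ →
      ‖Complex.exp (z * (Y : ℝ)) - 1 - z * (Y : ℝ)‖ ≤ 64 * Z ^ 2 * Real.exp (2 * Z) * κ ^ 2 := by
    intro Y hY
    have h5 := norm_exp_sub_le (z * (Y : ℝ))
    have h6 : ‖z * (Y : ℂ)‖ ≤ Z * (8 * κ) := by
      rw [norm_mul, Complex.norm_real, Real.norm_eq_abs]
      exact mul_le_mul hz hY (abs_nonneg _) hZ
    have h7 : ‖z * (Y : ℂ)‖ ^ 2 ≤ (Z * (8 * κ)) ^ 2 := pow_le_pow_left₀ (norm_nonneg _) h6 2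
    have h8 : Real.exp ‖z * (Y : ℂ)‖ ≤ Real.exp (2 * Z) := by
      apply Real.exp_le_exp.2
      nlinarith
    calc _ ≤ ‖z * (Y : ℂ)‖ ^ 2 * Real.exp ‖z * (Y : ℂ)‖ := h5
      _ ≤ (Z * (8 * κ)) ^ 2 * Real.exp (2 * Z) :=
          mul_le_mul h7 h8 (Real.exp_pos _).le (by positivity)
      _ = _ := by ring
  have e : (1 / 2 : ℂ) * (Complex.exp (z * (X : ℝ)) + Complex.exp (z * (X' : ℝ))) - 1 =
      (1 / 2) * ((Complex.exp (z * (X : ℝ)) - 1 - z * (X : ℝ)) +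
        (Complex.exp (z * (X' : ℝ)) - 1 - z * (X' : ℝ)) + z * ((X + X' : ℝ) : ℂ)) := by
    push_cast
    ring
  rw [e, norm_mul]
  have h9 : ‖z * ((X + X' : ℝ) : ℂ)‖ ≤ Z * (32 * κ ^ 2) := by
    rw [norm_mul, Complex.norm_real, Real.norm_eq_abs]
    exact mul_le_mul hz hsum (abs_nonneg _) hZ
  have h10 : ‖(1 / 2 : ℂ)‖ = 1 / 2 := by norm_num
  rw [h10]
  have h11 := norm_add₃_le (a := Complex.exp (z * (X : ℝ)) - 1 - z * (X : ℝ))
    (b := Complex.exp (z * (X' : ℝ)) - 1 - z * (X' : ℝ)) (c := z * ((X + X' : ℝ) : ℂ))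
  have h12 := hexp X hXb
  have h13 := hexp X' hXb'
  nlinarith

end MPb07157.Alp
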