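import Mathlib

/-!
# Homogeneous functions: integrability at the origin
-/

noncomputable section

namespace MPb07157.Alp

open MeasureTheory Filter Topology
open scoped ENNReal

variable {n : ℕ}

theorem finrank_pi_complex (n : ℕ) : Module.finrank ℝ (Fin n → ℂ) = 2 * n := by
  rw [Module.finrank_pi_fintype ℝ]
  simp [Complex.finrank_real_complex, mul_comm]

/-- Scaling. -/
theorem lintegral_smul_eq (g : (Fin n → ℂ) → ℝ≥0∞) {r : ℝ} (hr : 0 < r) :
    ∫⁻ x, g (r • x) = ENNReal.ofReal ((r ^ (2 * n))⁻¹) * ∫⁻ x, g x := by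
  have h1 := lintegral_map_equiv g (μ := (volume : Measure (Fin n → ℂ)))
    (Homeomorph.smulOfNeZero r hr.ne').toMeasurableEquiv
  have h2 : Measure.map (⇑(Homeomorph.smulOfNeZero (α := Fin n → ℂ) r hr.ne').toMeasurableEquiv)
      (volume : Measure (Fin n → ℂ)) = ENNReal.ofReal |(r ^ (2 * n))⁻¹| • volume := by
    rw [← finrank_pi_complex n]
    exact Measure.map_addHaar_smul volume hr.ne'
  rw [h2, lintegral_smul_measure, abs_of_nonneg (by positivity), smul_eq_mul] at h1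
  rw [h1]
  rfl

/-- The annuli. -/
def ann (n : ℕ) (R : ℝ) (j : ℕ) : Set (Fin n → ℂ) :=
  Metric.closedBall 0 (R * (1 / 2) ^ j) \ Metric.closedBall 0 (R * (1 / 2) ^ (j + 1))

theorem measurableSet_ann (R : ℝ) (j : ℕ) : MeasurableSet (ann n R j) :=
  Metric.isClosed_closedBall.measurableSet.diff Metric.isClosed_closedBall.measurableSet

theorem mem_ann {R : ℝ} {j : ℕ} {x : Fin n → ℂ} :
    x ∈ ann n R j ↔ ‖x‖ ≤ R * (1 / 2) ^ j ∧ R * (1 / 2) ^ (j + 1) < ‖x‖ := by
  unfold ann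
  rw [Set.mem_sdiff, mem_closedBall_zero_iff, mem_closedBall_zero_iff, not_le]

theorem smul_mem_ann {R : ℝ} (i j : ℕ) {x : Fin n → ℂ} :
    ((1 / 2 : ℝ) ^ i) • x ∈ ann n R (i + j) ↔ x ∈ ann n R j := by
  rw [mem_ann, mem_ann, norm_smul, Real.norm_eq_abs, abs_of_pos (by positivity)]
  have h1 : (0 : ℝ) < (1 / 2) ^ i := by positivity
  have e1 : R * (1 / 2 : ℝ) ^ (i + j) = (1 / 2) ^ i * (R * (1 / 2) ^ j) := by rw [pow_add]; ring
  have e2 : R * (1 / 2 : ℝ) ^ (i + j + 1) = (1 / 2) ^ i * (R * (1 / 2) ^ (j + 1)) := by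
    rw [add_assoc, pow_add]; ring
  rw [e1, e2, mul_le_mul_iff_right₀ h1, mul_lt_mul_iff_right₀ h1]

/-- Integrals over the annuli. -/
theorem setLIntegral_ann (g : (Fin n → ℂ) → ℝ≥0∞) (R : ℝ) (i j : ℕ) :
    ∫⁻ x in ann n R j, g (((1 / 2 : ℝ) ^ i) • x) =
      ENNReal.ofReal (((1 / 2 : ℝ) ^ (i * (2 * n)))⁻¹) * ∫⁻ x in ann n R (i + j), g x := by
  rw [← lintegral_indicator (measurableSet_ann R j),
    ← lintegral_indicator (measurableSet_ann R (i + j)), pow_mul,
    ← lintegral_smul_eq _ (show (0 : ℝ) < (1 / 2) ^ i by positivity)]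
  refine lintegral_congr fun x => ?_
  by_cases hx : x ∈ ann n R j
  · rw [Set.indicator_of_mem hx, Set.indicator_of_mem ((smul_mem_ann i j).2 hx)]
  · rw [Set.indicator_of_notMem hx, Set.indicator_of_notMem fun h => hx ((smul_mem_ann i j).1 h)]

theorem iUnion_ann {R : ℝ} (hR : 0 < R) :
    Metric.closedBall (0 : Fin n → ℂ) R \ {0} = ⋃ j, ann n R j := by
  ext x
  rw [Set.mem_iUnion, Set.mem_sdiff, mem_closedBall_zero_iff, Set.mem_singleton_iff]
  constructor
  · rintro ⟨h1, h2⟩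
    have hx : 0 < ‖x‖ := norm_pos_iff.2 h2
    have hex : ∃ j : ℕ, R * (1 / 2) ^ (j + 1) < ‖x‖ := by
      obtain ⟨j, hj⟩ := exists_pow_lt_of_lt_one (show 0 < ‖x‖ / R by positivity)
        (show (1 / 2 : ℝ) < 1 by norm_num)
      refine ⟨j, ?_⟩
      rw [lt_div_iff₀ hR] at hj
      have : (1 / 2 : ℝ) ^ (j + 1) ≤ (1 / 2) ^ j :=
        pow_le_pow_of_le_one (by norm_num) (by norm_num) (Nat.le_succ j)
      nlinarith
    classical
    refine ⟨Nat.find hex, mem_ann.2 ⟨?_, Nat.find_spec hex⟩⟩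
    rcases Nat.eq_zero_or_pos (Nat.find hex) with h0 | h0
    · rw [h0]
      simpa using h1
    · have h3 := Nat.find_min hex (m := Nat.find hex - 1) (by omega)
      rw [not_lt, Nat.sub_add_cancel h0] at h3
      exact h3
  · rintro ⟨j, hj⟩
    rw [mem_ann] at hj
    constructor
    · refine hj.1.trans ?_
      have : (1 / 2 : ℝ) ^ j ≤ 1 := pow_le_one₀ (by norm_num) (by norm_num)
      nlinarith
    · rintro rfl
      rw [norm_zero] at hj
      have : 0 < R * (1 / 2 : ℝ) ^ (j + 1) := by positivity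
      linarith

theorem disjoint_ann {R : ℝ} (hR : 0 < R) : Pairwise (Function.onFun Disjoint (ann n R)) := by
  have key : ∀ i j : ℕ, i < j → Disjoint (ann n R i) (ann n R j) := by
    intro i j hij
    rw [Set.disjoint_left]
    intro x h1 h2
    rw [mem_ann] at h1 h2
    have : (1 / 2 : ℝ) ^ j ≤ (1 / 2) ^ (i + 1) :=
      pow_le_pow_of_le_one (by norm_num) (by norm_num) hij
    nlinarith [h1.2, h2.1]
  intro i j hij
  rcases lt_or_gt_of_ne hij with h | h
  · exact key i j h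
  · exact (key j i h).symm

theorem lintegral_closedBall_eq_tsum (hn : 0 < n) {R : ℝ} (hR : 0 < R) (g : (Fin n → ℂ) → ℝ≥0∞) :
    ∫⁻ x in Metric.closedBall 0 R, g x = ∑' j, ∫⁻ x in ann n R j, g x := by
  haveI : Nonempty (Fin n) := ⟨⟨0, hn⟩⟩
  rw [← lintegral_iUnion (fun j => measurableSet_ann R j) (disjoint_ann hR), ← iUnion_ann hR]
  refine (setLIntegral_congr ?_).symm
  exact sdiff_null_ae_eq_self (measure_singleton 0)

/-- A function which is homogeneous of degree `> -2n` and integrable on an annulus is integrable at the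
origin. -/
theorem lintegral_closedBall_lt_top (hn : 0 < n) {g : (Fin n → ℂ) → ℝ≥0∞}
    {θ : ℝ} (hθ : θ < 2 ^ (2 * n)) (hθ0 : 0 ≤ θ)
    (hhom : ∀ x, g ((1 / 2 : ℝ) • x) ≤ ENNReal.ofReal θ * g x) {R : ℝ} (hR : 0 < R)
    (hann : ∫⁻ x in Metric.closedBall 0 R \ Metric.closedBall 0 (R / 2), g x < ⊤) :
    ∫⁻ x in Metric.closedBall 0 R, g x < ⊤ := by
  rw [lintegral_closedBall_eq_tsum hn hR]
  have e0 : ann n R 0 = Metric.closedBall 0 R \ Metric.closedBall 0 (R / 2) := by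
    unfold ann
    norm_num
    congr 2
    ring
  set q : ℝ := θ / 2 ^ (2 * n) with hq
  have hq0 : 0 ≤ q := by positivity
  have hq1 : q < 1 := by rw [hq, div_lt_one (by positivity)]; exact hθ
  have hhomi : ∀ (i : ℕ) x, g (((1 / 2 : ℝ) ^ i) • x) ≤ ENNReal.ofReal (θ ^ i) * g x := by
    intro i
    induction i with
    | zero => intro x; simp
    | succ i ih =>
      intro x
      rw [pow_succ', mul_smul]
      calc _ ≤ ENNReal.ofReal θ * g (((1 / 2 : ℝ) ^ i) • x) := hhom _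
        _ ≤ ENNReal.ofReal θ * (ENNReal.ofReal (θ ^ i) * g x) := by gcongr; exact ih x
        _ = _ := by
          rw [← mul_assoc, ← ENNReal.ofReal_mul hθ0, pow_succ']
  have hterm : ∀ i, ∫⁻ x in ann n R i, g x ≤ ENNReal.ofReal (q ^ i) * ∫⁻ x in ann n R 0, g x := by
    intro i
    have h1 := setLIntegral_ann g R i 0
    rw [add_zero] at h1
    have h2 : ∫⁻ x in ann n R 0, g (((1 / 2 : ℝ) ^ i) • x) ≤
        ENNReal.ofReal (θ ^ i) * ∫⁻ x in ann n R 0, g x := by
      calc _ ≤ ∫⁻ x in ann n R 0, ENNReal.ofReal (θ ^ i) * g x := lintegral_mono fun x => hhomi i x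
        _ = _ := lintegral_const_mul' _ _ ENNReal.ofReal_ne_top
    rw [h1] at h2
    have h3 : (((1 / 2 : ℝ) ^ (i * (2 * n)))⁻¹) = (2 ^ (2 * n)) ^ i := by
      rw [one_div, inv_pow, inv_inv, ← pow_mul, mul_comm]
    rw [h3] at h2
    have h4 : ENNReal.ofReal (q ^ i) = (ENNReal.ofReal ((2 ^ (2 * n)) ^ i))⁻¹ *
        ENNReal.ofReal (θ ^ i) := by
      rw [← ENNReal.ofReal_inv_of_pos (by positivity), ← ENNReal.ofReal_mul (by positivity)]
      congr 1
      rw [hq, div_pow]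
      ring
    rw [h4, mul_assoc]
    calc ∫⁻ x in ann n R i, g x = (ENNReal.ofReal ((2 ^ (2 * n)) ^ i))⁻¹ *
        (ENNReal.ofReal ((2 ^ (2 * n)) ^ i) * ∫⁻ x in ann n R i, g x) := by
          rw [← mul_assoc, ENNReal.inv_mul_cancel, one_mul]
          · exact (ENNReal.ofReal_pos.2 (by positivity)).ne'
          · exact ENNReal.ofReal_ne_top
      _ ≤ _ := by gcongr
  calc ∑' i, ∫⁻ x in ann n R i, g x
      ≤ ∑' i, ENNReal.ofReal (q ^ i) * ∫⁻ x in ann n R 0, g x := ENNReal.tsum_le_tsum hterm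
    _ = (∑' i, ENNReal.ofReal (q ^ i)) * ∫⁻ x in ann n R 0, g x := ENNReal.tsum_mul_right
    _ < ⊤ := by
        refine ENNReal.mul_lt_top ?_ (e0 ▸ hann)
        rw [← ENNReal.ofReal_tsum_of_nonneg (fun i => pow_nonneg hq0 i)
          (summable_geometric_of_lt_one hq0 hq1)]
        exact ENNReal.ofReal_lt_top

end MPb07157.Alp
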