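import Mathlib

/-!
# Y6: polynomials `p` with `k p p'' = (k-1) p'²`
-/

noncomputable section

namespace MPb07157.Alp

open Polynomial

namespace Y6

theorem mul_derivative (a : ℂ) (n : ℕ) (s : ℂ[X]) :
    (X - C a) * derivative ((X - C a) ^ n * s) =
      (X - C a) ^ n * ((n : ℂ[X]) * s + (X - C a) * derivative s) := by
  rcases n with _ | n
  · simp
  · rw [derivative_mul, derivative_X_sub_C_pow]
    simp only [Nat.add_sub_cancel, map_natCast]
    ring

theorem deriv_two (p : ℂ[X]) (a : ℂ) :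
    (X - C a) * derivative ((X - C a) * derivative p) =
      (X - C a) * derivative p + (X - C a) ^ 2 * derivative (derivative p) := by
  rw [derivative_mul, derivative_X_sub_C]
  ring

/-- a root of a solution has multiplicity `k` -/
theorem mult_eq {p : ℂ[X]} {k : ℕ} (hk : 2 ≤ k) (hp : p ≠ 0)
    (h : (k : ℂ[X]) * p * p.derivative.derivative = ((k : ℂ[X]) - 1) * p.derivative ^ 2)
    {a : ℂ} (ha : p.eval a = 0) : (X - C a) ^ k ∣ p := by
  obtain ⟨r, hr⟩ := pow_rootMultiplicity_dvd p a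
  set μ := p.rootMultiplicity a with hμ
  have hμ0 : 0 < μ := (rootMultiplicity_pos hp).2 ha
  have hra : r.eval a ≠ 0 := by
    intro h0
    obtain ⟨r', hr'⟩ := dvd_iff_isRoot.2 h0
    have h1 : (X - C a) ^ (μ + 1) ∣ p := by
      rw [hr, hr', pow_succ]
      exact ⟨r', by ring⟩
    have h2 := (le_rootMultiplicity_iff hp).2 h1
    omega
  set W : ℂ[X] := X - C a with hW
  have hW0 : W ≠ 0 := X_sub_C_ne_zero a
  set A : ℂ[X] := (μ : ℂ[X]) * r + W * derivative r with hA
  have e1 : W * derivative p = W ^ μ * A := by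
    have h0 : W * derivative (W ^ μ * r) = W ^ μ * A := mul_derivative a μ r
    rwa [← hr] at h0
  have e2 : W ^ 2 * derivative (derivative p) =
      W ^ μ * (((μ : ℂ[X]) - 1) * A + W * derivative A) := by
    have h1 := deriv_two p a
    rw [← hW, e1] at h1
    have h2 : W * derivative (W ^ μ * A) = W ^ μ * ((μ : ℂ[X]) * A + W * derivative A) :=
      mul_derivative a μ A
    rw [h2] at h1
    linear_combination (-1 : ℂ[X]) * h1
  have e3 : W ^ (2 * μ) * ((k : ℂ[X]) * r * (((μ : ℂ[X]) - 1) * A + W * derivative A)) =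
      W ^ (2 * μ) * (((k : ℂ[X]) - 1) * A ^ 2) := by
    have h1 : W ^ 2 * ((k : ℂ[X]) * p * p.derivative.derivative) =
        W ^ 2 * (((k : ℂ[X]) - 1) * p.derivative ^ 2) := by rw [h]
    have h2 : W ^ 2 * ((k : ℂ[X]) * p * p.derivative.derivative) =
        (k : ℂ[X]) * p * (W ^ 2 * p.derivative.derivative) := by ring
    have h3 : W ^ 2 * (((k : ℂ[X]) - 1) * p.derivative ^ 2) =
        ((k : ℂ[X]) - 1) * (W * p.derivative) ^ 2 := by ring
    rw [h2, h3, e1, e2] at h1
    have h4 : (k : ℂ[X]) * p * (W ^ μ * (((μ : ℂ[X]) - 1) * A + W * derivative A)) =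
        (k : ℂ[X]) * (W ^ μ * r) * (W ^ μ * (((μ : ℂ[X]) - 1) * A + W * derivative A)) := by
      rw [← hr]
    rw [h4] at h1
    linear_combination h1
  have e4 := mul_left_cancel₀ (pow_ne_zero _ hW0) e3
  have e5 := congrArg (eval a) e4
  have hWa : eval a W = 0 := by rw [hW]; simp
  simp only [eval_mul, eval_add, eval_sub, eval_pow, eval_natCast, eval_one, hWa, hA, zero_mul,
    add_zero] at e5
  have e6 : (r.eval a) ^ 2 * (μ : ℂ) * ((k : ℂ) - μ) = 0 := by
    linear_combination (-1 : ℂ) * e5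
  have hμC : (μ : ℂ) ≠ 0 := by exact_mod_cast hμ0.ne'
  have e7 : (k : ℂ) = μ := by
    rcases mul_eq_zero.1 e6 with h1 | h1
    · exact absurd h1 (mul_ne_zero (pow_ne_zero _ hra) hμC)
    · linear_combination h1
  have e8 : k = μ := by exact_mod_cast e7
  rw [hr, e8]
  exact Dvd.intro _ rfl

end Y6

open Y6

/-- If `k p p'' = (k-1) p'²` then `p` has at most one root. -/
theorem roots_eq_of_ode {p : Polynomial ℂ} {k : ℕ} (hk : 2 ≤ k) (hp : p.natDegree = k)
    (h : (k : Polynomial ℂ) * p * p.derivative.derivative = ((k : Polynomial ℂ) - 1) * p.derivative ^ 2)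
    {y₁ y₂ : ℂ} (h1 : p.eval y₁ = 0) (h2 : p.eval y₂ = 0) : y₁ = y₂ := by
  by_contra hne
  have hp0 : p ≠ 0 := by
    rintro rfl
    rw [natDegree_zero] at hp
    omega
  have d1 := mult_eq hk hp0 h h1
  have d2 := mult_eq hk hp0 h h2
  have hc : IsCoprime ((X - C y₁) ^ k : ℂ[X]) ((X - C y₂) ^ k) :=
    (isCoprime_X_sub_C_of_isUnit_sub (sub_ne_zero.2 hne).isUnit).pow
  have d3 := natDegree_le_of_dvd (hc.mul_dvd d1 d2) hp0
  rw [natDegree_mul (pow_ne_zero _ (X_sub_C_ne_zero _)) (pow_ne_zero _ (X_sub_C_ne_zero _)),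
    natDegree_pow, natDegree_pow, natDegree_X_sub_C, natDegree_X_sub_C, hp] at d3
  omega

/-- If `k p p'' ≠ (k-1) p'²` then `p` has two roots. -/
theorem exists_roots_of_not_ode {p : Polynomial ℂ} {k : ℕ} (hk : 2 ≤ k) (hp : p.natDegree = k)
    (h : (k : Polynomial ℂ) * p * p.derivative.derivative ≠ ((k : Polynomial ℂ) - 1) * p.derivative ^ 2) :
    ∃ y₁ y₂ : ℂ, y₁ ≠ y₂ ∧ p.eval y₁ = 0 ∧ p.eval y₂ = 0 := by
  by_contra hcon
  push Not at hcon
  apply h
  have hp0 : p ≠ 0 := by
    rintro rfl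
    rw [natDegree_zero] at hp
    omega
  obtain ⟨a, ha⟩ := IsAlgClosed.exists_root p (by
    rw [degree_eq_natDegree hp0, hp]
    exact_mod_cast (by omega : k ≠ 0))
  have hall : ∀ b ∈ p.roots, b = a := by
    intro b hb
    by_contra hba
    exact hcon b a hba ((mem_roots hp0).1 hb) ha
  have hcard : p.roots.card = k := by rw [IsAlgClosed.card_roots_eq_natDegree, hp]
  have hrep : p.roots = Multiset.replicate k a := Multiset.eq_replicate.2 ⟨hcard, hall⟩
  have hs := (IsAlgClosed.splits p).eq_prod_roots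
  rw [hrep, Multiset.map_replicate, Multiset.prod_replicate] at hs
  obtain ⟨n, rfl⟩ : ∃ n, k = n + 2 := ⟨k - 2, by omega⟩
  rw [hs]
  simp only [derivative_mul, derivative_C, zero_mul, zero_add, derivative_X_sub_C_pow,
    Nat.add_sub_cancel, map_natCast, derivative_natCast, show n + 2 - 1 = n + 1 from rfl]
  push_cast
  ring

end MPb07157.Alp
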