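import Pool.Agent.Lib.MP_b07157_agL.Lf
import Pool.Agent.Lib.MP_b07157_agY.Yd

/-!
# Homogeneous polynomials and a point of large multiplicity: algebra and bounds
-/

noncomputable section

namespace MPb07157.Alp

open MeasureTheory Filter Topology MvPolynomial
open scoped ENNReal

variable {n : ℕ}

/-- The polynomial `f(·, x)` in the first variable. -/
def pol (f : MvPolynomial (Fin (n + 1)) ℂ) (x : Fin n → ℂ) : Polynomial ℂ :=
  (finSuccEquiv ℂ n f).map (eval x)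

theorem eval_cons (f : MvPolynomial (Fin (n + 1)) ℂ) (y : ℂ) (x : Fin n → ℂ) :
    eval (Fin.cons y x : Fin (n + 1) → ℂ) f = (pol f x).eval y :=
  eval_eq_eval_mv_eval' x y f

variable {f : MvPolynomial (Fin (n + 1)) ℂ} {d k m : ℕ}

theorem Dat.ne_zero (h : Dat f d k m) : f ≠ 0 := by
  rintro rfl
  have h1 := h.deg
  have h2 := h.hk
  rw [map_zero, Polynomial.natDegree_zero] at h1
  omega

theorem Dat.fin_ne_zero (h : Dat f d k m) : finSuccEquiv ℂ n f ≠ 0 := by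
  intro h0
  have h1 := h.deg
  have h2 := h.hk
  rw [h0, Polynomial.natDegree_zero] at h1
  omega

theorem Dat.qf_ne_zero (h : Dat f d k m) : qf f ≠ 0 :=
  Polynomial.leadingCoeff_ne_zero.2 h.fin_ne_zero

theorem Dat.coeff_hom (h : Dat f d k m) {i : ℕ} (hi : i ≤ k) :
    ((finSuccEquiv ℂ n f).coeff (k - i)).IsHomogeneous (m + i) :=
  h.hom.finSuccEquiv_coeff_isHomogeneous _ _ (by have := h.hd; omega)

theorem Dat.qf_hom (h : Dat f d k m) : (qf f).IsHomogeneous m := by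
  have h1 := h.coeff_hom (i := 0) (Nat.zero_le _)
  unfold qf Polynomial.leadingCoeff
  rw [h.deg]
  simpa using h1

theorem Dat.m_pos (h : Dat f d k m) : 0 < m := by
  have h1 := h.hd
  have h2 := h.lt
  have h3 := h.hk
  nlinarith

theorem Dat.d_pos (h : Dat f d k m) : 0 < d := by
  have h1 := h.hd
  have h3 := h.hk
  omega

theorem coeff_pol (f : MvPolynomial (Fin (n + 1)) ℂ) (x : Fin n → ℂ) (j : ℕ) :
    (pol f x).coeff j = eval x ((finSuccEquiv ℂ n f).coeff j) := by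
  unfold pol
  rw [Polynomial.coeff_map]

theorem Dat.natDegree_pol (h : Dat f d k m) {x : Fin n → ℂ} (hx : eval x (qf f) ≠ 0) :
    (pol f x).natDegree = k := by
  unfold pol
  rw [Polynomial.natDegree_map_of_leadingCoeff_ne_zero _ hx, h.deg]

theorem Dat.leadingCoeff_pol (h : Dat f d k m) {x : Fin n → ℂ} (hx : eval x (qf f) ≠ 0) :
    (pol f x).leadingCoeff = eval x (qf f) := by
  unfold Polynomial.leadingCoeff
  rw [h.natDegree_pol hx, coeff_pol]
  unfold qf Polynomial.leadingCoeff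
  rw [h.deg]

theorem Dat.pol_smul (h : Dat f d k m) (c y : ℂ) (x : Fin n → ℂ) :
    (pol f (c • x)).eval (c * y) = c ^ d * (pol f x).eval y := by
  have e : (Fin.cons (c * y) (c • x) : Fin (n + 1) → ℂ) = c • (Fin.cons y x : Fin (n + 1) → ℂ) := by
    funext i
    refine Fin.cases ?_ (fun i => ?_) i <;> simp
  rw [← eval_cons, ← eval_cons, ← eval_smul_of_homog h.hom, e]

/-- Bounds for homogeneous polynomials. -/
theorem norm_eval_le_of_homog {N e : ℕ} {P : MvPolynomial (Fin N) ℂ} (hP : P.IsHomogeneous e) :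
    ∃ C : ℝ, 0 ≤ C ∧ ∀ x : Fin N → ℂ, ‖eval x P‖ ≤ C * ‖x‖ ^ e := by
  refine ⟨∑ v ∈ P.support, ‖coeff v P‖, Finset.sum_nonneg fun _ _ => norm_nonneg _, fun x => ?_⟩
  rw [eval_eq', Finset.sum_mul]
  refine (norm_sum_le _ _).trans (Finset.sum_le_sum fun v hv => ?_)
  rw [norm_mul, norm_prod]
  refine mul_le_mul_of_nonneg_left ?_ (norm_nonneg _)
  have h1 : ∑ i, v i = e := by
    have h2 := hP (mem_support_iff.1 hv)
    rw [Finsupp.weight_apply, Finsupp.sum_fintype _ _ (fun i => by simp)] at h2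
    simpa using h2
  calc ∏ i, ‖x i ^ v i‖ ≤ ∏ i, ‖x‖ ^ v i := by
        refine Finset.prod_le_prod (fun i _ => norm_nonneg _) fun i _ => ?_
        rw [norm_pow]
        exact pow_le_pow_left₀ (norm_nonneg _) (norm_le_pi_norm x i) _
    _ = ‖x‖ ^ e := by rw [Finset.prod_pow_eq_pow_sum, h1]

theorem Dat.exists_const (h : Dat f d k m) : ∃ C : ℝ, 0 < C ∧ ∀ i ≤ k, ∀ x : Fin n → ℂ,
    ‖(pol f x).coeff (k - i)‖ ≤ C * ‖x‖ ^ (m + i) := by
  have h1 : ∀ i : ℕ, ∃ C : ℝ, 0 ≤ C ∧ (i ≤ k → ∀ x : Fin n → ℂ,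
      ‖(pol f x).coeff (k - i)‖ ≤ C * ‖x‖ ^ (m + i)) := by
    intro i
    by_cases hi : i ≤ k
    · obtain ⟨C, hC0, hC⟩ := norm_eval_le_of_homog (h.coeff_hom hi)
      exact ⟨C, hC0, fun _ x => by rw [coeff_pol]; exact hC x⟩
    · exact ⟨0, le_rfl, fun h => absurd h hi⟩
  choose C hC0 hC using h1
  refine ⟨1 + ∑ i ∈ Finset.range (k + 1), C i, ?_, fun i hi x => ?_⟩
  · have := Finset.sum_nonneg fun i (_ : i ∈ Finset.range (k + 1)) => hC0 i
    linarith
  · refine (hC i hi x).trans (mul_le_mul_of_nonneg_right ?_ (by positivity))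
    have := Finset.single_le_sum (fun i _ => hC0 i)
      (Finset.mem_range.2 (Nat.lt_succ_of_le hi))
    linarith

theorem Dat.eval_pol (h : Dat f d k m) {x : Fin n → ℂ} (hx : eval x (qf f) ≠ 0) {y : ℂ}
    (hy : y ≠ 0) : (pol f x).eval y = y ^ k * eval x (qf f) *
      (1 + ∑ i ∈ Finset.range k, (pol f x).coeff (k - (i + 1)) / (eval x (qf f) * y ^ (i + 1))) := by
  have h0 : (pol f x).coeff k = eval x (qf f) := by
    rw [← h.leadingCoeff_pol hx]
    unfold Polynomial.leadingCoeff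
    rw [h.natDegree_pol hx]
  rw [Polynomial.eval_eq_sum_range, h.natDegree_pol hx,
    ← Finset.sum_range_reflect, Finset.sum_range_succ', mul_add, mul_one, Finset.mul_sum, add_comm]
  congr 1
  · simp only [Nat.add_sub_cancel, Nat.sub_zero]
    rw [h0]
    ring
  · refine Finset.sum_congr rfl fun i hi => ?_
    rw [Finset.mem_range] at hi
    have e1 : k + 1 - 1 - (i + 1) = k - (i + 1) := by omega
    rw [e1]
    have e2 : y ^ k = y ^ (k - (i + 1)) * y ^ (i + 1) := by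
      rw [← pow_add]
      congr 1
      omega
    rw [e2]
    field_simp

/-- The small parameter. -/
def kap (f : MvPolynomial (Fin (n + 1)) ℂ) (m : ℕ) (C : ℝ) (y : ℂ) (x : Fin n → ℂ) : ℝ :=
  C * ‖x‖ ^ (m + 1) / (‖eval x (qf f)‖ * ‖y‖)

theorem sum_pow_le {κ : ℝ} (h0 : 0 ≤ κ) (h1 : κ ≤ 1 / 4) (k : ℕ) :
    ∑ i ∈ Finset.range k, κ ^ i ≤ 4 / 3 := by
  have h2 : κ < 1 := by linarith
  have h3 := (summable_geometric_of_lt_one h0 h2).sum_le_tsum (Finset.range k)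
    (fun i _ => pow_nonneg h0 i)
  rw [tsum_geometric_of_lt_one h0 h2] at h3
  refine h3.trans ?_
  rw [inv_le_comm₀ (by linarith) (by norm_num)]
  linarith

theorem Dat.exists_hh (h : Dat f d k m) {C : ℝ} (hC0 : 0 < C) (hC : ∀ i ≤ k, ∀ x : Fin n → ℂ,
    ‖(pol f x).coeff (k - i)‖ ≤ C * ‖x‖ ^ (m + i)) {x : Fin n → ℂ} (hx : eval x (qf f) ≠ 0) {y : ℂ}
    (hy : y ≠ 0) (hκ : kap f m C y x ≤ 1 / 4) :
    ∃ u u' : ℂ, (pol f x).eval y = y ^ k * eval x (qf f) * (1 + u) ∧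
      (pol f x).eval (-y) = (-y) ^ k * eval x (qf f) * (1 + u') ∧
      ‖u‖ ≤ 2 * kap f m C y x ∧ ‖u'‖ ≤ 2 * kap f m C y x ∧
      ‖u + u'‖ ≤ 4 * kap f m C y x ^ 2 := by
  set κ := kap f m C y x with hκdef
  have hq : 0 < ‖eval x (qf f)‖ := norm_pos_iff.2 hx
  have hyp : 0 < ‖y‖ := norm_pos_iff.2 hy
  have hκ0 : 0 ≤ κ := by
    rw [hκdef]
    unfold kap
    positivity
  have h0 : (pol f x).coeff k = eval x (qf f) := by
    rw [← h.leadingCoeff_pol hx]
    unfold Polynomial.leadingCoeff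
    rw [h.natDegree_pol hx]
  have hq2 : ‖eval x (qf f)‖ ≤ C * ‖x‖ ^ m := by
    have := hC 0 (Nat.zero_le _) x
    rwa [Nat.sub_zero, h0, add_zero] at this
  have hxy : ‖x‖ / ‖y‖ ≤ κ := by
    rw [hκdef]
    unfold kap
    rw [div_le_div_iff₀ hyp (by positivity)]
    calc ‖x‖ * (‖eval x (qf f)‖ * ‖y‖) ≤ ‖x‖ * ((C * ‖x‖ ^ m) * ‖y‖) := by gcongr
      _ = _ := by ring
  have hterm : ∀ i < k, ∀ w : ℂ, ‖w‖ = ‖y‖ →
      ‖(pol f x).coeff (k - (i + 1)) / (eval x (qf f) * w ^ (i + 1))‖ ≤ κ * κ ^ i := by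
    intro i hi w hw
    rw [norm_div, norm_mul, norm_pow, hw]
    have h1 := hC (i + 1) hi x
    calc ‖(pol f x).coeff (k - (i + 1))‖ / (‖eval x (qf f)‖ * ‖y‖ ^ (i + 1))
        ≤ (C * ‖x‖ ^ (m + (i + 1))) / (‖eval x (qf f)‖ * ‖y‖ ^ (i + 1)) := by gcongr
      _ = κ * (‖x‖ / ‖y‖) ^ i := by
          rw [hκdef, div_pow]
          unfold kap
          rw [div_mul_div_comm]
          congr 1 <;> ring
      _ ≤ κ * κ ^ i := by gcongr
  have hsum : ∀ w : ℂ, ‖w‖ = ‖y‖ →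
      ‖∑ i ∈ Finset.range k, (pol f x).coeff (k - (i + 1)) / (eval x (qf f) * w ^ (i + 1))‖ ≤
        2 * κ := by
    intro w hw
    calc _ ≤ ∑ i ∈ Finset.range k, κ * κ ^ i := (norm_sum_le _ _).trans
          (Finset.sum_le_sum fun i hi => hterm i (Finset.mem_range.1 hi) w hw)
      _ = κ * ∑ i ∈ Finset.range k, κ ^ i := by rw [Finset.mul_sum]
      _ ≤ κ * (4 / 3) := by gcongr; exact sum_pow_le hκ0 hκ k
      _ ≤ 2 * κ := by linarith
  refine ⟨_, _, h.eval_pol hx hy, h.eval_pol hx (neg_ne_zero.2 hy), hsum y rfl,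
    hsum (-y) (norm_neg y), ?_⟩
  rw [← Finset.sum_add_distrib]
  obtain ⟨k', rfl⟩ : ∃ k', k = k' + 1 := ⟨k - 1, by have := h.hk; omega⟩
  rw [Finset.sum_range_succ']
  have e0 : (pol f x).coeff (k' + 1 - (0 + 1)) / (eval x (qf f) * y ^ (0 + 1)) +
      (pol f x).coeff (k' + 1 - (0 + 1)) / (eval x (qf f) * (-y) ^ (0 + 1)) = 0 := by
    rw [zero_add, pow_one, pow_one, mul_neg, div_neg, add_neg_cancel]
  rw [e0, add_zero]
  calc _ ≤ ∑ i ∈ Finset.range k', (κ * κ ^ (i + 1) + κ * κ ^ (i + 1)) := by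
        refine (norm_sum_le _ _).trans (Finset.sum_le_sum fun i hi => ?_)
        have hi' : i + 1 < k' + 1 := by
          rw [Finset.mem_range] at hi
          omega
        exact (norm_add_le _ _).trans (add_le_add (hterm (i + 1) hi' y rfl)
          (hterm (i + 1) hi' (-y) (norm_neg y)))
    _ = 2 * κ ^ 2 * ∑ i ∈ Finset.range k', κ ^ i := by
        rw [Finset.mul_sum]
        refine Finset.sum_congr rfl fun i _ => ?_
        ring
    _ ≤ 2 * κ ^ 2 * (4 / 3) := by gcongr; exact sum_pow_le hκ0 hκ k'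
    _ ≤ 4 * κ ^ 2 := by nlinarith [sq_nonneg κ]

end MPb07157.Alp
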