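import Pool.Agent.Lib.MP_b07157_agY.Ym1
import Pool.Agent.Lib.MP_b07157_agY.Y2
import Pool.Agent.Lib.MP_b07157_agY.Y3
import Pool.Agent.Lib.MP_b07157_agY.Y5
import Pool.Agent.Lib.MP_b07157_agY.Y7

/-!
# The dominating function
-/

noncomputable section

namespace MPb07157.Alp

open MeasureTheory Filter Topology MvPolynomial
open scoped ENNReal

variable {n : ℕ} {f : MvPolynomial (Fin (n + 1)) ℂ} {d k m : ℕ}

/-- The exponent `n/d` for `n + 1` variables. -/
def cc (n d : ℕ) : ℝ := ((n : ℝ) + 1) / d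

/-- The exponent in the condition on the tangent cone. -/
def aa (n d k : ℕ) : ℝ := 1 - cc n d * (k - 1)

theorem Dat.cc_pos (h : Dat f d k m) : 0 < cc n d := by
  have h1 : (0 : ℝ) < d := by exact_mod_cast h.d_pos
  unfold cc
  positivity

theorem Dat.cc_mul_d (h : Dat f d k m) : cc n d * d = n + 1 := by
  have h1 : (0 : ℝ) < d := by exact_mod_cast h.d_pos
  unfold cc
  field_simp

theorem Dat.cc_mul_k (h : Dat f d k m) : k * cc n d < 1 := by
  have h1 : (0 : ℝ) < d := by exact_mod_cast h.d_pos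
  have h2 : ((n : ℝ) + 1) * k < d := by exact_mod_cast h.lt
  unfold cc
  rw [← mul_div_assoc, div_lt_one h1]
  linarith

theorem Dat.two_le_k (h : Dat f d k m) : (2 : ℝ) ≤ k := by exact_mod_cast h.hk

theorem Dat.cc_lt (h : Dat f d k m) : cc n d < 1 / 2 := by
  have h1 := h.cc_mul_k
  have h2 := h.two_le_k
  have h3 := h.cc_pos
  nlinarith

theorem Dat.aa_pos (h : Dat f d k m) : 0 < aa n d k := by
  have h1 := h.cc_mul_k
  have h3 := h.cc_pos
  unfold aa
  nlinarith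

theorem Dat.cc_lt_aa (h : Dat f d k m) : cc n d < aa n d k := by
  have h1 := h.cc_mul_k
  unfold aa
  nlinarith

theorem Dat.aa_lt_one (h : Dat f d k m) : aa n d k < 1 := by
  have h2 := h.two_le_k
  have h3 := h.cc_pos
  unfold aa
  nlinarith

theorem Dat.cc_split (h : Dat f d k m) : cc n d * (m + 1) + cc n d * (k - 1) = n + 1 := by
  have h1 : (m : ℝ) + k = d := by exact_mod_cast h.hd
  have h2 := h.cc_mul_d
  rw [← h1] at h2
  linarith

theorem Dat.n_pos (h : Dat f d k m) : 0 < n := by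
  by_contra hcon
  have hn : n = 0 := by omega
  subst hn
  have h1 := h.qf_hom
  have h2 := h.qf_ne_zero
  obtain ⟨v, hv⟩ := Finset.nonempty_iff_ne_empty.2 (fun h' => h2 (support_eq_empty.1 h'))
  have h3 := h1 (mem_support_iff.1 hv)
  rw [Finsupp.weight_apply, Finsupp.sum_fintype _ _ (fun i => by simp)] at h3
  have h4 := h.m_pos
  simp at h3
  omega

/-- The condition on the tangent cone. -/
def HInt (f : MvPolynomial (Fin (n + 1)) ℂ) (d k : ℕ) : Prop :=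
  ∀ K : Set (Fin n → ℂ), IsCompact K → 0 ∉ K →
    IntegrableOn (fun x => ‖eval x (qf f)‖ ^ (-(2 * aa n d k))) K

theorem enorm_rpow_eq {a : ℂ} (ha : a ≠ 0) (p : ℝ) : ‖a‖ₑ ^ p = ENNReal.ofReal (‖a‖ ^ p) := by
  rw [← ofReal_norm, ENNReal.ofReal_rpow_of_pos (norm_pos_iff.2 ha)]

theorem enorm_rpow_ne_top {a : ℂ} (ha : a ≠ 0) (p : ℝ) : ‖a‖ₑ ^ p ≠ ⊤ := by
  rw [enorm_rpow_eq ha]
  exact ENNReal.ofReal_ne_top

theorem enorm_mul_rpow {a b : ℂ} (p : ℝ) : ‖a * b‖ₑ ^ p = ‖a‖ₑ ^ p * ‖b‖ₑ ^ p := by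
  rw [enorm_mul, ENNReal.mul_rpow_of_ne_top enorm_ne_top enorm_ne_top]

theorem measurable_qf (f : MvPolynomial (Fin (n + 1)) ℂ) : Measurable fun x => eval x (qf f) :=
  (Lct.continuous_evalP _).measurable

theorem measurable_pol (f : MvPolynomial (Fin (n + 1)) ℂ) :
    Measurable fun ω : ℂ × (Fin n → ℂ) => (pol f ω.2).eval ω.1 := by
  have h1 : Continuous fun ω : ℂ × (Fin n → ℂ) => (Fin.cons ω.1 ω.2 : Fin (n + 1) → ℂ) := by
    refine continuous_pi fun i => ?_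
    refine Fin.cases ?_ (fun i => ?_) i
    · simpa using continuous_fst
    · simp only [Fin.cons_succ]
      exact (continuous_apply i).comp continuous_snd
  have h2 := ((Lct.continuous_evalP f).comp h1).measurable
  have e : (fun ω : ℂ × (Fin n → ℂ) => (pol f ω.2).eval ω.1) =
      (fun x => eval x f) ∘ fun ω : ℂ × (Fin n → ℂ) => (Fin.cons ω.1 ω.2 : Fin (n + 1) → ℂ) := by
    funext ω
    exact (eval_cons f ω.1 ω.2).symm
  rw [e]
  exact h2

theorem HInt.lintegral_lt_top (hH : HInt f d k) (h : Dat f d k m) {R : ℝ} (hR : 0 < R) :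
    ∫⁻ x in Metric.closedBall (0 : Fin n → ℂ) R \ Metric.closedBall 0 (R / 2),
      ‖eval x (qf f)‖ₑ ^ (-(2 * aa n d k)) < ⊤ := by
  set K : Set (Fin n → ℂ) := Metric.closedBall 0 R \ Metric.ball 0 (R / 2) with hK
  have hKc : IsCompact K := (isCompact_closedBall _ _).diff Metric.isOpen_ball
  have hK0 : (0 : Fin n → ℂ) ∉ K := fun h0 => h0.2 (Metric.mem_ball_self (by positivity))
  have h1 := (hH K hKc hK0).2
  unfold HasFiniteIntegral at h1
  refine lt_of_le_of_lt ?_ h1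
  refine (lintegral_mono_set (Set.sdiff_subset_sdiff_right Metric.ball_subset_closedBall)).trans
    (le_of_eq ?_)
  refine lintegral_congr_ae ?_
  filter_upwards [ae_restrict_of_ae (ae_eval_ne_zero h.qf_ne_zero)] with x hx
  rw [enorm_rpow_eq hx, Real.enorm_of_nonneg (by positivity)]

/-- The function of `x`. -/
def Hx (f : MvPolynomial (Fin (n + 1)) ℂ) (m : ℕ) (t β : ℝ) (x : Fin n → ℂ) : ℝ≥0∞ :=
  ‖x‖ₑ ^ ((m + 1) * β) * ‖eval x (qf f)‖ₑ ^ (-(2 * t + β))

theorem measurable_Hx (f : MvPolynomial (Fin (n + 1)) ℂ) (m : ℕ) (t β : ℝ) :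
    Measurable (Hx f m t β) :=
  (measurable_enorm.pow_const _).mul ((measurable_qf f).enorm.pow_const _)

theorem Dat.lintegral_Hx_lt_top (h : Dat f d k m) (hH : HInt f d k) {t : ℝ}
    (htc : t < cc n d) {R : ℝ} (hR : 0 < R) :
    ∫⁻ x in Metric.closedBall 0 R, Hx f m t (2 * aa n d k - 2 * t) x < ⊤ := by
  set a := aa n d k with ha
  set β := 2 * a - 2 * t with hβ
  have hβ0 : 0 < β := by
    have := h.cc_lt_aa
    rw [hβ]
    linarith
  have e1 : 2 * t + β = 2 * a := by rw [hβ]; ring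
  unfold Hx
  rw [e1]
  have hm : (0 : ℝ) ≤ m := Nat.cast_nonneg m
  set θ : ℝ := (2 : ℝ) ^ (2 * a * m - (m + 1) * β) with hθ
  refine lintegral_closedBall_lt_top h.n_pos (θ := θ) ?_ (by positivity) ?_ hR ?_
  · have h2 : (2 : ℝ) ^ (2 * n) = (2 : ℝ) ^ ((2 * n : ℕ) : ℝ) := by rw [Real.rpow_natCast]
    rw [h2, hθ]
    apply Real.rpow_lt_rpow_of_exponent_lt (by norm_num)
    have h3 := h.cc_split
    have h4 : t * (m + 1) < cc n d * (m + 1) := by nlinarith
    have h5 : a = 1 - cc n d * (k - 1) := rfl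
    push_cast
    rw [hβ]
    nlinarith
  · intro x
    have e2 : ((1 / 2 : ℝ)) • x = ((1 / 2 : ℂ)) • x := by
      funext i
      simp
    have e3 : ‖((1 / 2 : ℝ)) • x‖ₑ = ENNReal.ofReal (1 / 2) * ‖x‖ₑ := by
      rw [enorm_smul, Real.enorm_of_nonneg (by norm_num)]
    have e4 : ‖eval ((1 / 2 : ℝ) • x) (qf f)‖ₑ =
        ENNReal.ofReal ((1 / 2) ^ m) * ‖eval x (qf f)‖ₑ := by
      rw [e2, eval_smul_of_homog h.qf_hom, enorm_mul, enorm_pow]
      congr 1
      rw [ENNReal.ofReal_pow (by norm_num)]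
      congr 1
      rw [← ofReal_norm]
      norm_num
    rw [e3, e4, ENNReal.mul_rpow_of_ne_top ENNReal.ofReal_ne_top enorm_ne_top,
      ENNReal.mul_rpow_of_ne_top ENNReal.ofReal_ne_top enorm_ne_top,
      ENNReal.ofReal_rpow_of_pos (by norm_num), ENNReal.ofReal_rpow_of_pos (by positivity)]
    apply le_of_eq
    have e5 : θ = (1 / 2 : ℝ) ^ ((m + 1) * β) * ((1 / 2 : ℝ) ^ m) ^ (-(2 * a)) := by
      rw [hθ, ← Real.rpow_natCast, ← Real.rpow_mul (by norm_num), one_div,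
        Real.inv_rpow (by norm_num), Real.inv_rpow (by norm_num), ← Real.rpow_neg (by norm_num),
        ← Real.rpow_neg (by norm_num), ← Real.rpow_add (by norm_num)]
      congr 1
      ring
    rw [e5, ENNReal.ofReal_mul (by positivity)]
    ring
  · have hlt := hH.lintegral_lt_top h hR
    have h1 : ∀ x ∈ Metric.closedBall (0 : Fin n → ℂ) R \ Metric.closedBall 0 (R / 2),
        ‖x‖ₑ ^ ((m + 1) * β) * ‖eval x (qf f)‖ₑ ^ (-(2 * a)) ≤
          (ENNReal.ofReal R) ^ ((m + 1) * β) * ‖eval x (qf f)‖ₑ ^ (-(2 * a)) := by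
      intro x hx
      have h2 : ‖x‖ₑ ≤ ENNReal.ofReal R := by
        rw [← ofReal_norm]
        exact ENNReal.ofReal_le_ofReal (mem_closedBall_zero_iff.1 hx.1)
      gcongr
    have h3 : (ENNReal.ofReal R) ^ ((m + 1) * β) ≠ ⊤ :=
      ENNReal.rpow_ne_top_of_nonneg (by positivity) ENNReal.ofReal_ne_top
    refine lt_of_le_of_lt (setLIntegral_mono' ?_ h1) ?_
    · exact Metric.isClosed_closedBall.measurableSet.diff Metric.isClosed_closedBall.measurableSet
    · rw [lintegral_const_mul' _ _ h3]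
      exact ENNReal.mul_lt_top (lt_top_iff_ne_top.2 h3) hlt

/-- The cut-off weight in `y`. -/
def vv' (β : ℝ) (r : ℝ) : ℝ≥0∞ := if r ≤ 2 then ENNReal.ofReal r ^ (-β) else 0

theorem antitone_vv' {β : ℝ} (hβ : 0 ≤ β) : Antitone (vv' β) := by
  intro r s hrs
  unfold vv'
  by_cases hs : s ≤ 2
  · rw [if_pos hs, if_pos (hrs.trans hs), ENNReal.rpow_neg, ENNReal.rpow_neg]
    apply ENNReal.inv_le_inv.2
    exact ENNReal.rpow_le_rpow (ENNReal.ofReal_le_ofReal hrs) hβ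
  · rw [if_neg hs]
    exact zero_le

theorem vv'_norm (β : ℝ) (y : ℂ) : vv' β ‖y‖ =
    (Metric.closedBall (0 : ℂ) 2).indicator (fun y => ‖y‖ₑ ^ (-β)) y := by
  unfold vv'
  by_cases hy : ‖y‖ ≤ 2
  · rw [if_pos hy, Set.indicator_of_mem (mem_closedBall_zero_iff.2 hy), ofReal_norm]
  · rw [if_neg hy, Set.indicator_of_notMem fun h => hy (mem_closedBall_zero_iff.1 h)]

/-- The dominating function in the fibre. -/
def bdE (f : MvPolynomial (Fin (n + 1)) ℂ) (k : ℕ) (t : ℝ) (ω : ℂ × (Fin n → ℂ)) : ℝ≥0∞ :=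
  ‖(pol f ω.2).eval ω.1‖ₑ ^ (-(2 * t)) + ‖(pol f ω.2).eval (-ω.1)‖ₑ ^ (-(2 * t)) +
    ‖ω.1 ^ k * eval ω.2 (qf f)‖ₑ ^ (-(2 * t))

theorem measurable_bdE (f : MvPolynomial (Fin (n + 1)) ℂ) (k : ℕ) (t : ℝ) :
    Measurable (bdE f k t) := by
  have h1 := measurable_pol f
  have h2 : Measurable fun ω : ℂ × (Fin n → ℂ) => (pol f ω.2).eval (-ω.1) :=
    h1.comp (measurable_fst.neg.prodMk measurable_snd)
  have h3 : Measurable fun ω : ℂ × (Fin n → ℂ) => ω.1 ^ k * eval ω.2 (qf f) :=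
    (measurable_fst.pow_const k).mul ((measurable_qf f).comp measurable_snd)
  exact ((h1.enorm.pow_const _).add (h2.enorm.pow_const _)).add (h3.enorm.pow_const _)

theorem Dat.fibre_bound (h : Dat f d k m) {t β : ℝ} (ht : 0 < t) (hβ : 0 ≤ β) {x : Fin n → ℂ}
    (hx : eval x (qf f) ≠ 0) :
    ∫⁻ y : ℂ, bdE f k t (y, x) * vv' β ‖y‖ ≤
      3 * (‖eval x (qf f)‖ₑ ^ (-(2 * t)) * ∫⁻ y : ℂ, ‖y‖ₑ ^ (-(2 * (k * t))) * vv' β ‖y‖) := by
  have hk : 0 < k := by have := h.hk; omega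
  have h1 := lintegral_poly_le hk (h.natDegree_pol hx) ht (antitone_vv' hβ)
  rw [h.leadingCoeff_pol hx] at h1
  have h2 : ∫⁻ y : ℂ, ‖(pol f x).eval (-y)‖ₑ ^ (-(2 * t)) * vv' β ‖y‖ =
      ∫⁻ y : ℂ, ‖(pol f x).eval y‖ₑ ^ (-(2 * t)) * vv' β ‖y‖ := by
    have := (Measure.measurePreserving_neg (volume : Measure ℂ)).lintegral_comp_emb
      (MeasurableEquiv.neg ℂ).measurableEmbedding
      (fun y => ‖(pol f x).eval y‖ₑ ^ (-(2 * t)) * vv' β ‖y‖)
    simpa [norm_neg] using this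
  have h3 : ∀ y : ℂ, ‖y ^ k * eval x (qf f)‖ₑ ^ (-(2 * t)) * vv' β ‖y‖ =
      ‖eval x (qf f)‖ₑ ^ (-(2 * t)) * (‖y‖ₑ ^ (-(2 * (k * t))) * vv' β ‖y‖) := by
    intro y
    rw [enorm_mul_rpow, enorm_pow, ← ENNReal.rpow_natCast, ← ENNReal.rpow_mul]
    have e : (k : ℝ) * -(2 * t) = -(2 * (k * t)) := by ring
    rw [e]
    ring
  have hm1 : Measurable fun y : ℂ => ‖(pol f x).eval y‖ₑ ^ (-(2 * t)) * vv' β ‖y‖ :=
    ((pol f x).continuous.measurable.enorm.pow_const _).mul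
      ((antitone_vv' hβ).measurable.comp measurable_norm)
  have hm2 : Measurable fun y : ℂ => ‖(pol f x).eval (-y)‖ₑ ^ (-(2 * t)) * vv' β ‖y‖ :=
    (((pol f x).continuous.comp continuous_neg).measurable.enorm.pow_const _).mul
      ((antitone_vv' hβ).measurable.comp measurable_norm)
  unfold bdE
  simp only [add_mul]
  rw [lintegral_add_left (hm1.fun_add hm2), lintegral_add_left hm1, h2, lintegral_congr h3,
    lintegral_const_mul' _ _ (enorm_rpow_ne_top hx _)]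
  calc _ ≤ ‖eval x (qf f)‖ₑ ^ (-(2 * t)) * (∫⁻ y : ℂ, ‖y‖ₑ ^ (-(2 * (k * t))) * vv' β ‖y‖) +
      ‖eval x (qf f)‖ₑ ^ (-(2 * t)) * (∫⁻ y : ℂ, ‖y‖ₑ ^ (-(2 * (k * t))) * vv' β ‖y‖) +
      ‖eval x (qf f)‖ₑ ^ (-(2 * t)) * (∫⁻ y : ℂ, ‖y‖ₑ ^ (-(2 * (k * t))) * vv' β ‖y‖) := by
        gcongr
    _ = _ := by ring

theorem lintegral_y_lt_top {p β : ℝ} (h : p + β < 2) :
    ∫⁻ y : ℂ, ‖y‖ₑ ^ (-p) * vv' β ‖y‖ < ⊤ := by
  have h1 := lintegral_ball_rpow_lt_top h 2
  refine lt_of_le_of_lt (le_of_eq ?_) h1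
  rw [← lintegral_indicator Metric.isClosed_closedBall.measurableSet]
  refine lintegral_congr_ae ?_
  have h2 : ∀ᵐ y : ℂ, y ≠ 0 := by
    rw [ae_iff]
    simp
  filter_upwards [h2] with y hy
  rw [vv'_norm]
  by_cases hy2 : y ∈ Metric.closedBall (0 : ℂ) 2
  · rw [Set.indicator_of_mem hy2, Set.indicator_of_mem hy2, ← ENNReal.rpow_add]
    · congr 1
      ring
    · rwa [ne_eq, enorm_eq_zero]
    · exact enorm_ne_top
  · rw [Set.indicator_of_notMem hy2, Set.indicator_of_notMem hy2, mul_zero]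

/-- The dominating function. -/
def BD (f : MvPolynomial (Fin (n + 1)) ℂ) (k m : ℕ) (t β : ℝ) (ω : ℂ × (Fin n → ℂ)) : ℝ≥0∞ :=
  (bdE f k t ω * vv' β ‖ω.1‖) * ((Metric.closedBall (0 : Fin n → ℂ) 2).indicator
    (fun x => ‖x‖ₑ ^ ((m + 1) * β) * ‖eval x (qf f)‖ₑ ^ (-β)) ω.2)

theorem measurable_BD (f : MvPolynomial (Fin (n + 1)) ℂ) (k m : ℕ) (t : ℝ) {β : ℝ} (hβ : 0 ≤ β) :
    Measurable (BD f k m t β) := by
  refine ((measurable_bdE f k t).mul ?_).mul ?_
  · exact (antitone_vv' hβ).measurable.comp (measurable_norm.comp measurable_fst)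
  · exact (((measurable_enorm.pow_const _).mul ((measurable_qf f).enorm.pow_const _)).indicator
      Metric.isClosed_closedBall.measurableSet).comp measurable_snd

theorem Dat.lintegral_BD_lt_top (h : Dat f d k m) (hH : HInt f d k) {t : ℝ} (ht0 : 0 < t)
    (htc : t < cc n d) :
    ∫⁻ ω, BD f k m t (2 * aa n d k - 2 * t) ω < ⊤ := by
  set β := 2 * aa n d k - 2 * t with hβ
  have hβ0 : 0 < β := by
    have := h.cc_lt_aa
    rw [hβ]
    linarith
  rw [Measure.volume_eq_prod, lintegral_prod_symm' _ (measurable_BD f k m t hβ0.le)]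
  set I := ∫⁻ y : ℂ, ‖y‖ₑ ^ (-(2 * (k * t))) * vv' β ‖y‖ with hI
  have hIlt : I < ⊤ := by
    refine lintegral_y_lt_top ?_
    have h2 := h.two_le_k
    have h4 : aa n d k = 1 - cc n d * (k - 1) := rfl
    rw [hβ, h4]
    nlinarith
  have h1 : ∀ᵐ x : Fin n → ℂ, ∫⁻ y : ℂ, BD f k m t β (y, x) ≤
      (3 * I) * (Metric.closedBall (0 : Fin n → ℂ) 2).indicator (Hx f m t β) x := by
    filter_upwards [ae_eval_ne_zero h.qf_ne_zero] with x hx
    unfold BD
    simp only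
    by_cases hx2 : x ∈ Metric.closedBall (0 : Fin n → ℂ) 2
    · rw [Set.indicator_of_mem hx2, Set.indicator_of_mem hx2, lintegral_mul_const' _ _ ?_]
      · calc _ ≤ (3 * (‖eval x (qf f)‖ₑ ^ (-(2 * t)) * I)) *
              (‖x‖ₑ ^ ((m + 1) * β) * ‖eval x (qf f)‖ₑ ^ (-β)) := by
                gcongr
                exact h.fibre_bound ht0 hβ0.le hx
          _ = _ := by
            unfold Hx
            have e : -(2 * t + β) = -(2 * t) + -β := by ring
            rw [e, ENNReal.rpow_add _ _ (by rwa [ne_eq, enorm_eq_zero]) enorm_ne_top]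
            ring
      · refine ENNReal.mul_ne_top ?_ (enorm_rpow_ne_top hx _)
        exact ENNReal.rpow_ne_top_of_nonneg (by positivity) enorm_ne_top
    · rw [Set.indicator_of_notMem hx2, Set.indicator_of_notMem hx2]
      simp
  refine lt_of_le_of_lt (lintegral_mono_ae h1) ?_
  rw [lintegral_const_mul' _ _ (ENNReal.mul_ne_top (by norm_num) hIlt.ne),
    lintegral_indicator Metric.isClosed_closedBall.measurableSet]
  refine ENNReal.mul_lt_top (ENNReal.mul_lt_top (by norm_num) hIlt) ?_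
  exact h.lintegral_Hx_lt_top hH htc (by norm_num)

end MPb07157.Alp
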