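import Pool.Agent.Lib.MP_b07157_agY.Ym2
import Pool.Agent.Lib.MP_b07157_agY.Y1
import Pool.Agent.Lib.MP_b07157_agY.Y4

/-!
# The continuation of the difference
-/

noncomputable section

namespace MPb07157.Alp

open MeasureTheory Filter Topology MvPolynomial
open scoped ENNReal

variable {n : ℕ} {f : MvPolynomial (Fin (n + 1)) ℂ} {d k m : ℕ}

/-! ### The cut-offs -/

/-- The cut-off in `y`, as a function of `|y|`. -/
def cut (r : ℝ) : ℝ := Real.smoothTransition (2 - (max r 0) ^ 2)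

theorem antitone_cut : Antitone cut := by
  intro r s hrs
  unfold cut
  apply Real.smoothTransition.monotone
  have h1 : max r 0 ≤ max s 0 := max_le_max_right 0 hrs
  have h2 : 0 ≤ max r 0 := le_max_right _ _
  nlinarith

theorem continuous_cut : Continuous cut :=
  Real.smoothTransition.continuous.comp
    (continuous_const.sub ((continuous_id.max continuous_const).pow 2))

theorem cut_nonneg (r : ℝ) : 0 ≤ cut r := Real.smoothTransition.nonneg _

theorem cut_le_one (r : ℝ) : cut r ≤ 1 := Real.smoothTransition.le_one _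

theorem cut_one {r : ℝ} (hr : r ≤ 1) : cut r = 1 := by
  unfold cut
  apply Real.smoothTransition.one_of_one_le
  have h1 : max r 0 ≤ 1 := max_le hr (by norm_num)
  have h2 : 0 ≤ max r 0 := le_max_right _ _
  nlinarith

theorem cut_zero {r : ℝ} (hr : 2 ≤ r) : cut r = 0 := by
  unfold cut
  apply Real.smoothTransition.zero_of_nonpos
  have h1 : 2 ≤ max r 0 := le_max_of_le_left hr
  nlinarith

theorem cut_norm (y : ℂ) : cut ‖y‖ = Real.smoothTransition (2 - ‖y‖ ^ 2) := by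
  unfold cut
  rw [max_eq_left (norm_nonneg y)]

/-- The cut-off in `x`. -/
def psi (n : ℕ) : ContDiffBump (0 : Fin n → ℂ) := ⟨1, 2, one_pos, one_lt_two⟩

theorem psi_zero {x : Fin n → ℂ} (hx : 2 ≤ ‖x‖) : psi n x = 0 := by
  apply (psi n).zero_of_le_dist
  rwa [dist_zero_right]

theorem psi_one {x : Fin n → ℂ} (hx : ‖x‖ ≤ 1) : psi n x = 1 := by
  apply (psi n).one_of_mem_closedBall
  rwa [mem_closedBall_zero_iff]

/-- The weight. -/
def hh (n : ℕ) (ω : ℂ × (Fin n → ℂ)) : ℂ := ((cut ‖ω.1‖ : ℝ) : ℂ) * ((psi n ω.2 : ℝ) : ℂ)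

theorem continuous_hh (n : ℕ) : Continuous (hh n) :=
  (Complex.continuous_ofReal.comp (continuous_cut.comp (continuous_norm.comp continuous_fst))).mul
    (Complex.continuous_ofReal.comp ((psi n).continuous.comp continuous_snd))

theorem norm_hh_le (ω : ℂ × (Fin n → ℂ)) : ‖hh n ω‖ ≤ 1 := by
  unfold hh
  rw [norm_mul, Complex.norm_real, Complex.norm_real, Real.norm_eq_abs, Real.norm_eq_abs,
    abs_of_nonneg (cut_nonneg _), abs_of_nonneg (psi n).nonneg]
  exact mul_le_one₀ (cut_le_one _) (psi n).nonneg (psi n).le_one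

theorem hh_zero_left {ω : ℂ × (Fin n → ℂ)} (h : 2 ≤ ‖ω.1‖) : hh n ω = 0 := by
  unfold hh
  rw [cut_zero h]
  simp

theorem hh_zero_right {ω : ℂ × (Fin n → ℂ)} (h : 2 ≤ ‖ω.2‖) : hh n ω = 0 := by
  unfold hh
  rw [psi_zero h]
  simp

/-! ### The difference -/

/-- `log |u|²`. -/
def L2 (u : ℂ) : ℝ := Real.log (Complex.normSq u)

theorem measurable_L2 : Measurable L2 :=
  Real.measurable_log.comp Complex.continuous_normSq.measurable

theorem L2_mul {u v : ℂ} (hu : u ≠ 0) (hv : v ≠ 0) : L2 (u * v) = L2 u + L2 v := by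
  unfold L2
  rw [map_mul, Real.log_mul (by rwa [ne_eq, Complex.normSq_eq_zero])
    (by rwa [ne_eq, Complex.normSq_eq_zero])]

theorem L2_pow_neg (y : ℂ) (k : ℕ) : L2 ((-y) ^ k) = L2 (y ^ k) := by
  unfold L2
  rw [map_pow, map_pow, Complex.normSq_neg]

theorem exp_L2 {u : ℂ} (hu : u ≠ 0) (t : ℝ) : Real.exp (t * L2 u) = ‖u‖ ^ (2 * t) := by
  unfold L2
  rw [Complex.normSq_eq_norm_sq, Real.log_pow, Real.rpow_def_of_pos (norm_pos_iff.2 hu)]
  congr 1
  push_cast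
  ring

/-- The symmetrized difference. -/
def GG (f : MvPolynomial (Fin (n + 1)) ℂ) (k : ℕ) (z : ℂ) (ω : ℂ × (Fin n → ℂ)) : ℂ :=
  (1 / 2) * (Complex.exp (z * (L2 ((pol f ω.2).eval ω.1) : ℝ)) +
    Complex.exp (z * (L2 ((pol f ω.2).eval (-ω.1)) : ℝ))) -
    Complex.exp (z * (L2 (ω.1 ^ k * eval ω.2 (qf f)) : ℝ))

/-- The good points. -/
def good (f : MvPolynomial (Fin (n + 1)) ℂ) (ω : ℂ × (Fin n → ℂ)) : Prop :=
  ω.1 ≠ 0 ∧ eval ω.2 (qf f) ≠ 0 ∧ (pol f ω.2).eval ω.1 ≠ 0 ∧ (pol f ω.2).eval (-ω.1) ≠ 0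

theorem norm_cexp_L2 (z u : ℂ) : ‖Complex.exp (z * (L2 u : ℝ))‖ = Real.exp (z.re * L2 u) := by
  rw [Complex.norm_exp]
  simp

theorem exp_le_of_bound {L B t r Z : ℝ} (hL : L ≤ B) (hB : 0 ≤ B) (h1 : -t ≤ r) (h2 : r ≤ Z) :
    Real.exp (r * L) ≤ Real.exp ((Z + t) * B) * Real.exp (-t * L) := by
  rw [← Real.exp_add]
  apply Real.exp_le_exp.2
  nlinarith [mul_le_mul_of_nonneg_left hL (show 0 ≤ r + t by linarith),
    mul_le_mul_of_nonneg_right h2 hB]

theorem toReal_BD {t β C : ℝ} (hC : 0 < C)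
    {ω : ℂ × (Fin n → ℂ)} (hg : good f ω)
    (h1 : ‖ω.1‖ ≤ 2) (h2 : ‖ω.2‖ ≤ 2) : (BD f k m t β ω).toReal * C ^ β =
      kap f m C ω.1 ω.2 ^ β * (Real.exp (-t * L2 ((pol f ω.2).eval ω.1)) +
        Real.exp (-t * L2 ((pol f ω.2).eval (-ω.1))) +
        Real.exp (-t * L2 (ω.1 ^ k * eval ω.2 (qf f)))) := by
  obtain ⟨g1, g2, g3, g4⟩ := hg
  have g5 : ω.1 ^ k * eval ω.2 (qf f) ≠ 0 := mul_ne_zero (pow_ne_zero _ g1) g2
  have e1 : vv' β ‖ω.1‖ = ‖ω.1‖ₑ ^ (-β) := by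
    unfold vv'
    rw [if_pos h1, ofReal_norm]
  unfold BD bdE
  rw [e1, Set.indicator_of_mem (mem_closedBall_zero_iff.2 h2), ENNReal.toReal_mul,
    ENNReal.toReal_mul, ENNReal.toReal_mul, ENNReal.toReal_add, ENNReal.toReal_add]
  · simp only [← ENNReal.toReal_rpow, toReal_enorm]
    rw [exp_L2 g3, exp_L2 g4, exp_L2 g5]
    unfold kap
    have hq := norm_pos_iff.2 g2
    have hy := norm_pos_iff.2 g1
    rw [Real.div_rpow (by positivity) (by positivity), Real.mul_rpow hC.le (by positivity),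
      Real.mul_rpow hq.le hy.le, Real.rpow_neg hy.le, Real.rpow_neg hq.le, ← Real.rpow_natCast ‖ω.2‖,
      ← Real.rpow_mul (norm_nonneg _)]
    have e2 : -(2 * t) = 2 * -t := by ring
    rw [e2]
    push_cast
    have hq' : 0 < ‖eval ω.2 (qf f)‖ ^ β := Real.rpow_pos_of_pos hq _
    have hy' : 0 < ‖ω.1‖ ^ β := Real.rpow_pos_of_pos hy _
    field_simp
  · exact enorm_rpow_ne_top g3 _
  · exact enorm_rpow_ne_top g4 _
  · exact ENNReal.add_ne_top.2 ⟨enorm_rpow_ne_top g3 _, enorm_rpow_ne_top g4 _⟩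
  · exact enorm_rpow_ne_top g5 _

theorem L2_le {u : ℂ} {D : ℝ} (hu : ‖u‖ ≤ D) : L2 u ≤ 2 * D := by
  unfold L2
  rw [Complex.normSq_eq_norm_sq, Real.log_pow]
  have h1 := Real.log_le_self (norm_nonneg u)
  push_cast
  linarith

/-- Bounds for the polynomials on the compact set. -/
theorem Dat.exists_B (h : Dat f d k m) : ∃ B : ℝ, 0 ≤ B ∧ ∀ ω : ℂ × (Fin n → ℂ), ‖ω.1‖ ≤ 2 →
    ‖ω.2‖ ≤ 2 → L2 ((pol f ω.2).eval ω.1) ≤ B ∧ L2 ((pol f ω.2).eval (-ω.1)) ≤ B ∧
      L2 (ω.1 ^ k * eval ω.2 (qf f)) ≤ B ∧ L2 (eval ω.2 (qf f)) ≤ B := by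
  obtain ⟨C₂, hC₂0, hC₂⟩ := norm_eval_le_of_homog h.hom
  obtain ⟨C₃, hC₃0, hC₃⟩ := norm_eval_le_of_homog h.qf_hom
  have hcons : ∀ (y : ℂ) (x : Fin n → ℂ), ‖y‖ ≤ 2 → ‖x‖ ≤ 2 →
      ‖(Fin.cons y x : Fin (n + 1) → ℂ)‖ ≤ 2 := by
    intro y x hy hx
    rw [pi_norm_le_iff_of_nonneg (by norm_num)]
    intro i
    refine Fin.cases ?_ (fun i => ?_) i
    · simpa using hy
    · simpa using (norm_le_pi_norm x i).trans hx
  have hpol : ∀ (y : ℂ) (x : Fin n → ℂ), ‖y‖ ≤ 2 → ‖x‖ ≤ 2 →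
      ‖(pol f x).eval y‖ ≤ C₂ * 2 ^ d := by
    intro y x hy hx
    rw [← eval_cons]
    refine (hC₂ _).trans ?_
    have := hcons y x hy hx
    gcongr
  refine ⟨2 * (C₂ * 2 ^ d) + 2 * (2 ^ k * (C₃ * 2 ^ m)) + 2 * (C₃ * 2 ^ m), by positivity,
    fun ω h1 h2 => ?_⟩
  have b1 := L2_le (hpol ω.1 ω.2 h1 h2)
  have b2 := L2_le (hpol (-ω.1) ω.2 (by rwa [norm_neg]) h2)
  have b5 : ‖eval ω.2 (qf f)‖ ≤ C₃ * 2 ^ m := by
    have := hC₃ ω.2
    calc ‖eval ω.2 (qf f)‖ ≤ C₃ * ‖ω.2‖ ^ m := this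
      _ ≤ _ := by gcongr
  have b3 : ‖ω.1 ^ k * eval ω.2 (qf f)‖ ≤ 2 ^ k * (C₃ * 2 ^ m) := by
    rw [norm_mul, norm_pow]
    gcongr
  have b4 := L2_le b3
  have b6 := L2_le b5
  have p1 : 0 ≤ C₂ * 2 ^ d := by positivity
  have p2 : 0 ≤ 2 ^ k * (C₃ * 2 ^ m) := by positivity
  have p3 : 0 ≤ C₃ * 2 ^ m := by positivity
  exact ⟨by linarith, by linarith, by linarith, by linarith⟩

/-- The pointwise estimate. -/
theorem Dat.norm_GG_le (h : Dat f d k m) {t β Z : ℝ} (hβ0 : 0 < β) (hβ2 : β ≤ 2) :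
    ∃ A : ℝ, 0 ≤ A ∧ ∀ (z : ℂ) (ω : ℂ × (Fin n → ℂ)), -t ≤ z.re → ‖z‖ ≤ Z → good f ω →
      ‖ω.1‖ ≤ 2 → ‖ω.2‖ ≤ 2 → ‖GG f k z ω‖ ≤ A * (BD f k m t β ω).toReal := by
  obtain ⟨C, hC0, hC⟩ := h.exists_const
  obtain ⟨C₁, hC₁0, hC₁⟩ := sym_bound Z
  obtain ⟨B, hB0, hB⟩ := h.exists_B
  set E := Real.exp ((Z + t) * B) with hE
  have hEpos : 0 < E := Real.exp_pos _
  refine ⟨(C₁ * E + 4 ^ β * E) * C ^ β, by positivity, ?_⟩
  intro z ω hz1 hz2 hg h1 h2
  obtain ⟨hb1, hb2, hb3, -⟩ := hB ω h1 h2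
  have hT := toReal_BD (k := k) (m := m) (t := t) (β := β) hC0 hg h1 h2
  have hreZ : z.re ≤ Z := (Complex.re_le_norm z).trans hz2
  obtain ⟨g1, g2, g3, g4⟩ := hg
  have x1 := exp_le_of_bound hb1 hB0 hz1 hreZ
  have x2 := exp_le_of_bound hb2 hB0 hz1 hreZ
  have x3 := exp_le_of_bound hb3 hB0 hz1 hreZ
  rw [← hE] at x1 x2 x3
  set κ := kap f m C ω.1 ω.2 with hκ
  have hκ0 : 0 ≤ κ := by
    rw [hκ]
    unfold kap
    positivity
  set T1 := Real.exp (-t * L2 ((pol f ω.2).eval ω.1))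
  set T2 := Real.exp (-t * L2 ((pol f ω.2).eval (-ω.1)))
  set T3 := Real.exp (-t * L2 (ω.1 ^ k * eval ω.2 (qf f)))
  have hT1 : 0 < T1 := Real.exp_pos _
  have hT2 : 0 < T2 := Real.exp_pos _
  have hT3 : 0 < T3 := Real.exp_pos _
  have hgoal : ‖GG f k z ω‖ ≤ (C₁ * E + 4 ^ β * E) * (κ ^ β * (T1 + T2 + T3)) := by
    have hκβ : 0 ≤ κ ^ β := Real.rpow_nonneg hκ0 _
    rcases le_or_gt κ (1 / 4) with hsmall | hbig
    · obtain ⟨u, u', e1, e2, e3, e4, e5⟩ := h.exists_hh hC0 hC g2 g1 hsmall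
      have n1 : ω.1 ^ k * eval ω.2 (qf f) ≠ 0 := mul_ne_zero (pow_ne_zero _ g1) g2
      have n2 : (-ω.1) ^ k * eval ω.2 (qf f) ≠ 0 :=
        mul_ne_zero (pow_ne_zero _ (neg_ne_zero.2 g1)) g2
      have n3 : 1 + u ≠ 0 := fun h0 => g3 (by rw [e1, h0, mul_zero])
      have n4 : 1 + u' ≠ 0 := fun h0 => g4 (by rw [e2, h0, mul_zero])
      have l1 : L2 ((pol f ω.2).eval ω.1) = L2 (ω.1 ^ k * eval ω.2 (qf f)) + L2 (1 + u) := by
        rw [e1, L2_mul n1 n3]
      have l2 : L2 ((pol f ω.2).eval (-ω.1)) = L2 (ω.1 ^ k * eval ω.2 (qf f)) + L2 (1 + u') := by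
        rw [e2, L2_mul n2 n4, L2_mul (pow_ne_zero _ (neg_ne_zero.2 g1)) g2,
          L2_mul (pow_ne_zero _ g1) g2, L2_pow_neg]
      have e6 : GG f k z ω = Complex.exp (z * (L2 (ω.1 ^ k * eval ω.2 (qf f)) : ℝ)) *
          ((1 / 2) * (Complex.exp (z * (Real.log (Complex.normSq (1 + u)) : ℝ)) +
            Complex.exp (z * (Real.log (Complex.normSq (1 + u')) : ℝ))) - 1) := by
        unfold GG
        rw [l1, l2]
        unfold L2
        push_cast
        simp only [mul_add, Complex.exp_add]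
        ring
      have hs := hC₁ z u u' κ hz2 hκ0 hsmall e3 e4 e5
      have hκ2 : κ ^ 2 ≤ κ ^ β := by
        rw [← Real.rpow_two]
        exact Real.rpow_le_rpow_of_exponent_ge' hκ0 (by linarith) hβ0.le hβ2
      rw [e6, norm_mul, norm_cexp_L2]
      calc _ ≤ (E * T3) * (C₁ * κ ^ 2) := mul_le_mul x3 hs (norm_nonneg _) (by positivity)
        _ ≤ (E * T3) * (C₁ * κ ^ β) := by gcongr
        _ ≤ _ := by
          have p1 : 0 ≤ 4 ^ β * E * (κ ^ β * (T1 + T2 + T3)) := by positivity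
          have p2 : 0 ≤ C₁ * E * (κ ^ β * (T1 + T2)) := by positivity
          nlinarith
    · have hone : 1 ≤ 4 ^ β * κ ^ β := by
        rw [← Real.mul_rpow (by norm_num) hκ0]
        exact Real.one_le_rpow (by linarith) hβ0.le
      have hn : ‖GG f k z ω‖ ≤ E * (T1 + T2 + T3) := by
        unfold GG
        refine (norm_sub_le _ _).trans ?_
        rw [norm_mul, norm_cexp_L2]
        have s1 := norm_add_le (Complex.exp (z * (L2 ((pol f ω.2).eval ω.1) : ℝ)))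
          (Complex.exp (z * (L2 ((pol f ω.2).eval (-ω.1)) : ℝ)))
        rw [norm_cexp_L2, norm_cexp_L2] at s1
        have s2 : ‖(1 / 2 : ℂ)‖ = 1 / 2 := by norm_num
        rw [s2]
        have p1 := Real.exp_pos (z.re * L2 ((pol f ω.2).eval ω.1))
        have p2 := Real.exp_pos (z.re * L2 ((pol f ω.2).eval (-ω.1)))
        nlinarith
      calc _ ≤ 1 * (E * (T1 + T2 + T3)) := by rw [one_mul]; exact hn
        _ ≤ (4 ^ β * κ ^ β) * (E * (T1 + T2 + T3)) := by gcongr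
        _ ≤ _ := by
          have p1 : 0 ≤ C₁ * E * (κ ^ β * (T1 + T2 + T3)) := by positivity
          nlinarith
  rw [← hT] at hgoal
  calc _ ≤ _ := hgoal
    _ = _ := by ring

theorem Dat.ae_good (h : Dat f d k m) : ∀ᵐ ω : ℂ × (Fin n → ℂ), good f ω := by
  have hmeas : MeasurableSet {ω : ℂ × (Fin n → ℂ) | good f ω} := by
    have h1 := measurable_pol f
    have h2 : Measurable fun ω : ℂ × (Fin n → ℂ) => (pol f ω.2).eval (-ω.1) :=
      h1.comp (measurable_fst.neg.prodMk measurable_snd)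
    have h3 : Measurable fun ω : ℂ × (Fin n → ℂ) => eval ω.2 (qf f) :=
      (measurable_qf f).comp measurable_snd
    have s : ∀ g : ℂ × (Fin n → ℂ) → ℂ, Measurable g → MeasurableSet {ω | g ω ≠ 0} :=
      fun g hg => (hg (measurableSet_singleton 0)).compl
    exact (s _ measurable_fst).inter ((s _ h3).inter ((s _ h1).inter (s _ h2)))
  rw [Measure.volume_eq_prod, ← Measure.prod_swap, ae_map_iff measurable_swap.aemeasurable hmeas,
    Measure.ae_prod_iff_ae_ae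
      (show MeasurableSet {p : (Fin n → ℂ) × ℂ | good f p.swap} from measurable_swap hmeas)]
  filter_upwards [ae_eval_ne_zero h.qf_ne_zero] with x hx
  have hp : pol f x ≠ 0 := by
    intro h0
    have h1 := h.natDegree_pol hx
    rw [h0, Polynomial.natDegree_zero] at h1
    have := h.hk
    omega
  have hfin : Set.Finite {y : ℂ | (pol f x).eval y = 0} := by
    have := (pol f x).rootSet_finite ℂ
    refine this.subset fun y hy => ?_
    rw [Polynomial.mem_rootSet]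
    exact ⟨hp, by simpa using hy⟩
  have f1 : ∀ᵐ y : ℂ, (pol f x).eval y ≠ 0 := by
    rw [ae_iff]
    simp only [not_not]
    exact hfin.measure_zero _
  have f2 : ∀ᵐ y : ℂ, (pol f x).eval (-y) ≠ 0 := by
    rw [ae_iff]
    simp only [not_not]
    refine Set.Finite.measure_zero ?_ _
    exact hfin.preimage (neg_injective.injOn)
  have f3 : ∀ᵐ y : ℂ, y ≠ 0 := by
    rw [ae_iff]
    simp
  filter_upwards [f1, f2, f3] with y h1 h2 h3
  exact ⟨h3, hx, h1, h2⟩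

theorem measurable_GG (f : MvPolynomial (Fin (n + 1)) ℂ) (k : ℕ) (z : ℂ) :
    Measurable (GG f k z) := by
  have h1 := measurable_pol f
  have h2 : Measurable fun ω : ℂ × (Fin n → ℂ) => (pol f ω.2).eval (-ω.1) :=
    h1.comp (measurable_fst.neg.prodMk measurable_snd)
  have h3 : Measurable fun ω : ℂ × (Fin n → ℂ) => ω.1 ^ k * eval ω.2 (qf f) :=
    (measurable_fst.pow_const k).mul ((measurable_qf f).comp measurable_snd)
  have s : ∀ g : ℂ × (Fin n → ℂ) → ℂ, Measurable g →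
      Measurable fun ω => Complex.exp (z * (L2 (g ω) : ℝ)) := fun g hg =>
    Complex.measurable_exp.comp ((Complex.measurable_ofReal.comp (measurable_L2.comp hg)).const_mul z)
  exact (((s _ h1).add (s _ h2)).const_mul _).sub (s _ h3)

/-- The weighted difference. -/
def GH (f : MvPolynomial (Fin (n + 1)) ℂ) (k : ℕ) (z : ℂ) (ω : ℂ × (Fin n → ℂ)) : ℂ :=
  GG f k z ω * hh n ω

theorem measurable_GH (f : MvPolynomial (Fin (n + 1)) ℂ) (k : ℕ) (z : ℂ) :
    Measurable (GH f k z) :=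
  (measurable_GG f k z).mul (continuous_hh n).measurable

/-- Local domination. -/
theorem Dat.dominated (h : Dat f d k m) (hH : HInt f d k) {z₀ : ℂ} (hz₀ : -cc n d < z₀.re) :
    ∃ ε > 0, ∃ bd : ℂ × (Fin n → ℂ) → ℝ, Integrable bd ∧
      ∀ᵐ ω : ℂ × (Fin n → ℂ), ∀ z ∈ Metric.ball z₀ ε, ‖GH f k z ω‖ ≤ bd ω := by
  have hc := h.cc_pos
  set t : ℝ := (cc n d + max (-z₀.re) 0) / 2 with ht
  have hmax : max (-z₀.re) 0 < cc n d := max_lt (by linarith) hc
  have hmax0 : 0 ≤ max (-z₀.re) 0 := le_max_right _ _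
  have ht0 : 0 < t := by rw [ht]; linarith
  have htc : t < cc n d := by rw [ht]; linarith
  have htz : -z₀.re < t := by
    have := le_max_left (-z₀.re) 0
    rw [ht]
    linarith
  set ε : ℝ := t + z₀.re with hε
  have hε0 : 0 < ε := by rw [hε]; linarith
  set β := 2 * aa n d k - 2 * t with hβ
  have hβ0 : 0 < β := by
    have := h.cc_lt_aa
    rw [hβ]
    linarith
  have hβ2 : β ≤ 2 := by
    have := h.aa_lt_one
    rw [hβ]
    linarith
  obtain ⟨A, hA0, hA⟩ := h.norm_GG_le (t := t) (Z := ‖z₀‖ + ε) hβ0 hβ2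
  refine ⟨ε, hε0, fun ω => A * (BD f k m t β ω).toReal, ?_, ?_⟩
  · refine Integrable.const_mul ?_ A
    exact integrable_toReal_of_lintegral_ne_top (measurable_BD f k m t hβ0.le).aemeasurable
      (h.lintegral_BD_lt_top hH ht0 htc).ne
  · filter_upwards [h.ae_good] with ω hω z hz
    rw [Metric.mem_ball, dist_eq_norm] at hz
    have hre : -t ≤ z.re := by
      have h1 := Complex.abs_re_le_norm (z - z₀)
      rw [Complex.sub_re] at h1
      have h2 := (abs_le.1 (h1.trans hz.le)).1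
      rw [hε] at h2
      linarith
    have hZ : ‖z‖ ≤ ‖z₀‖ + ε := by
      have := norm_sub_norm_le z z₀
      linarith
    have hnn : 0 ≤ A * (BD f k m t β ω).toReal := mul_nonneg hA0 ENNReal.toReal_nonneg
    unfold GH
    rcases le_or_gt ‖ω.1‖ 2 with h1 | h1
    · rcases le_or_gt ‖ω.2‖ 2 with h2 | h2
      · rw [norm_mul]
        calc _ ≤ ‖GG f k z ω‖ * 1 := by gcongr; exact norm_hh_le ω
          _ ≤ _ := by rw [mul_one]; exact hA z ω hre hZ hω h1 h2
      · rw [hh_zero_right h2.le, mul_zero, norm_zero]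
        exact hnn
    · rw [hh_zero_left h1.le, mul_zero, norm_zero]
      exact hnn

/-- The continuation of the difference. -/
def MM (f : MvPolynomial (Fin (n + 1)) ℂ) (k : ℕ) (z : ℂ) : ℂ := ∫ ω, GH f k z ω

theorem Dat.differentiableOn_MM (h : Dat f d k m) (hH : HInt f d k) :
    DifferentiableOn ℂ (MM f k) {z | -cc n d < z.re} := by
  refine differentiableOn_integral_of_dominated (F := GH f k)
    (isOpen_lt continuous_const Complex.continuous_re)
    (fun z _ => (measurable_GH f k z).aestronglyMeasurable) (fun ω => ?_)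
    (fun z₀ hz₀ => h.dominated hH hz₀)
  unfold GH GG
  intro z _
  apply DifferentiableAt.differentiableWithinAt
  fun_prop

theorem Dat.integrable_GH (h : Dat f d k m) (hH : HInt f d k) {z : ℂ} (hz : -cc n d < z.re) :
    Integrable (GH f k z) := by
  obtain ⟨ε, hε, bd, hbd, hdom⟩ := h.dominated hH hz
  refine hbd.mono' (measurable_GH f k z).aestronglyMeasurable ?_
  filter_upwards [hdom] with ω hω
  exact hω z (Metric.mem_ball_self hε)

end MPb07157.Alp
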