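import Pool.Agent.Lib.MP_b07157_agY.Ym3

/-!
# The leading term and the functional equation
-/

noncomputable section

namespace MPb07157.Alp

open MeasureTheory Filter Topology MvPolynomial
open scoped ENNReal

variable {n : ℕ} {f : MvPolynomial (Fin (n + 1)) ℂ} {d k m : ℕ}

theorem measurable_cexp_L2 {Ω : Type*} [MeasurableSpace Ω] {g : Ω → ℂ} (hg : Measurable g) (z : ℂ) :
    Measurable fun ω => Complex.exp (z * (L2 (g ω) : ℝ)) :=
  Complex.measurable_exp.comp ((Complex.measurable_ofReal.comp (measurable_L2.comp hg)).const_mul z)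

theorem measurable_rexp_L2 {Ω : Type*} [MeasurableSpace Ω] {g : Ω → ℂ} (hg : Measurable g) (t : ℝ) :
    Measurable fun ω => Real.exp (t * L2 (g ω)) :=
  Real.measurable_exp.comp ((measurable_L2.comp hg).const_mul t)

/-! ### Integrals in the fibre -/

/-- The integral `∫ |p|^{2z} χ`. -/
def LL (p : Polynomial ℂ) (z : ℂ) : ℂ :=
  ∫ y : ℂ, Complex.exp (z * (L2 (p.eval y) : ℝ)) * ((cut ‖y‖ : ℝ) : ℂ)

theorem ae_eval_poly_ne_zero {p : Polynomial ℂ} (hp : p ≠ 0) : ∀ᵐ y : ℂ, p.eval y ≠ 0 := by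
  have hfin : Set.Finite {y : ℂ | p.eval y = 0} := by
    have := p.rootSet_finite ℂ
    refine this.subset fun y hy => ?_
    rw [Polynomial.mem_rootSet]
    exact ⟨hp, by simpa using hy⟩
  rw [ae_iff]
  simp only [not_not]
  exact hfin.measure_zero _

theorem integrable_of_lt {p : Polynomial ℂ} (hk : 0 < k) (hp : p.natDegree = k) {v : ℝ → ℝ}
    (hv : Antitone v) (hv0 : ∀ r, 0 ≤ v r) (hv1 : ∀ r, v r ≤ 1) {R : ℝ}
    (hvR : ∀ r, R ≤ r → v r = 0) {t : ℝ}
    (ht : 0 < t) (hkt : k * t < 1) :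
    Integrable fun y : ℂ => Real.exp (-t * L2 (p.eval y)) * v ‖y‖ := by
  have hp0 : p ≠ 0 := by
    rintro rfl
    rw [Polynomial.natDegree_zero] at hp
    omega
  have hm : Measurable fun y : ℂ => Real.exp (-t * L2 (p.eval y)) * v ‖y‖ :=
    (measurable_rexp_L2 p.continuous.measurable _).mul (hv.measurable.comp measurable_norm)
  refine ⟨hm.aestronglyMeasurable, ?_⟩
  have h1 := lintegral_poly_le hk hp ht (v := fun r => ENNReal.ofReal (v r))
    (fun r s hrs => ENNReal.ofReal_le_ofReal (hv hrs))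
  have h2 : ∫⁻ y : ℂ, ‖y‖ₑ ^ (-(2 * (k * t))) * ENNReal.ofReal (v ‖y‖) < ⊤ := by
    have h3 := lintegral_ball_rpow_lt_top (p := 2 * (k * t)) (by linarith) R
    refine lt_of_le_of_lt ?_ h3
    rw [← lintegral_indicator Metric.isClosed_closedBall.measurableSet]
    refine lintegral_mono fun y => ?_
    rcases le_or_gt ‖y‖ R with h | h
    · rw [Set.indicator_of_mem (mem_closedBall_zero_iff.2 h)]
      calc _ ≤ ‖y‖ₑ ^ (-(2 * (k * t))) * 1 := by
            gcongr
            rw [← ENNReal.ofReal_one]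
            exact ENNReal.ofReal_le_ofReal (hv1 _)
        _ = _ := mul_one _
    · rw [hvR _ h.le, ENNReal.ofReal_zero, mul_zero]
      exact zero_le
  unfold HasFiniteIntegral
  refine lt_of_le_of_lt (le_of_eq ?_) (lt_of_le_of_lt h1 (ENNReal.mul_lt_top ?_ h2))
  · refine lintegral_congr_ae ?_
    filter_upwards [ae_eval_poly_ne_zero hp0] with y hy
    rw [enorm_rpow_eq hy, Real.enorm_of_nonneg (mul_nonneg (Real.exp_pos _).le (hv0 _)), exp_L2 hy,
      ENNReal.ofReal_mul (by positivity)]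
    congr 3
    ring
  · rw [lt_top_iff_ne_top]
    refine enorm_rpow_ne_top ?_ _
    exact Polynomial.leadingCoeff_ne_zero.2 hp0

theorem integrable_LL {p : Polynomial ℂ} (hk : 0 < k) (hp : p.natDegree = k) {t : ℝ}
    (ht : -(1 / k : ℝ) < t) :
    Integrable fun y : ℂ => Real.exp (t * L2 (p.eval y)) * cut ‖y‖ := by
  have hk' : (0 : ℝ) < k := by exact_mod_cast hk
  -- bound on the disc
  obtain ⟨B, hB0, hB⟩ : ∃ B : ℝ, 0 ≤ B ∧ ∀ y : ℂ, ‖y‖ ≤ 2 → L2 (p.eval y) ≤ B := by
    obtain ⟨D, hD⟩ := (isCompact_closedBall (0 : ℂ) 2).exists_bound_of_continuousOn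
      p.continuous.continuousOn
    refine ⟨2 * max D 0, by positivity, fun y hy => L2_le ?_⟩
    exact (hD y (mem_closedBall_zero_iff.2 hy)).trans (le_max_left _ _)
  set s : ℝ := (1 / k + max (-t) 0) / 2 with hs
  have hk'' : (0 : ℝ) < 1 / k := by positivity
  have hmax : max (-t) 0 < 1 / k := max_lt (by linarith) hk''
  have hmax0 : 0 ≤ max (-t) 0 := le_max_right _ _
  have hs0 : 0 < s := by rw [hs]; linarith
  have hsk : k * s < 1 := by
    have h1 : s < 1 / k := by rw [hs]; linarith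
    calc k * s < k * (1 / k) := by gcongr
      _ = 1 := by field_simp
  have hst : -s ≤ t := by
    have := le_max_left (-t) 0
    rw [hs]
    linarith
  have h1 := (integrable_of_lt hk hp antitone_cut cut_nonneg cut_le_one
    (fun r => cut_zero) hs0 hsk).const_mul (Real.exp ((t + s) * B))
  refine h1.mono' ((measurable_rexp_L2 p.continuous.measurable _).mul
    (antitone_cut.measurable.comp measurable_norm)).aestronglyMeasurable ?_
  refine Eventually.of_forall fun y => ?_
  rw [Real.norm_of_nonneg (mul_nonneg (Real.exp_pos _).le (cut_nonneg _))]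
  rcases le_or_gt ‖y‖ 2 with h | h
  · have h2 := exp_le_of_bound (hB y h) hB0 hst le_rfl
    rw [← mul_assoc]
    exact mul_le_mul_of_nonneg_right h2 (cut_nonneg _)
  · rw [cut_zero h.le]
    simp

theorem differentiableOn_LL {p : Polynomial ℂ} (hk : 0 < k) (hp : p.natDegree = k) :
    DifferentiableOn ℂ (LL p) {z | -(1 / k : ℝ) < z.re} := by
  refine Lct.differentiableOn_integral_exp (X := fun y : ℂ => L2 (p.eval y))
    (measurable_L2.comp p.continuous.measurable)
    (Complex.measurable_ofReal.comp (antitone_cut.measurable.comp measurable_norm)).aestronglyMeasurable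
    fun t ht => ?_
  refine (integrable_LL hk hp ht).congr (Eventually.of_forall fun y => ?_)
  simp only [Function.comp_apply]
  rw [Complex.norm_real, Real.norm_of_nonneg (cut_nonneg _)]

/-! ### Integrals over the tangent cone -/

/-- `∫ |q|^{2z} ψ`. -/
def RR (f : MvPolynomial (Fin (n + 1)) ℂ) (z : ℂ) : ℂ :=
  ∫ x : Fin n → ℂ, Complex.exp (z * (L2 (eval x (qf f)) : ℝ)) * ((psi n x : ℝ) : ℂ)

/-- The difference of the cut-offs. -/
def psd (n : ℕ) (x : Fin n → ℂ) : ℝ := psi n x - psi n ((2 : ℝ) • x)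

/-- `∫ |q|^{2z} (ψ(x) - ψ(2x))`. -/
def RD (f : MvPolynomial (Fin (n + 1)) ℂ) (z : ℂ) : ℂ :=
  ∫ x : Fin n → ℂ, Complex.exp (z * (L2 (eval x (qf f)) : ℝ)) * ((psd n x : ℝ) : ℂ)

theorem psd_small {x : Fin n → ℂ} (hx : ‖x‖ ≤ 1 / 2) : psd n x = 0 := by
  unfold psd
  rw [psi_one (by linarith), psi_one, sub_self]
  rw [norm_smul]
  norm_num
  linarith

theorem psd_large {x : Fin n → ℂ} (hx : 2 ≤ ‖x‖) : psd n x = 0 := by
  unfold psd
  rw [psi_zero hx, psi_zero, sub_self]
  rw [norm_smul]
  norm_num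
  linarith

theorem continuous_psd (n : ℕ) : Continuous (psd n) :=
  (psi n).continuous.sub ((psi n).continuous.comp (continuous_const_smul _))

theorem abs_psd_le (x : Fin n → ℂ) : |psd n x| ≤ 1 := by
  unfold psd
  rw [abs_le]
  have h1 : 0 ≤ psi n x := (psi n).nonneg
  have h2 : psi n x ≤ 1 := (psi n).le_one
  have h3 : 0 ≤ psi n ((2 : ℝ) • x) := (psi n).nonneg
  have h4 : psi n ((2 : ℝ) • x) ≤ 1 := (psi n).le_one
  constructor <;> linarith

theorem Dat.integrable_RD (h : Dat f d k m) (hH : HInt f d k) {t : ℝ} (ht : -aa n d k < t) :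
    Integrable fun x : Fin n → ℂ => Real.exp (t * L2 (eval x (qf f))) * ‖((psd n x : ℝ) : ℂ)‖ := by
  obtain ⟨B, hB0, hB⟩ := h.exists_B
  set K : Set (Fin n → ℂ) := Metric.closedBall 0 2 \ Metric.ball 0 (1 / 2) with hK
  have hKc : IsCompact K := (isCompact_closedBall _ _).diff Metric.isOpen_ball
  have hK0 : (0 : Fin n → ℂ) ∉ K := fun h0 => h0.2 (Metric.mem_ball_self (by norm_num))
  have h1 := (integrable_indicator_iff hKc.isClosed.measurableSet).2 (hH K hKc hK0)
  refine (h1.const_mul (Real.exp ((t + aa n d k) * B))).mono'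
    ((measurable_rexp_L2 (measurable_qf f) t).mul
      (Complex.continuous_ofReal.comp (continuous_psd n)).norm.measurable).aestronglyMeasurable ?_
  filter_upwards [ae_eval_ne_zero h.qf_ne_zero] with x hx
  rw [Real.norm_of_nonneg (mul_nonneg (Real.exp_pos _).le (norm_nonneg _)), Complex.norm_real,
    Real.norm_eq_abs]
  by_cases hxK : x ∈ K
  · rw [Set.indicator_of_mem hxK]
    have h2 := exp_le_of_bound (hB (0, x) (by simp) (mem_closedBall_zero_iff.1 hxK.1)).2.2.2 hB0
      ht.le le_rfl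
    simp only at h2
    rw [exp_L2 hx (-aa n d k)] at h2
    calc _ ≤ Real.exp (t * L2 (eval x (qf f))) * 1 := by gcongr; exact abs_psd_le x
      _ ≤ _ := by
        rw [mul_one]
        refine h2.trans (le_of_eq ?_)
        congr 2
        ring
  · rw [Set.indicator_of_notMem hxK, mul_zero]
    have h3 : psd n x = 0 := by
      by_cases hx2 : ‖x‖ ≤ 2
      · apply psd_small
        by_contra hcon
        exact hxK ⟨mem_closedBall_zero_iff.2 hx2, fun h4 => hcon (by
          rw [mem_ball_zero_iff] at h4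
          exact h4.le)⟩
      · exact psd_large (by linarith)
    rw [h3]
    simp

theorem Dat.differentiableOn_RD (h : Dat f d k m) (hH : HInt f d k) :
    DifferentiableOn ℂ (RD f) {z | -aa n d k < z.re} :=
  Lct.differentiableOn_integral_exp (X := fun x => L2 (eval x (qf f)))
    (measurable_L2.comp (measurable_qf f))
    (Complex.continuous_ofReal.comp (continuous_psd n)).measurable.aestronglyMeasurable
    fun _ ht => h.integrable_RD hH ht

theorem Dat.integrable_RR (h : Dat f d k m) {s : ℝ} (hs : 0 ≤ s) :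
    Integrable fun x : Fin n → ℂ => Complex.exp ((s : ℂ) * (L2 (eval x (qf f)) : ℝ)) *
      ((psi n x : ℝ) : ℂ) := by
  obtain ⟨B, hB0, hB⟩ := h.exists_B
  have hc : HasCompactSupport fun x : Fin n → ℂ => psi n x :=
    HasCompactSupport.intro (isCompact_closedBall 0 2) fun x hx => psi_zero (by
      rw [mem_closedBall_zero_iff, not_le] at hx
      exact hx.le)
  have h1 : Integrable fun x : Fin n → ℂ => Real.exp (s * B) * psi n x :=
    ((psi n).continuous.integrable_of_hasCompactSupport hc).const_mul _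
  refine h1.mono' ((measurable_cexp_L2 (measurable_qf f) _).mul
    (Complex.continuous_ofReal.comp (psi n).continuous).measurable).aestronglyMeasurable ?_
  refine Eventually.of_forall fun x => ?_
  rw [norm_mul, norm_cexp_L2, Complex.norm_real, Real.norm_of_nonneg (psi n).nonneg,
    Complex.ofReal_re]
  rcases le_or_gt ‖x‖ 2 with hx | hx
  · have h2 := (hB (0, x) (by simp) hx).2.2.2
    simp only at h2
    refine mul_le_mul_of_nonneg_right (Real.exp_le_exp.2 ?_) (psi n).nonneg
    exact mul_le_mul_of_nonneg_left h2 hs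
  · rw [psi_zero hx.le]
    simp

/-- The factor. -/
def EE (n m : ℕ) (z : ℂ) : ℂ := 1 - Complex.exp (-(2 * n + 2 * m * z) * Real.log 2)

theorem Dat.EE_mul_RR (h : Dat f d k m) {s : ℝ} (hs : 0 ≤ s) :
    EE n m s * RR f s = RD f s := by
  set g : (Fin n → ℂ) → ℂ := fun x =>
    Complex.exp ((s : ℂ) * (L2 (eval ((1 / 2 : ℝ) • x) (qf f)) : ℝ)) * ((psi n x : ℝ) : ℂ) with hg
  have h1 := Measure.integral_comp_smul (volume : Measure (Fin n → ℂ)) g 2
  have h2 : ∀ x, g ((2 : ℝ) • x) = Complex.exp ((s : ℂ) * (L2 (eval x (qf f)) : ℝ)) *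
      ((psi n ((2 : ℝ) • x) : ℝ) : ℂ) := by
    intro x
    simp only [hg, smul_smul]
    norm_num
  have h3 : ∀ᵐ x : Fin n → ℂ, g x = Complex.exp (-(2 * m * s) * Real.log 2) *
      (Complex.exp ((s : ℂ) * (L2 (eval x (qf f)) : ℝ)) * ((psi n x : ℝ) : ℂ)) := by
    filter_upwards [ae_eval_ne_zero h.qf_ne_zero] with x hx
    simp only [hg]
    have e1 : ((1 / 2 : ℝ)) • x = ((1 / 2 : ℂ)) • x := by
      funext i
      simp
    have e2 : L2 (eval ((1 / 2 : ℝ) • x) (qf f)) = L2 (eval x (qf f)) - 2 * m * Real.log 2 := by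
      rw [e1, eval_smul_of_homog h.qf_hom, L2_mul (pow_ne_zero _ (by norm_num)) hx]
      have e3 : L2 ((1 / 2 : ℂ) ^ m) = -(2 * m * Real.log 2) := by
        unfold L2
        rw [Complex.normSq_eq_norm_sq, norm_pow]
        have e4 : ‖(1 / 2 : ℂ)‖ = 2⁻¹ := by norm_num
        rw [e4, Real.log_pow, Real.log_pow, Real.log_inv]
        push_cast
        ring
      rw [e3]
      ring
    rw [e2, ← mul_assoc, ← Complex.exp_add]
    congr 2
    push_cast
    ring
  simp only [h2] at h1
  rw [integral_congr_ae h3, integral_const_mul, finrank_pi_complex] at h1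
  have hi1 := h.integrable_RR hs
  have hi2 : Integrable fun x : Fin n → ℂ => Complex.exp ((s : ℂ) * (L2 (eval x (qf f)) : ℝ)) *
      ((psi n ((2 : ℝ) • x) : ℝ) : ℂ) := by
    have h4 : Integrable g := by
      refine (integrable_congr h3).2 (hi1.const_mul _)
    have h5 := h4.comp_smul (two_ne_zero (α := ℝ))
    simpa only [h2] using h5
  have h6 : RD f s = RR f s - ∫ x : Fin n → ℂ, Complex.exp ((s : ℂ) * (L2 (eval x (qf f)) : ℝ)) *
      ((psi n ((2 : ℝ) • x) : ℝ) : ℂ) := by
    unfold RD RR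
    rw [← integral_sub hi1 hi2]
    refine integral_congr_ae (Eventually.of_forall fun x => ?_)
    simp only [psd]
    push_cast
    ring
  rw [h6, h1]
  unfold EE
  have h7 : ((|((2 : ℝ) ^ (2 * n))⁻¹| : ℝ) : ℂ) = Complex.exp (-(2 * n) * Real.log 2) := by
    rw [abs_of_nonneg (by positivity)]
    have e : ((2 : ℝ) ^ (2 * n))⁻¹ = Real.exp (-(2 * n) * Real.log 2) := by
      rw [neg_mul, Real.exp_neg, ← Real.rpow_natCast, Real.rpow_def_of_pos (by norm_num)]
      congr 2
      push_cast
      ring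
    rw [e, Complex.ofReal_exp]
    push_cast
    rfl
  rw [Complex.real_smul, h7]
  have h8 : Complex.exp (-(2 * n + 2 * m * s) * Real.log 2) =
      Complex.exp (-(2 * n) * Real.log 2) * Complex.exp (-(2 * m * s) * Real.log 2) := by
    rw [← Complex.exp_add]
    congr 1
    ring
  rw [h8]
  unfold RR
  ring

end MPb07157.Alp
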