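import Pool.Agent.Lib.MP_b07157_agY.Ym4

/-!
# The functional equation beyond the first pole
-/

noncomputable section

namespace MPb07157.Alp

open MeasureTheory Filter Topology MvPolynomial
open scoped ENNReal

variable {n : ℕ} {f : MvPolynomial (Fin (n + 1)) ℂ} {d k m : ℕ}

/-- The test function. -/
def Phi (n : ℕ) (v : Fin (n + 1) → ℂ) : ℂ := hh n (v 0, fun i => v i.succ)

theorem isTest_Phi (n : ℕ) : Lct.IsTest (Metric.closedBall (0 : Fin (n + 1) → ℂ) 2) (Phi n) := by
  refine ⟨?_, isCompact_closedBall _ _, fun v hv => ?_⟩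
  · have h1 : ContDiff ℝ (⊤ : ℕ∞) fun v : Fin (n + 1) → ℂ =>
        Real.smoothTransition (2 - ‖v 0‖ ^ 2) :=
      Real.smoothTransition.contDiff.comp (contDiff_const.sub
        ((contDiff_norm_sq ℝ).comp (contDiff_apply ℝ ℂ (0 : Fin (n + 1)))))
    have h2 : ContDiff ℝ (⊤ : ℕ∞) fun v : Fin (n + 1) → ℂ => psi n (fun i => v i.succ) :=
      (psi n).contDiff.comp (contDiff_pi.2 fun i => contDiff_apply ℝ ℂ i.succ)
    have h3 := (Complex.ofRealCLM.contDiff.comp h1).mul (Complex.ofRealCLM.contDiff.comp h2)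
    have e : Phi n = fun v : Fin (n + 1) → ℂ =>
        (Complex.ofRealCLM ∘ fun v : Fin (n + 1) → ℂ => Real.smoothTransition (2 - ‖v 0‖ ^ 2)) v *
        (Complex.ofRealCLM ∘ fun v : Fin (n + 1) → ℂ => psi n (fun i => v i.succ)) v := by
      funext v
      simp only [Phi, hh, cut_norm, Function.comp_apply, Complex.ofRealCLM_apply]
    rw [e]
    exact h3
  · rw [mem_closedBall_zero_iff, not_le] at hv
    unfold Phi
    by_cases h1 : 2 ≤ ‖v 0‖
    · exact hh_zero_left h1
    · apply hh_zero_right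
      by_contra h2
      rw [not_le] at h1 h2
      have h3 : ‖v‖ ≤ 2 := by
        rw [pi_norm_le_iff_of_nonneg (by norm_num)]
        intro i
        refine Fin.cases h1.le (fun i => ?_) i
        exact (norm_le_pi_norm (fun i => v (Fin.succ i)) i).trans h2.le
      linarith

/-- The integral over the product. -/
def I1 (f : MvPolynomial (Fin (n + 1)) ℂ) (s : ℝ) : ℂ :=
  ∫ ω : ℂ × (Fin n → ℂ), Complex.exp ((s : ℂ) * (L2 ((pol f ω.2).eval ω.1) : ℝ)) * hh n ω

theorem integrable_hh (n : ℕ) : Integrable (hh n) := by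
  refine (continuous_hh n).integrable_of_hasCompactSupport ?_
  refine HasCompactSupport.intro ((isCompact_closedBall (0 : ℂ) 2).prod
    (isCompact_closedBall (0 : Fin n → ℂ) 2)) fun ω hω => ?_
  rw [Set.mem_prod, mem_closedBall_zero_iff, mem_closedBall_zero_iff, not_and_or, not_le,
    not_le] at hω
  rcases hω with h | h
  · exact hh_zero_left h.le
  · exact hh_zero_right h.le

theorem integrable_exp_hh {g : ℂ × (Fin n → ℂ) → ℂ} (hg : Measurable g) {B : ℝ}
    (hB : ∀ ω : ℂ × (Fin n → ℂ), ‖ω.1‖ ≤ 2 → ‖ω.2‖ ≤ 2 → L2 (g ω) ≤ B) {s : ℝ} (hs : 0 ≤ s) :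
    Integrable fun ω => Complex.exp ((s : ℂ) * (L2 (g ω) : ℝ)) * hh n ω := by
  refine ((integrable_hh n).norm.const_mul (Real.exp (s * B))).mono'
    ((measurable_cexp_L2 hg _).mul (continuous_hh n).measurable).aestronglyMeasurable ?_
  refine Eventually.of_forall fun ω => ?_
  rw [norm_mul, norm_cexp_L2, Complex.ofReal_re]
  by_cases h1 : ‖ω.1‖ ≤ 2
  · by_cases h2 : ‖ω.2‖ ≤ 2
    · refine mul_le_mul_of_nonneg_right (Real.exp_le_exp.2 ?_) (norm_nonneg _)
      exact mul_le_mul_of_nonneg_left (hB ω h1 h2) hs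
    · rw [hh_zero_right (by linarith)]
      simp
  · rw [hh_zero_left (by linarith)]
    simp

theorem measurable_pol_neg (f : MvPolynomial (Fin (n + 1)) ℂ) :
    Measurable fun ω : ℂ × (Fin n → ℂ) => (pol f ω.2).eval (-ω.1) :=
  (measurable_pol f).comp (measurable_fst.neg.prodMk measurable_snd)

theorem measurable_lead (f : MvPolynomial (Fin (n + 1)) ℂ) (k : ℕ) :
    Measurable fun ω : ℂ × (Fin n → ℂ) => ω.1 ^ k * eval ω.2 (qf f) :=
  (measurable_fst.pow_const k).mul ((measurable_qf f).comp measurable_snd)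

theorem Dat.integral_NN (h : Dat f d k m) (s : ℝ) :
    ∫ v, ((Lct.NN f v ^ s : ℝ) : ℂ) * Phi n v = I1 f s := by
  have hmp := volume_preserving_piFinSuccAbove (fun _ : Fin (n + 1) => ℂ) 0
  set g : ℂ × (Fin n → ℂ) → ℂ := fun ω =>
    ((Complex.normSq ((pol f ω.2).eval ω.1) ^ s : ℝ) : ℂ) * hh n ω with hg
  have h1 := hmp.integral_comp' g
  have h2 : ∀ v : Fin (n + 1) → ℂ,
      g ((MeasurableEquiv.piFinSuccAbove (fun _ : Fin (n + 1) => ℂ) 0) v) =
        ((Lct.NN f v ^ s : ℝ) : ℂ) * Phi n v := by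
    intro v
    have e1 : (MeasurableEquiv.piFinSuccAbove (fun _ : Fin (n + 1) => ℂ) 0) v =
        (v 0, fun i : Fin n => v i.succ) := rfl
    rw [e1]
    simp only [hg, Phi, Lct.NN]
    have e2 : (Fin.cons (v 0) (fun i : Fin n => v i.succ) : Fin (n + 1) → ℂ) = v :=
      Fin.cons_self_tail v
    rw [← eval_cons, e2]
  simp only [h2] at h1
  rw [h1]
  unfold I1
  refine integral_congr_ae ?_
  filter_upwards [h.ae_good] with ω hω
  simp only [hg]
  congr 1
  have h3 := exp_L2 hω.2.2.1 s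
  rw [Real.rpow_mul (norm_nonneg _), Real.rpow_two, ← Complex.normSq_eq_norm_sq] at h3
  rw [← h3, Complex.ofReal_exp]
  push_cast
  rfl

theorem hh_neg (ω : ℂ × (Fin n → ℂ)) : hh n (-ω.1, ω.2) = hh n ω := by
  unfold hh
  rw [norm_neg]

theorem integral_neg_fst (g : ℂ × (Fin n → ℂ) → ℂ) : ∫ ω : ℂ × (Fin n → ℂ), g (-ω.1, ω.2) =
    ∫ ω, g ω := by
  have hmp : MeasurePreserving (MeasurableEquiv.prodCongr (MeasurableEquiv.neg ℂ)
      (MeasurableEquiv.refl (Fin n → ℂ))) (volume : Measure (ℂ × (Fin n → ℂ))) volume :=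
    (Measure.measurePreserving_neg (volume : Measure ℂ)).prod
      (MeasurePreserving.id (volume : Measure (Fin n → ℂ)))
  exact hmp.integral_comp' g

theorem Dat.integral_lead (h : Dat f d k m) (s : ℝ) :
    ∫ ω : ℂ × (Fin n → ℂ), Complex.exp ((s : ℂ) * (L2 (ω.1 ^ k * eval ω.2 (qf f)) : ℝ)) * hh n ω =
      LL (Polynomial.X ^ k) s * RR f s := by
  unfold LL RR
  rw [Measure.volume_eq_prod, ← integral_prod_mul]
  refine integral_congr_ae ?_
  have hg := h.ae_good
  rw [Measure.volume_eq_prod] at hg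
  filter_upwards [hg] with ω hω
  rw [L2_mul (pow_ne_zero _ hω.1) hω.2.1, Polynomial.eval_pow, Polynomial.eval_X]
  unfold hh
  push_cast
  rw [mul_add, Complex.exp_add]
  ring

theorem Dat.MM_eq (h : Dat f d k m) {s : ℝ} (hs : 0 ≤ s) :
    I1 f s = MM f k s + LL (Polynomial.X ^ k) s * RR f s := by
  obtain ⟨B, -, hB⟩ := h.exists_B
  have i1 := integrable_exp_hh (measurable_pol f) (fun ω h1 h2 => (hB ω h1 h2).1) hs
  have i2 := integrable_exp_hh (measurable_pol_neg f) (fun ω h1 h2 => (hB ω h1 h2).2.1) hs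
  have i3 := integrable_exp_hh (measurable_lead f k) (fun ω h1 h2 => (hB ω h1 h2).2.2.1) hs
  have e1 : ∫ ω : ℂ × (Fin n → ℂ), Complex.exp ((s : ℂ) * (L2 ((pol f ω.2).eval (-ω.1)) : ℝ)) *
      hh n ω = I1 f s := by
    unfold I1
    rw [← integral_neg_fst]
    refine integral_congr_ae (Eventually.of_forall fun ω => ?_)
    simp only [neg_neg]
    rw [hh_neg]
  rw [← h.integral_lead s]
  have e2 : MM f k s = (1 / 2) * ((∫ ω : ℂ × (Fin n → ℂ),
      Complex.exp ((s : ℂ) * (L2 ((pol f ω.2).eval ω.1) : ℝ)) * hh n ω) +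
      ∫ ω : ℂ × (Fin n → ℂ), Complex.exp ((s : ℂ) * (L2 ((pol f ω.2).eval (-ω.1)) : ℝ)) *
        hh n ω) - ∫ ω : ℂ × (Fin n → ℂ),
          Complex.exp ((s : ℂ) * (L2 (ω.1 ^ k * eval ω.2 (qf f)) : ℝ)) * hh n ω := by
    rw [← integral_add i1 i2, ← integral_const_mul, ← integral_sub ((i1.fun_add i2).const_mul _) i3]
    unfold MM
    refine integral_congr_ae (Eventually.of_forall fun ω => ?_)
    simp only [GH, GG]
    ring
  rw [e2, e1]
  unfold I1
  ring

theorem differentiable_EE (n m : ℕ) : Differentiable ℂ (EE n m) := by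
  unfold EE
  fun_prop

/-- The functional equation for `Re z > -n/d`. -/
theorem Dat.functional_equation (h : Dat f d k m) (hH : HInt f d k) {b : Polynomial ℂ}
    (hb : IsBernsteinSato f b) :
    ∃ B : ℂ → ℂ, DifferentiableOn ℂ B {z | -(1 / 2 : ℝ) < z.re} ∧ ∀ z : ℂ, -cc n d < z.re →
      b.eval z * (EE n m z * MM f k z + LL (Polynomial.X ^ k) z * RD f z) = EE n m z * B z := by
  have hK : MeasurableSet (Metric.closedBall (0 : Fin (n + 1) → ℂ) 2) :=
    Metric.isClosed_closedBall.measurableSet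
  have hint : ∀ t : ℝ, -(0 : ℝ) < t →
      IntegrableOn (fun x => Lct.NN f x ^ t) (Metric.closedBall (0 : Fin (n + 1) → ℂ) 2) := by
    intro t ht
    exact ((Lct.continuous_NN f).rpow_const fun _ => Or.inr (by linarith)).continuousOn.integrableOn_compact
      (isCompact_closedBall _ _)
  obtain ⟨B, hB1, hB2⟩ := (Lct.good_of_isBernsteinSato hb (isTest_Phi n)).exists_continuation hK hint
  have hset : {z : ℂ | -(0 : ℝ) - 1 / 2 < z.re} = {z : ℂ | -(1 / 2 : ℝ) < z.re} := by
    ext z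
    simp
  rw [hset] at hB1
  refine ⟨B, hB1, ?_⟩
  obtain ⟨s₁, hs₁⟩ := (hB2.and (eventually_gt_atTop 0)).exists_forall_of_atTop
  have hk : 0 < k := by have := h.hk; omega
  have hkc : -(1 / k : ℝ) ≤ -cc n d := by
    have h1 := h.cc_mul_k
    have h2 : (0 : ℝ) < k := by exact_mod_cast hk
    have h3 : cc n d < 1 / k := by
      rw [lt_div_iff₀ h2]
      linarith
    linarith
  have hLL : DifferentiableOn ℂ (LL (Polynomial.X ^ k)) {z | -cc n d < z.re} :=
    (differentiableOn_LL hk (Polynomial.natDegree_X_pow k)).mono fun z hz =>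
      lt_of_le_of_lt hkc hz
  have hRD : DifferentiableOn ℂ (RD f) {z | -cc n d < z.re} :=
    (h.differentiableOn_RD hH).mono fun z hz => lt_trans (neg_lt_neg h.cc_lt_aa) hz
  have hBd : DifferentiableOn ℂ B {z | -cc n d < z.re} :=
    hB1.mono fun z hz => lt_trans (neg_lt_neg h.cc_lt) hz
  have hE := (differentiable_EE n m).differentiableOn (s := {z : ℂ | -cc n d < z.re})
  refine Lct.eq_of_eq_real ((b.differentiable.differentiableOn).fun_mul
    ((hE.fun_mul (h.differentiableOn_MM hH)).fun_add (hLL.fun_mul hRD))) (hE.fun_mul hBd)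
    (s₁ := s₁) fun s hs => ?_
  obtain ⟨h1, h2⟩ := hs₁ s hs
  rw [← h1, h.integral_NN s, h.MM_eq h2.le, ← h.EE_mul_RR h2.le]
  ring

end MPb07157.Alp
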