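import Pool.Agent.Lib.MP_b07157_agY.Ym5

/-!
# The sign of the residue
-/

noncomputable section

namespace MPb07157.Alp

open MeasureTheory Filter Topology MvPolynomial
open scoped ENNReal

variable {n : ℕ} {f : MvPolynomial (Fin (n + 1)) ℂ} {d k m : ℕ}

/-- The integral `∫ |p|^{-2t} v(|y|)`. -/
def JP (p : Polynomial ℂ) (v : ℝ → ℝ) (t : ℝ) : ℝ := ∫ y : ℂ, Real.exp (-t * L2 (p.eval y)) * v ‖y‖

/-- Cut-offs. -/
structure Cut (v : ℝ → ℝ) : Prop where
  anti : Antitone v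
  nonneg : ∀ r, 0 ≤ v r
  one : ∀ r ≤ 1, v r = 1
  zero : ∃ R, ∀ r, R ≤ r → v r = 0

theorem Cut.le_one {v : ℝ → ℝ} (hv : Cut v) (r : ℝ) : v r ≤ 1 := by
  rcases le_or_gt r 1 with h | h
  · rw [hv.one r h]
  · rw [← hv.one 1 le_rfl]
    exact hv.anti h.le

theorem cut_cut : Cut cut :=
  ⟨antitone_cut, cut_nonneg, fun _ h => cut_one h, 2, fun _ h => cut_zero h⟩

theorem Cut.scale {v : ℝ → ℝ} (hv : Cut v) {l : ℝ} (hl : 0 < l) (hl1 : l ≤ 1) :
    Cut fun r => v (l * r) := by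
  refine ⟨fun r s hrs => hv.anti (by gcongr), fun r => hv.nonneg _, fun r hr => hv.one _ ?_, ?_⟩
  · nlinarith
  · obtain ⟨R, hR⟩ := hv.zero
    refine ⟨R / l, fun r hr => hR _ ?_⟩
    rw [div_le_iff₀ hl] at hr
    linarith

theorem Cut.integrable {v : ℝ → ℝ} (hv : Cut v) {p : Polynomial ℂ} (hk : 0 < k)
    (hp : p.natDegree = k) {t : ℝ} (ht : 0 < t) (hkt : k * t < 1) :
    Integrable fun y : ℂ => Real.exp (-t * L2 (p.eval y)) * v ‖y‖ := by
  obtain ⟨R, hR⟩ := hv.zero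
  exact integrable_of_lt hk hp hv.anti hv.nonneg hv.le_one hR ht hkt

theorem JP_eq {p : Polynomial ℂ} (hp : p ≠ 0) (v : ℝ → ℝ) (t : ℝ) :
    JP p v t = ∫ y : ℂ, ‖p.eval y‖ ^ (-(2 * t)) * v ‖y‖ := by
  unfold JP
  refine integral_congr_ae ?_
  filter_upwards [ae_eval_poly_ne_zero hp] with y hy
  rw [exp_L2 hy]
  congr 2
  ring

theorem JP_X_pow (k : ℕ) (v : ℝ → ℝ) (t : ℝ) :
    JP (Polynomial.X ^ k) v t = ∫ y : ℂ, ‖y‖ ^ (-(2 * (k * t))) * v ‖y‖ := by
  rw [JP_eq (pow_ne_zero _ Polynomial.X_ne_zero)]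
  refine integral_congr_ae (Eventually.of_forall fun y => ?_)
  simp only [Polynomial.eval_pow, Polynomial.eval_X, norm_pow]
  rw [← Real.rpow_natCast, ← Real.rpow_mul (norm_nonneg _)]
  congr 2
  ring

theorem JP_nonneg {v : ℝ → ℝ} (hv : Cut v) (p : Polynomial ℂ) (t : ℝ) : 0 ≤ JP p v t :=
  integral_nonneg fun _ => mul_nonneg (Real.exp_pos _).le (hv.nonneg _)

theorem JP_le {v : ℝ → ℝ} (hv : Cut v) {p : Polynomial ℂ} (hk : 0 < k)
    (hp : p.natDegree = k) {t : ℝ} (ht : 0 < t) (hkt : k * t < 1) :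
    JP p v t ≤ Real.exp (-t * L2 p.leadingCoeff) * JP (Polynomial.X ^ k) v t := by
  have hp0 : p ≠ 0 := by
    rintro rfl
    rw [Polynomial.natDegree_zero] at hp
    omega
  have hlc : p.leadingCoeff ≠ 0 := Polynomial.leadingCoeff_ne_zero.2 hp0
  have h1 := lintegral_poly_le hk hp ht (v := fun r => ENNReal.ofReal (v r))
    (fun r s hrs => ENNReal.ofReal_le_ofReal (hv.anti hrs))
  have i1 := hv.integrable hk hp ht hkt
  have i2 := hv.integrable hk (Polynomial.natDegree_X_pow (R := ℂ) k) ht hkt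
  have e1 : ENNReal.ofReal (JP p v t) =
      ∫⁻ y : ℂ, ‖p.eval y‖ₑ ^ (-(2 * t)) * ENNReal.ofReal (v ‖y‖) := by
    unfold JP
    rw [ofReal_integral_eq_lintegral_ofReal i1
      (Eventually.of_forall fun y => mul_nonneg (Real.exp_pos _).le (hv.nonneg _))]
    refine lintegral_congr_ae ?_
    filter_upwards [ae_eval_poly_ne_zero hp0] with y hy
    rw [enorm_rpow_eq hy, exp_L2 hy, ENNReal.ofReal_mul (by positivity)]
    congr 3
    ring
  have e2 : ENNReal.ofReal (JP (Polynomial.X ^ k) v t) =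
      ∫⁻ y : ℂ, ‖y‖ₑ ^ (-(2 * (k * t))) * ENNReal.ofReal (v ‖y‖) := by
    unfold JP
    rw [ofReal_integral_eq_lintegral_ofReal i2
      (Eventually.of_forall fun y => mul_nonneg (Real.exp_pos _).le (hv.nonneg _))]
    refine lintegral_congr_ae ?_
    have h2 : ∀ᵐ y : ℂ, y ≠ 0 := by
      rw [ae_iff]
      simp
    filter_upwards [h2] with y hy
    rw [enorm_rpow_eq hy, Polynomial.eval_pow, Polynomial.eval_X, exp_L2 (pow_ne_zero _ hy),
      ENNReal.ofReal_mul (by positivity), norm_pow, ← Real.rpow_natCast,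
      ← Real.rpow_mul (norm_nonneg _)]
    congr 3
    ring
  rw [← e1, ← e2, enorm_rpow_eq hlc, ← ENNReal.ofReal_mul (by positivity)] at h1
  have h3 : 0 ≤ ‖p.leadingCoeff‖ ^ (-(2 * t)) * JP (Polynomial.X ^ k) v t :=
    mul_nonneg (by positivity) (JP_nonneg hv _ _)
  have h4 := (ENNReal.ofReal_le_ofReal_iff h3).1 h1
  rw [exp_L2 hlc]
  have e3 : 2 * -t = -(2 * t) := by ring
  rw [e3]
  exact h4

/-- The difference of the fibre integrals. -/
def dd (f : MvPolynomial (Fin (n + 1)) ℂ) (k : ℕ) (v : ℝ → ℝ) (t : ℝ) (x : Fin n → ℂ) : ℝ :=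
  Real.exp (-t * L2 (eval x (qf f))) * JP (Polynomial.X ^ k) v t - JP (pol f x) v t

theorem Dat.dd_nonneg (h : Dat f d k m) {v : ℝ → ℝ} (hv : Cut v) {t : ℝ} (ht : 0 < t)
    (hkt : k * t < 1) {x : Fin n → ℂ} (hx : eval x (qf f) ≠ 0) : 0 ≤ dd f k v t x := by
  have hk : 0 < k := by have := h.hk; omega
  have h1 := JP_le hv hk (h.natDegree_pol hx) ht hkt
  rw [h.leadingCoeff_pol hx] at h1
  unfold dd
  linarith

theorem Dat.dd_ge (h : Dat f d k m) {t : ℝ} (ht : 0 < t)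
    (hkt : k * t < 1) {x : Fin n → ℂ} (hx : eval x (qf f) ≠ 0) {y₁ y₂ : ℂ} (h12 : y₁ ≠ y₂)
    (h1 : (pol f x).eval y₁ = 0) (h2 : (pol f x).eval y₂ = 0) :
    ∃ δ : ℝ, 0 < δ ∧ ∀ v, Cut v → δ ≤ dd f k v t x := by
  have hk : 0 < k := by have := h.hk; omega
  have hp0 : pol f x ≠ 0 := by
    intro h0
    have h3 := h.natDegree_pol hx
    rw [h0, Polynomial.natDegree_zero] at h3
    omega
  obtain ⟨δ, hδ, hδ'⟩ := exists_lt_of_two_roots hk (h.natDegree_pol hx) ht hkt h1 h2 h12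
  refine ⟨δ, hδ, fun v hv => ?_⟩
  have h3 := hδ' v hv.anti hv.anti.measurable hv.nonneg hv.one hv.zero
  rw [h.leadingCoeff_pol hx, ← JP_eq hp0, ← JP_X_pow] at h3
  unfold dd
  rw [exp_L2 hx]
  have e3 : 2 * -t = -(2 * t) := by ring
  rw [e3]
  linarith

theorem measurable_JP (f : MvPolynomial (Fin (n + 1)) ℂ) {v : ℝ → ℝ} (hv : Measurable v) (t : ℝ) :
    Measurable fun x : Fin n → ℂ => JP (pol f x) v t := by
  have h1 : Measurable fun ω : ℂ × (Fin n → ℂ) =>
      Real.exp (-t * L2 ((pol f ω.2).eval ω.1)) * v ‖ω.1‖ :=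
    (measurable_rexp_L2 (measurable_pol f) _).mul (hv.comp (measurable_norm.comp measurable_fst))
  have h2 := (h1.stronglyMeasurable).integral_prod_left (μ := (volume : Measure ℂ))
    (f := fun (y : ℂ) (x : Fin n → ℂ) => Real.exp (-t * L2 ((pol f x).eval y)) * v ‖y‖)
  exact h2.measurable

theorem measurable_dd (f : MvPolynomial (Fin (n + 1)) ℂ) (k : ℕ) {v : ℝ → ℝ} (hv : Measurable v)
    (t : ℝ) : Measurable (dd f k v t) :=
  ((measurable_rexp_L2 (measurable_qf f) _).mul_const _).sub (measurable_JP f hv t)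

theorem LL_eq_JP (p : Polynomial ℂ) (t : ℝ) : LL p ((-t : ℝ) : ℂ) = ((JP p cut t : ℝ) : ℂ) := by
  unfold LL JP
  rw [← integral_complex_ofReal]
  refine integral_congr_ae (Eventually.of_forall fun y => ?_)
  simp only
  push_cast
  rfl

/-- The value of the continuation. -/
theorem Dat.MM_neg (h : Dat f d k m) (hH : HInt f d k) {t : ℝ} (ht : 0 < t) (htc : t < cc n d) :
    Integrable (fun x : Fin n → ℂ => psi n x * dd f k cut t x) ∧
    MM f k ((-t : ℝ) : ℂ) = ((-∫ x : Fin n → ℂ, psi n x * dd f k cut t x : ℝ) : ℂ) := by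
  have hk : 0 < k := by have := h.hk; omega
  have hkt : k * t < 1 := by
    have h1 := h.cc_mul_k
    have h2 : (0 : ℝ) < k := by exact_mod_cast hk
    nlinarith
  have hz : -cc n d < (((-t : ℝ) : ℂ)).re := by
    rw [Complex.ofReal_re]
    linarith
  have hi := h.integrable_GH hH hz
  rw [Measure.volume_eq_prod] at hi
  have hfib : ∀ᵐ x : Fin n → ℂ, ∫ y : ℂ, GH f k ((-t : ℝ) : ℂ) (y, x) =
      ((-(psi n x * dd f k cut t x) : ℝ) : ℂ) := by
    filter_upwards [ae_eval_ne_zero h.qf_ne_zero] with x hx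
    have i1 := cut_cut.integrable hk (h.natDegree_pol hx) ht hkt
    have i2 : Integrable fun y : ℂ => Real.exp (-t * L2 ((pol f x).eval (-y))) * cut ‖y‖ := by
      have := i1.comp_neg
      simpa [norm_neg] using this
    have i3 := cut_cut.integrable hk (Polynomial.natDegree_X_pow (R := ℂ) k) ht hkt
    have e2 : ∫ y : ℂ, Real.exp (-t * L2 ((pol f x).eval (-y))) * cut ‖y‖ =
        JP (pol f x) cut t := by
      unfold JP
      rw [← integral_neg_eq_self (fun y : ℂ => Real.exp (-t * L2 ((pol f x).eval y)) * cut ‖y‖)]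
      simp [norm_neg]
    have e3 : ∀ᵐ y : ℂ, GH f k ((-t : ℝ) : ℂ) (y, x) =
        (((((1 / 2) * (Real.exp (-t * L2 ((pol f x).eval y)) * cut ‖y‖ +
          Real.exp (-t * L2 ((pol f x).eval (-y))) * cut ‖y‖)) -
          Real.exp (-t * L2 (eval x (qf f))) *
            (Real.exp (-t * L2 ((Polynomial.X ^ k : Polynomial ℂ).eval y)) * cut ‖y‖)) *
              psi n x : ℝ) : ℂ) := by
      have h2 : ∀ᵐ y : ℂ, y ≠ 0 := by
        rw [ae_iff]
        simp
      filter_upwards [h2] with y hy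
      unfold GH GG hh
      simp only [Polynomial.eval_pow, Polynomial.eval_X]
      rw [L2_mul (pow_ne_zero _ hy) hx]
      push_cast
      have e4 : ∀ a b : ℂ, Complex.exp (-(t : ℂ) * (a + b)) =
          Complex.exp (-(t : ℂ) * a) * Complex.exp (-(t : ℂ) * b) := fun a b => by
        rw [← Complex.exp_add, mul_add]
      rw [e4]
      ring
    rw [integral_congr_ae e3, integral_complex_ofReal, integral_mul_const]
    rw [integral_sub ((i1.fun_add i2).const_mul _) (i3.const_mul _), integral_const_mul,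
      integral_add i1 i2, e2, integral_const_mul]
    congr 1
    unfold dd JP
    ring
  have hi2 := hi.integral_prod_right
  have hi3 : Integrable (fun x : Fin n → ℂ => ((-(psi n x * dd f k cut t x) : ℝ) : ℂ)) :=
    (integrable_congr hfib).1 hi2
  have hi4 : Integrable (fun x : Fin n → ℂ => -(psi n x * dd f k cut t x)) := by
    have := hi3.re
    simpa using this
  refine ⟨by simpa using hi4.neg, ?_⟩
  unfold MM
  rw [Measure.volume_eq_prod, integral_prod_symm _ hi, integral_congr_ae hfib,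
    integral_complex_ofReal, integral_neg]

end MPb07157.Alp
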