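import Pool.Agent.Lib.MP_b07157_agY.Ym1
import Pool.Agent.Lib.MP_b07157_agY.Y5
import Pool.Agent.Lib.MP_b07157_agY.Y6

/-!
# An open set of directions with two further points
-/

noncomputable section

namespace MPb07157.Alp

open MeasureTheory Filter Topology MvPolynomial

variable {n : ℕ} {f : MvPolynomial (Fin (n + 1)) ℂ} {d k m : ℕ}

namespace Yu

theorem continuous_eval_map (P : Polynomial (MvPolynomial (Fin n) ℂ)) (y : ℂ) :
    Continuous fun x : Fin n → ℂ => (P.map (eval x)).eval y := by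
  have h1 : (fun x : Fin n → ℂ => (P.map (eval x)).eval y) =
      fun x => ∑ i ∈ Finset.range (P.natDegree + 1), eval x (P.coeff i) * y ^ i := by
    funext x
    rw [Polynomial.eval_map, Polynomial.eval₂_eq_sum_range]
  rw [h1]
  refine continuous_finsetSum _ fun i _ => ?_
  exact (MvPolynomial.continuous_eval _).mul continuous_const

/-- The polynomial `k p p'' - (k-1) p'²`. -/
def W (P : Polynomial (MvPolynomial (Fin n) ℂ)) (k : ℕ) : Polynomial (MvPolynomial (Fin n) ℂ) :=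
  (k : Polynomial (MvPolynomial (Fin n) ℂ)) * P * P.derivative.derivative -
    ((k : Polynomial (MvPolynomial (Fin n) ℂ)) - 1) * P.derivative ^ 2

theorem W_map (P : Polynomial (MvPolynomial (Fin n) ℂ)) (k : ℕ) (x : Fin n → ℂ) :
    (W P k).map (eval x) = (k : Polynomial ℂ) * P.map (eval x) *
      (P.map (eval x)).derivative.derivative -
      ((k : Polynomial ℂ) - 1) * (P.map (eval x)).derivative ^ 2 := by
  unfold W
  rw [Polynomial.map_sub, Polynomial.map_mul, Polynomial.map_mul, Polynomial.map_mul,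
    Polynomial.map_sub, Polynomial.map_pow, Polynomial.map_natCast, Polynomial.map_one,
    Polynomial.derivative_map, Polynomial.derivative_map]

end Yu

theorem Dat.exists_open (h : Dat f d k m) {x₀ : Fin n → ℂ} {y₁ y₂ : ℂ}
    (hq : eval x₀ (qf f) ≠ 0) (h12 : y₁ ≠ y₂) (h1 : (pol f x₀).eval y₁ = 0)
    (h2 : (pol f x₀).eval y₂ = 0) :
    ∃ U : Set (Fin n → ℂ), IsOpen U ∧ U.Nonempty ∧ U ⊆ ann n 1 0 ∧
      ∀ x ∈ U, eval x (qf f) ≠ 0 ∧
        ∃ y₁ y₂ : ℂ, y₁ ≠ y₂ ∧ (pol f x).eval y₁ = 0 ∧ (pol f x).eval y₂ = 0 := by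
  have hx0 : x₀ ≠ 0 := by
    rintro rfl
    apply hq
    have h3 := eval_smul_of_homog h.qf_hom (0 : ℂ) (0 : Fin n → ℂ)
    rw [zero_smul, zero_pow h.m_pos.ne', zero_mul] at h3
    exact h3
  have hx0' : 0 < ‖x₀‖ := norm_pos_iff.2 hx0
  set c : ℂ := (((3 / 4) / ‖x₀‖ : ℝ) : ℂ) with hc
  have hc0 : c ≠ 0 := by
    rw [hc]
    have : (3 / 4) / ‖x₀‖ ≠ 0 := by positivity
    exact_mod_cast this
  have hcn : ‖c • x₀‖ = 3 / 4 := by
    rw [norm_smul, hc, Complex.norm_real, Real.norm_eq_abs, abs_of_pos (by positivity)]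
    field_simp
  have hq1 : eval (c • x₀) (qf f) ≠ 0 := by
    rw [eval_smul_of_homog h.qf_hom]
    exact mul_ne_zero (pow_ne_zero _ hc0) hq
  have hr1 : (pol f (c • x₀)).eval (c * y₁) = 0 := by rw [h.pol_smul, h1, mul_zero]
  have hr2 : (pol f (c • x₀)).eval (c * y₂) = 0 := by rw [h.pol_smul, h2, mul_zero]
  have hne : c * y₁ ≠ c * y₂ := fun he => h12 (mul_left_cancel₀ hc0 he)
  have hW : (Yu.W (finSuccEquiv ℂ n f) k).map (eval (c • x₀)) ≠ 0 := by
    intro h0
    rw [Yu.W_map, sub_eq_zero] at h0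
    exact hne (roots_eq_of_ode h.hk (h.natDegree_pol hq1) h0 hr1 hr2)
  obtain ⟨y₀, hy0⟩ : ∃ y₀ : ℂ, ((Yu.W (finSuccEquiv ℂ n f) k).map (eval (c • x₀))).eval y₀ ≠ 0 := by
    by_contra hcon
    push Not at hcon
    exact hW (Polynomial.funext fun r => by rw [hcon r, Polynomial.eval_zero])
  refine ⟨{x | 1 / 2 < ‖x‖} ∩ {x | ‖x‖ < 1} ∩ {x | eval x (qf f) ≠ 0} ∩
    {x | ((Yu.W (finSuccEquiv ℂ n f) k).map (eval x)).eval y₀ ≠ 0}, ?_, ?_, ?_, ?_⟩
  · refine ((IsOpen.inter ?_ ?_).inter ?_).inter ?_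
    · exact isOpen_lt continuous_const continuous_norm
    · exact isOpen_lt continuous_norm continuous_const
    · exact isOpen_ne_fun (MvPolynomial.continuous_eval _) continuous_const
    · exact isOpen_ne_fun (Yu.continuous_eval_map _ _) continuous_const
  · refine ⟨c • x₀, ⟨⟨?_, ?_⟩, hq1⟩, hy0⟩
    · show 1 / 2 < ‖c • x₀‖
      rw [hcn]; norm_num
    · show ‖c • x₀‖ < 1
      rw [hcn]; norm_num
  · rintro x ⟨⟨⟨hx1, hx2⟩, -⟩, -⟩
    rw [mem_ann]
    have hx1' : 1 / 2 < ‖x‖ := hx1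
    have hx2' : ‖x‖ < 1 := hx2
    constructor
    · simpa using hx2'.le
    · norm_num
      linarith
  · rintro x ⟨⟨-, hx3⟩, hx4⟩
    have hx3' : eval x (qf f) ≠ 0 := hx3
    refine ⟨hx3', ?_⟩
    refine exists_roots_of_not_ode h.hk (h.natDegree_pol hx3') fun he => hx4 ?_
    rw [Yu.W_map]
    unfold pol at he
    rw [he, sub_self, Polynomial.eval_zero]

end MPb07157.Alp
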