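import Pool.Agent.Lib.MP_b07157_agY.Ym6
import Pool.Agent.Lib.MP_b07157_agY.Yu

/-!
# The root `-n/d` of a homogeneous polynomial with a point of large multiplicity
-/

noncomputable section

namespace MPb07157.Alp

open MeasureTheory Filter Topology MvPolynomial
open scoped ENNReal

variable {n : ℕ} {f : MvPolynomial (Fin (n + 1)) ℂ} {d k m : ℕ}

/-- The sequence of exponents. -/
def tj (c : ℝ) (j : ℕ) : ℝ := c - c / (j + 2)

theorem tj_lt {c : ℝ} (hc : 0 < c) (j : ℕ) : tj c j < c := by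
  have : 0 < c / ((j : ℝ) + 2) := by positivity
  unfold tj
  linarith

theorem tj_pos {c : ℝ} (hc : 0 < c) (j : ℕ) : 0 < tj c j := by
  have h1 : c / ((j : ℝ) + 2) < c := by
    rw [div_lt_iff₀ (by positivity)]
    nlinarith [(Nat.cast_nonneg j : (0 : ℝ) ≤ j)]
  unfold tj
  linarith

theorem tendsto_tj (c : ℝ) : Tendsto (tj c) atTop (𝓝 c) := by
  have h1 : Tendsto (fun k : ℕ => c / ((k : ℝ) + 2)) atTop (𝓝 0) := by
    apply Tendsto.const_div_atTop
    exact tendsto_atTop_add_const_right _ _ tendsto_natCast_atTop_atTop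
  have h2 := h1.const_sub c
  rwa [sub_zero] at h2

theorem tendsto_tjC (c : ℝ) : Tendsto (fun j => (((-tj c j) : ℝ) : ℂ)) atTop (𝓝 ((-c : ℝ) : ℂ)) :=
  (Complex.continuous_ofReal.tendsto _).comp (tendsto_tj c).neg

theorem Dat.EE_ne_zero (h : Dat f d k m) : EE n m ((-cc n d : ℝ) : ℂ) ≠ 0 := by
  have hd : (0 : ℝ) < d := by exact_mod_cast h.d_pos
  have h1 : (m : ℝ) + k = d := by exact_mod_cast h.hd
  have h2 := h.cc_mul_d
  have h3 := h.cc_mul_k
  have h4 : (0 : ℝ) < m * cc n d - n := by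
    have : m * cc n d = d * cc n d - k * cc n d := by rw [← h1]; ring
    nlinarith
  have hlog : 0 < Real.log 2 := Real.log_pos (by norm_num)
  have e : Complex.exp (-(2 * n + 2 * m * ((-cc n d : ℝ) : ℂ)) * Real.log 2) =
      ((Real.exp (2 * (m * cc n d - n) * Real.log 2) : ℝ) : ℂ) := by
    push_cast
    congr 1
    ring
  unfold EE
  rw [e]
  intro h5
  have h6 : Real.exp (2 * (m * cc n d - n) * Real.log 2) = 1 := by
    have := sub_eq_zero.1 h5
    exact_mod_cast this.symm
  rw [Real.exp_eq_one_iff] at h6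
  have h7 : 0 < 2 * (m * cc n d - n) * Real.log 2 := by positivity
  linarith

/-- If `-n/d` is not a root then the continuation has a limit. -/
theorem Dat.exists_limit (h : Dat f d k m) (hH : HInt f d k) {b : Polynomial ℂ}
    (hb : IsBernsteinSato f b) (hne : b.eval ((-cc n d : ℝ) : ℂ) ≠ 0) :
    ∃ L : ℂ, Tendsto (fun j => MM f k ((-tj (cc n d) j : ℝ) : ℂ)) atTop (𝓝 L) := by
  obtain ⟨B, hB1, hB2⟩ := h.functional_equation hH hb
  have hc := h.cc_pos
  have hk : 0 < k := by have := h.hk; omega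
  have hlim := tendsto_tjC (cc n d)
  have c1 : ContinuousAt B ((-cc n d : ℝ) : ℂ) := by
    refine (hB1.differentiableAt ?_).continuousAt
    refine (isOpen_lt continuous_const Complex.continuous_re).mem_nhds ?_
    simp only [Set.mem_ofPred_eq, Complex.ofReal_re]
    have := h.cc_lt
    linarith
  have c2 : ContinuousAt (LL (Polynomial.X ^ k)) ((-cc n d : ℝ) : ℂ) := by
    refine ((differentiableOn_LL hk (Polynomial.natDegree_X_pow k)).differentiableAt ?_).continuousAt
    refine (isOpen_lt continuous_const Complex.continuous_re).mem_nhds ?_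
    simp only [Set.mem_ofPred_eq, Complex.ofReal_re]
    have h1 := h.cc_mul_k
    have h2 : (0 : ℝ) < k := by exact_mod_cast hk
    have h3 : cc n d < 1 / k := by
      rw [lt_div_iff₀ h2]
      linarith
    linarith
  have c3 : ContinuousAt (RD f) ((-cc n d : ℝ) : ℂ) := by
    refine ((h.differentiableOn_RD hH).differentiableAt ?_).continuousAt
    refine (isOpen_lt continuous_const Complex.continuous_re).mem_nhds ?_
    simp only [Set.mem_ofPred_eq, Complex.ofReal_re]
    have := h.cc_lt_aa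
    linarith
  have c4 : ContinuousAt (EE n m) ((-cc n d : ℝ) : ℂ) := (differentiable_EE n m).continuous.continuousAt
  have hEne := h.EE_ne_zero
  refine ⟨(EE n m ((-cc n d : ℝ) : ℂ) * B ((-cc n d : ℝ) : ℂ) / b.eval ((-cc n d : ℝ) : ℂ) -
    LL (Polynomial.X ^ k) ((-cc n d : ℝ) : ℂ) * RD f ((-cc n d : ℝ) : ℂ)) /
      EE n m ((-cc n d : ℝ) : ℂ), ?_⟩
  have t1 := c1.tendsto.comp hlim
  have t2 := c2.tendsto.comp hlim
  have t3 := c3.tendsto.comp hlim
  have t4 := c4.tendsto.comp hlim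
  have t5 := (b.continuous.tendsto ((-cc n d : ℝ) : ℂ)).comp hlim
  have t6 := (((t4.mul t1).div t5 hne).sub (t2.mul t3)).div t4 hEne
  refine t6.congr' ?_
  filter_upwards [t4.eventually_ne hEne, t5.eventually_ne hne] with j hj1 hj2
  have h1 := hB2 ((-tj (cc n d) j : ℝ) : ℂ) (by
    rw [Complex.ofReal_re]
    have := tj_lt hc j
    linarith)
  simp only [Function.comp_apply, Pi.div_apply, Pi.mul_apply, Pi.sub_apply] at hj1 hj2 ⊢
  rw [div_eq_iff hj1, sub_eq_iff_eq_add, div_eq_iff hj2, ← h1]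
  ring

theorem Dat.tendsto_dd (h : Dat f d k m) {x : Fin n → ℂ} (hx : eval x (qf f) ≠ 0) :
    Tendsto (fun j => dd f k cut (tj (cc n d) j) x) atTop (𝓝 (dd f k cut (cc n d) x)) := by
  have hk : 0 < k := by have := h.hk; omega
  have key : ∀ p : Polynomial ℂ, p.natDegree = k →
      Tendsto (fun j => JP p cut (tj (cc n d) j)) atTop (𝓝 (JP p cut (cc n d))) := by
    intro p hp
    have c2 : ContinuousAt (LL p) ((-cc n d : ℝ) : ℂ) := by
      refine ((differentiableOn_LL hk hp).differentiableAt ?_).continuousAt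
      refine (isOpen_lt continuous_const Complex.continuous_re).mem_nhds ?_
      simp only [Set.mem_ofPred_eq, Complex.ofReal_re]
      have h1 := h.cc_mul_k
      have h2 : (0 : ℝ) < k := by exact_mod_cast hk
      have h3 : cc n d < 1 / k := by
        rw [lt_div_iff₀ h2]
        linarith
      linarith
    have t1 := c2.tendsto.comp (tendsto_tjC (cc n d))
    have e : (LL p ∘ fun j => (((-tj (cc n d) j) : ℝ) : ℂ)) =
        fun j => ((JP p cut (tj (cc n d) j) : ℝ) : ℂ) := by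
      funext j
      exact LL_eq_JP p _
    rw [e, LL_eq_JP] at t1
    have t2 := (Complex.continuous_re.tendsto _).comp t1
    simpa [Function.comp_def] using t2
  have t1 := key _ (h.natDegree_pol hx)
  have t2 := key _ (Polynomial.natDegree_X_pow k)
  have t3 : Tendsto (fun j => Real.exp (-tj (cc n d) j * L2 (eval x (qf f)))) atTop
      (𝓝 (Real.exp (-cc n d * L2 (eval x (qf f))))) :=
    (Real.continuous_exp.tendsto _).comp ((tendsto_tj (cc n d)).neg.mul_const _)
  exact (t3.mul t2).sub t1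

/-- Fatou: integrability of the difference. -/
theorem Dat.lintegral_dd_lt_top (h : Dat f d k m) (hH : HInt f d k) {b : Polynomial ℂ}
    (hb : IsBernsteinSato f b) (hne : b.eval ((-cc n d : ℝ) : ℂ) ≠ 0) :
    ∫⁻ x in Metric.closedBall (0 : Fin n → ℂ) 1, ENNReal.ofReal (dd f k cut (cc n d) x) < ⊤ := by
  obtain ⟨L, hL⟩ := h.exists_limit hH hb hne
  have hc := h.cc_pos
  have hk : 0 < k := by have := h.hk; omega
  have hk' : (0 : ℝ) < k := by exact_mod_cast hk
  set G : ℕ → (Fin n → ℂ) → ℝ≥0∞ := fun j x =>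
    ENNReal.ofReal (psi n x * dd f k cut (tj (cc n d) j) x) with hG
  have hGm : ∀ j, Measurable (G j) := fun j =>
    ((psi n).continuous.measurable.mul (measurable_dd f k antitone_cut.measurable _)).ennreal_ofReal
  have hnn : ∀ j, ∀ᵐ x : Fin n → ℂ, 0 ≤ psi n x * dd f k cut (tj (cc n d) j) x := by
    intro j
    filter_upwards [ae_eval_ne_zero h.qf_ne_zero] with x hx
    refine mul_nonneg (psi n).nonneg (h.dd_nonneg cut_cut (tj_pos hc j) ?_ hx)
    have h1 := h.cc_mul_k
    have h2 := tj_lt hc j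
    nlinarith
  have hval : ∀ j, ∫⁻ x, G j x = ENNReal.ofReal ‖MM f k ((-tj (cc n d) j : ℝ) : ℂ)‖ := by
    intro j
    obtain ⟨hi, hM⟩ := h.MM_neg hH (tj_pos hc j) (tj_lt hc j)
    have h0 : 0 ≤ ∫ x : Fin n → ℂ, psi n x * dd f k cut (tj (cc n d) j) x :=
      integral_nonneg_of_ae (hnn j)
    rw [hM, Complex.norm_real, Real.norm_eq_abs, abs_neg, abs_of_nonneg h0,
      ofReal_integral_eq_lintegral_ofReal hi (hnn j)]
  have hfatou : ∫⁻ x, liminf (fun j => G j x) atTop ≤ liminf (fun j => ∫⁻ x, G j x) atTop :=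
    lintegral_liminf_le hGm
  have hlim2 : Tendsto (fun j => ∫⁻ x, G j x) atTop (𝓝 (ENNReal.ofReal ‖L‖)) := by
    simp only [hval]
    exact (ENNReal.continuous_ofReal.tendsto _).comp hL.norm
  rw [hlim2.liminf_eq] at hfatou
  have hptw : ∀ᵐ x : Fin n → ℂ, liminf (fun j => G j x) atTop =
      ENNReal.ofReal (psi n x * dd f k cut (cc n d) x) := by
    filter_upwards [ae_eval_ne_zero h.qf_ne_zero] with x hx
    apply Tendsto.liminf_eq
    exact (ENNReal.continuous_ofReal.tendsto _).comp ((h.tendsto_dd hx).const_mul _)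
  rw [lintegral_congr_ae hptw] at hfatou
  refine lt_of_le_of_lt ?_ (lt_of_le_of_lt hfatou ENNReal.ofReal_lt_top)
  rw [← lintegral_indicator Metric.isClosed_closedBall.measurableSet]
  refine lintegral_mono fun x => ?_
  by_cases hx : x ∈ Metric.closedBall (0 : Fin n → ℂ) 1
  · rw [Set.indicator_of_mem hx, psi_one (mem_closedBall_zero_iff.1 hx), one_mul]
  · rw [Set.indicator_of_notMem hx]
    exact zero_le

/-- Scaling of the fibre integrals. -/
theorem JP_scale {p p' : Polynomial ℂ} (hp : p ≠ 0) {l : ℝ} (hl : 0 < l) {e : ℕ}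
    (hpp : ∀ y : ℂ, p'.eval ((l : ℂ) * y) = (l : ℂ) ^ e * p.eval y) (v : ℝ → ℝ) (t : ℝ) :
    JP p' v t = l ^ (2 - 2 * e * t) * JP p (fun r => v (l * r)) t := by
  have h1 := Measure.integral_comp_smul (volume : Measure ℂ)
    (fun y : ℂ => Real.exp (-t * L2 (p'.eval y)) * v ‖y‖) l
  have h2 : ∀ᵐ y : ℂ, (fun y : ℂ => Real.exp (-t * L2 (p'.eval y)) * v ‖y‖) (l • y) =
      l ^ (-(2 * e * t)) * (Real.exp (-t * L2 (p.eval y)) * v (l * ‖y‖)) := by
    filter_upwards [ae_eval_poly_ne_zero hp] with y hy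
    have hlC : (l : ℂ) ≠ 0 := by exact_mod_cast hl.ne'
    simp only [Complex.real_smul]
    rw [hpp, L2_mul (pow_ne_zero _ hlC) hy, norm_mul, Complex.norm_real,
      Real.norm_of_nonneg hl.le, mul_add, Real.exp_add, exp_L2 (pow_ne_zero _ hlC), norm_pow,
      Complex.norm_real, Real.norm_of_nonneg hl.le, ← Real.rpow_natCast, ← Real.rpow_mul hl.le]
    have e1 : (e : ℝ) * (2 * -t) = -(2 * e * t) := by ring
    rw [e1]
    ring
  rw [integral_congr_ae h2, integral_const_mul, Complex.finrank_real_complex, smul_eq_mul,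
    abs_of_nonneg (by positivity)] at h1
  have h3 : l ^ (2 - 2 * e * t) = l ^ 2 * l ^ (-(2 * e * t)) := by
    rw [sub_eq_add_neg, Real.rpow_add hl, Real.rpow_two]
  unfold JP
  rw [h3, mul_assoc, h1, ← mul_assoc, mul_inv_cancel₀ (by positivity), one_mul]

theorem Dat.dd_scale (h : Dat f d k m) {x : Fin n → ℂ} (hx : eval x (qf f) ≠ 0) {l : ℝ}
    (hl : 0 < l) (v : ℝ → ℝ) :
    dd f k v (cc n d) (l • x) = (l ^ (2 * n))⁻¹ * dd f k (fun r => v (l * r)) (cc n d) x := by
  have hlC : (l : ℂ) ≠ 0 := by exact_mod_cast hl.ne'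
  have hsm : l • x = (l : ℂ) • x := by
    funext i
    simp
  have hp0 : pol f x ≠ 0 := by
    intro h0
    have h3 := h.natDegree_pol hx
    rw [h0, Polynomial.natDegree_zero] at h3
    have := h.hk
    omega
  have e1 := JP_scale (p := pol f x) (p' := pol f (l • x)) hp0 hl (e := d) (fun y => by
    rw [hsm]
    exact h.pol_smul _ _ _) v (cc n d)
  have e2 := JP_scale (p := Polynomial.X ^ k) (p' := Polynomial.X ^ k)
    (pow_ne_zero _ Polynomial.X_ne_zero) hl (e := k) (fun y => by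
      simp only [Polynomial.eval_pow, Polynomial.eval_X, mul_pow]) v (cc n d)
  have e3 : Real.exp (-cc n d * L2 (eval (l • x) (qf f))) =
      l ^ (-(2 * m * cc n d)) * Real.exp (-cc n d * L2 (eval x (qf f))) := by
    rw [hsm, eval_smul_of_homog h.qf_hom, L2_mul (pow_ne_zero _ hlC) hx, mul_add, Real.exp_add,
      exp_L2 (pow_ne_zero _ hlC), norm_pow,
      Complex.norm_real, Real.norm_of_nonneg hl.le, ← Real.rpow_natCast, ← Real.rpow_mul hl.le]
    congr 2
    ring
  have hcd := h.cc_mul_d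
  have hmk : (m : ℝ) + k = d := by exact_mod_cast h.hd
  have e4 : l ^ (2 - 2 * (d : ℝ) * cc n d) = (l ^ (2 * n))⁻¹ := by
    rw [← Real.rpow_natCast, ← Real.rpow_neg hl.le]
    congr 1
    push_cast
    linarith
  have e5 : l ^ (-(2 * m * cc n d)) * l ^ (2 - 2 * (k : ℝ) * cc n d) = (l ^ (2 * n))⁻¹ := by
    rw [← Real.rpow_add hl, ← e4]
    congr 1
    rw [← hmk]
    ring
  unfold dd
  rw [e1, e2, e3, e4, mul_sub, ← e5]
  ring

/-- **The root `-n/d`** (here `n + 1` is the number of variables). -/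
theorem Dat.root (h : Dat f d k m) (hH : HInt f d k) {x₀ : Fin n → ℂ} {y₁ y₂ : ℂ}
    (hq : eval x₀ (qf f) ≠ 0) (h12 : y₁ ≠ y₂) (h1 : (pol f x₀).eval y₁ = 0)
    (h2 : (pol f x₀).eval y₂ = 0) {b : Polynomial ℂ} (hb : IsBernsteinSato f b) :
    b.eval ((-cc n d : ℝ) : ℂ) = 0 := by
  by_contra hne
  have hlt := h.lintegral_dd_lt_top hH hb hne
  have hc := h.cc_pos
  obtain ⟨U, hUo, hUne, hUsub, hU⟩ := h.exists_open hq h12 h1 h2
  set l : ℕ → ℝ := fun i => (1 / 2 : ℝ) ^ i with hl
  have hlpos : ∀ i, 0 < l i := fun i => by simp only [hl]; positivity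
  have hl1 : ∀ i, l i ≤ 1 := fun i => pow_le_one₀ (by norm_num) (by norm_num)
  set v : ℕ → ℝ → ℝ := fun i r => cut (l i * r) with hv
  have hvc : ∀ i, Cut (v i) := fun i => cut_cut.scale (hlpos i) (hl1 i)
  set G : ℕ → (Fin n → ℂ) → ℝ≥0∞ := fun i x => ENNReal.ofReal (dd f k (v i) (cc n d) x) with hG
  have hGm : ∀ i, Measurable (G i) := fun i =>
    (measurable_dd f k (hvc i).anti.measurable _).ennreal_ofReal
  have hval : ∀ i, ∫⁻ x in ann n 1 0, G i x =
      ∫⁻ x in ann n 1 i, ENNReal.ofReal (dd f k cut (cc n d) x) := by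
    intro i
    have e1 := setLIntegral_ann (n := n) (fun x => ENNReal.ofReal (dd f k cut (cc n d) x)) 1 i 0
    rw [add_zero] at e1
    have e2 : ∫⁻ x in ann n 1 0, ENNReal.ofReal (dd f k cut (cc n d) (((1 / 2 : ℝ) ^ i) • x)) =
        ENNReal.ofReal (((1 / 2 : ℝ) ^ (i * (2 * n)))⁻¹) * ∫⁻ x in ann n 1 0, G i x := by
      rw [← lintegral_const_mul' _ _ ENNReal.ofReal_ne_top]
      refine lintegral_congr_ae ?_
      filter_upwards [ae_restrict_of_ae (ae_eval_ne_zero h.qf_ne_zero)] with x hx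
      have e3 := h.dd_scale hx (hlpos i) cut
      simp only [hl] at e3
      rw [e3, ENNReal.ofReal_mul (by positivity), ← pow_mul]
    rw [e2] at e1
    have hne0 : ENNReal.ofReal (((1 / 2 : ℝ) ^ (i * (2 * n)))⁻¹) ≠ 0 :=
      (ENNReal.ofReal_pos.2 (by positivity)).ne'
    exact (ENNReal.mul_right_inj hne0 ENNReal.ofReal_ne_top).1 e1
  have hsum : ∑' i, ∫⁻ x in ann n 1 0, G i x ≠ ⊤ := by
    simp only [hval]
    rw [← lintegral_closedBall_eq_tsum h.n_pos one_pos]
    exact hlt.ne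
  have htend := ENNReal.tendsto_atTop_zero_of_tsum_ne_top hsum
  have hfatou : ∫⁻ x in ann n 1 0, liminf (fun i => G i x) atTop ≤
      liminf (fun i => ∫⁻ x in ann n 1 0, G i x) atTop := lintegral_liminf_le hGm
  rw [htend.liminf_eq] at hfatou
  have hzero : ∫⁻ x in ann n 1 0, liminf (fun i => G i x) atTop = 0 := le_antisymm hfatou zero_le
  rw [lintegral_eq_zero_iff (Measurable.liminf hGm)] at hzero
  have hpos : ∀ x ∈ U, 0 < liminf (fun i => G i x) atTop := by
    intro x hx
    obtain ⟨hqx, z₁, z₂, hz12, hz1, hz2⟩ := hU x hx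
    obtain ⟨δ, hδ, hδ'⟩ := h.dd_ge hc h.cc_mul_k hqx hz12 hz1 hz2
    refine lt_of_lt_of_le (ENNReal.ofReal_pos.2 hδ) ?_
    refine le_liminf_of_le ?_ ?_
    · isBoundedDefault
    · exact Eventually.of_forall fun i => ENNReal.ofReal_le_ofReal (hδ' _ (hvc i))
  have hUz : volume U = 0 := by
    rw [Filter.EventuallyEq, ae_restrict_iff' (measurableSet_ann 1 0)] at hzero
    refine measure_mono_null (fun x hx => ?_) hzero
    simp only [Set.mem_compl_iff, Set.mem_ofPred_eq, Classical.not_imp]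
    exact ⟨hUsub hx, (hpos x hx).ne'⟩
  exact (hUo.measure_pos volume hUne).ne' hUz

end MPb07157.Alp
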